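import Mathlib

/-!
Bipartite DAGs, upward planar drawings, poly-line upward planar grid drawings and their area.
-/

set_option autoImplicit false

namespace Pool.Agent.H204R2.BD

/-- A bipartite DAG with vertex set `Fin n`. `Adj u v` says that there is an edge directed from `u`
to `v`; the vertices are partitioned into `V₁` and its complement `V₂` such that every edge is
directed from a vertex of `V₁` to a vertex of `V₂`. -/
structure BipDAG (n : ℕ) where
  Adj : Fin n → Fin n → Prop
  bipartite : ∃ V₁ : Set (Fin n), ∀ u v, Adj u v → u ∈ V₁ ∧ v ∉ V₁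

/-- An upward planar drawing of `G`: the vertices are at distinct points of the plane, every edge
`(u, v)` is drawn as a curve from `u` to `v` whose `y`-coordinate is strictly increasing, that is, as
the set of the points `(curve u v y, y)`, `y(u) ≤ y ≤ y(v)`, for a continuous function `curve u v`,
two different edges meet only in (the point of) a common end, and an edge passes through no vertex
other than its ends. -/
structure UpwardPlanarDrawing {n : ℕ} (G : BipDAG n) where
  pos : Fin n → ℝ × ℝ
  pos_inj : Function.Injective pos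
  curve : Fin n → Fin n → ℝ → ℝ
  upward : ∀ u v, G.Adj u v → (pos u).2 < (pos v).2
  continuous : ∀ u v, G.Adj u v → ContinuousOn (curve u v) (Set.Icc (pos u).2 (pos v).2)
  start : ∀ u v, G.Adj u v → curve u v (pos u).2 = (pos u).1
  stop : ∀ u v, G.Adj u v → curve u v (pos v).2 = (pos v).1
  noncrossing : ∀ u v u' v', G.Adj u v → G.Adj u' v' → (u, v) ≠ (u', v') →
    ∀ y ∈ Set.Icc (pos u).2 (pos v).2, y ∈ Set.Icc (pos u').2 (pos v').2 →
      curve u v y = curve u' v' y →
      ∃ w, (w = u ∨ w = v) ∧ (w = u' ∨ w = v') ∧ (curve u v y, y) = pos w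
  vertex_free : ∀ u v w, G.Adj u v → (pos w).2 ∈ Set.Icc (pos u).2 (pos v).2 →
    curve u v (pos w).2 = (pos w).1 → w = u ∨ w = v

/-- the point of the real plane given by a grid point -/
def toPlane (p : ℤ × ℤ) : ℝ × ℝ := ((p.1 : ℝ), (p.2 : ℝ))

/-- the polygonal chain with the given successive corners -/
def polyline : List (ℤ × ℤ) → Set (ℝ × ℝ)
  | [] => ∅
  | [p] => {toPlane p}
  | p :: q :: l => segment ℝ (toPlane p) (toPlane q) ∪ polyline (q :: l)

/-- A poly-line upward planar grid drawing of `G`: the vertices are at distinct grid points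
`pos v`, every edge `(u, v)` is drawn as the polygonal chain with corners `pos u`, `bends u v`,
`pos v` (all of them grid points) whose `y`-coordinate is strictly increasing, two different edges
meet only in (the point of) a common end, and an edge passes through no vertex other than its
ends. -/
structure PolylineDrawing {n : ℕ} (G : BipDAG n) where
  pos : Fin n → ℤ × ℤ
  pos_inj : Function.Injective pos
  bends : Fin n → Fin n → List (ℤ × ℤ)
  upward : ∀ u v, G.Adj u v →
    List.IsChain (fun p q : ℤ × ℤ => p.2 < q.2) (pos u :: (bends u v ++ [pos v]))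
  noncrossing : ∀ u v u' v', G.Adj u v → G.Adj u' v' → (u, v) ≠ (u', v') →
    ∀ z, z ∈ polyline (pos u :: (bends u v ++ [pos v])) →
      z ∈ polyline (pos u' :: (bends u' v' ++ [pos v'])) →
      ∃ w, (w = u ∨ w = v) ∧ (w = u' ∨ w = v') ∧ z = toPlane (pos w)
  vertex_free : ∀ u v w, G.Adj u v →
    toPlane (pos w) ∈ polyline (pos u :: (bends u v ++ [pos v])) → w = u ∨ w = v

/-- The drawing lies in the axis-parallel rectangle `[x₀, x₀ + W] × [y₀, y₀ + H]`. -/
def PolylineDrawing.InBox {n : ℕ} {G : BipDAG n} (D : PolylineDrawing G)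
    (x₀ y₀ : ℤ) (W H : ℕ) : Prop :=
  (∀ v, x₀ ≤ (D.pos v).1 ∧ (D.pos v).1 ≤ x₀ + W ∧ y₀ ≤ (D.pos v).2 ∧ (D.pos v).2 ≤ y₀ + H) ∧
  (∀ u v, G.Adj u v → ∀ p ∈ D.bends u v,
    x₀ ≤ p.1 ∧ p.1 ≤ x₀ + W ∧ y₀ ≤ p.2 ∧ p.2 ≤ y₀ + H)

/-- The area of a drawing: width times height of the smallest axis-parallel rectangle that
contains it, i.e. the least `W * H` over all rectangles with integer corners, of width `W` and
height `H`, that contain the drawing. -/
noncomputable def PolylineDrawing.area {n : ℕ} {G : BipDAG n} (D : PolylineDrawing G) : ℕ :=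
  sInf {a | ∃ (x₀ y₀ : ℤ) (W H : ℕ), D.InBox x₀ y₀ W H ∧ a = W * H}

/-- the minimum area of a poly-line upward planar grid drawing of `G` -/
noncomputable def minArea {n : ℕ} (G : BipDAG n) : ℕ :=
  sInf {a | ∃ D : PolylineDrawing G, a = D.area}

/-- `Ap n`: the maximum, over all bipartite DAGs `G` with `n` vertices that have an upward planar
drawing, of the minimum area of a poly-line upward planar grid drawing of `G`. -/
noncomputable def Ap (n : ℕ) : ℕ :=
  sSup {a | ∃ G : BipDAG n, Nonempty (UpwardPlanarDrawing G) ∧ a = minArea G}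

end Pool.Agent.H204R2.BD
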