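import Pool.Agent.H204R2.MD

/-!
Exactly one of the six 4-cycles of a drawn cube encloses the other four vertices; a middle ring
separates its two neighbour rings.
-/

set_option autoImplicit false

namespace Pool.Agent.H204R2

namespace MD

variable {V : Type} (M : MD V)

/-- a cube graph: `s i` is adjacent to `t j` for `i ≠ j` -/
structure Cube (s0 s1 s2 s3 t0 t1 t2 t3 : V) : Prop where
  e01 : M.E s0 t1
  e02 : M.E s0 t2
  e03 : M.E s0 t3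
  e10 : M.E s1 t0
  e12 : M.E s1 t2
  e13 : M.E s1 t3
  e20 : M.E s2 t0
  e21 : M.E s2 t1
  e23 : M.E s2 t3
  e30 : M.E s3 t0
  e31 : M.E s3 t1
  e32 : M.E s3 t2
  s01 : s0 ≠ s1
  s02 : s0 ≠ s2
  s03 : s0 ≠ s3
  s12 : s1 ≠ s2
  s13 : s1 ≠ s3
  s23 : s2 ≠ s3
  t01 : t0 ≠ t1
  t02 : t0 ≠ t2
  t03 : t0 ≠ t3
  t12 : t1 ≠ t2
  t13 : t1 ≠ t3
  t23 : t2 ≠ t3

/-- the sum over the six 4-cycles of the parity at the vertices off the 4-cycle -/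
noncomputable def csum (s0 s1 s2 s3 t0 t1 t2 t3 : V) : ZMod 2 :=
  M.chv s0 s1 t2 t3 t1 + M.chv s0 s2 t1 t3 t2 + M.chv s0 s3 t1 t2 t3 +
  M.chv s1 s2 t0 t3 t2 + M.chv s1 s3 t0 t2 t3 + M.chv s2 s3 t0 t1 t3

variable {M}
variable {s0 s1 s2 s3 t0 t1 t2 t3 : V}

theorem Cube.swap01 (C : M.Cube s0 s1 s2 s3 t0 t1 t2 t3) : M.Cube s1 s0 s2 s3 t1 t0 t2 t3 := by
  obtain ⟨e01, e02, e03, e10, e12, e13, e20, e21, e23, e30, e31, e32,
    s01, s02, s03, s12, s13, s23, t01, t02, t03, t12, t13, t23⟩ := C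
  constructor <;> first | assumption | exact Ne.symm (by assumption)

theorem Cube.swap02 (C : M.Cube s0 s1 s2 s3 t0 t1 t2 t3) : M.Cube s2 s1 s0 s3 t2 t1 t0 t3 := by
  obtain ⟨e01, e02, e03, e10, e12, e13, e20, e21, e23, e30, e31, e32,
    s01, s02, s03, s12, s13, s23, t01, t02, t03, t12, t13, t23⟩ := C
  constructor <;> first | assumption | exact Ne.symm (by assumption)

theorem Cube.swap03 (C : M.Cube s0 s1 s2 s3 t0 t1 t2 t3) : M.Cube s3 s1 s2 s0 t3 t1 t2 t0 := by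
  obtain ⟨e01, e02, e03, e10, e12, e13, e20, e21, e23, e30, e31, e32,
    s01, s02, s03, s12, s13, s23, t01, t02, t03, t12, t13, t23⟩ := C
  constructor <;> first | assumption | exact Ne.symm (by assumption)

theorem Cube.q01 (C : M.Cube s0 s1 s2 s3 t0 t1 t2 t3) : M.Quad s0 s1 t2 t3 :=
  ⟨C.e02, C.e03, C.e12, C.e13⟩
theorem Cube.q02 (C : M.Cube s0 s1 s2 s3 t0 t1 t2 t3) : M.Quad s0 s2 t1 t3 :=
  ⟨C.e01, C.e03, C.e21, C.e23⟩
theorem Cube.q03 (C : M.Cube s0 s1 s2 s3 t0 t1 t2 t3) : M.Quad s0 s3 t1 t2 :=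
  ⟨C.e01, C.e02, C.e31, C.e32⟩
theorem Cube.q12 (C : M.Cube s0 s1 s2 s3 t0 t1 t2 t3) : M.Quad s1 s2 t0 t3 :=
  ⟨C.e10, C.e13, C.e20, C.e23⟩
theorem Cube.q13 (C : M.Cube s0 s1 s2 s3 t0 t1 t2 t3) : M.Quad s1 s3 t0 t2 :=
  ⟨C.e10, C.e12, C.e30, C.e32⟩
theorem Cube.q23 (C : M.Cube s0 s1 s2 s3 t0 t1 t2 t3) : M.Quad s2 s3 t0 t1 :=
  ⟨C.e20, C.e21, C.e30, C.e31⟩

/-- the two off sinks of a 4-cycle have the same parity -/
theorem Cube.off01 (C : M.Cube s0 s1 s2 s3 t0 t1 t2 t3) :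
    M.chv s0 s1 t2 t3 t0 = M.chv s0 s1 t2 t3 t1 := by
  rw [← M.chv_edge C.q01 C.e20 C.s02.symm C.s12.symm C.t02 C.t03,
    ← M.chv_edge C.q01 C.e21 C.s02.symm C.s12.symm C.t12 C.t13]

theorem Cube.off02 (C : M.Cube s0 s1 s2 s3 t0 t1 t2 t3) :
    M.chv s0 s2 t1 t3 t0 = M.chv s0 s2 t1 t3 t2 := by
  rw [← M.chv_edge C.q02 C.e10 C.s01.symm C.s12 C.t01 C.t03,
    ← M.chv_edge C.q02 C.e12 C.s01.symm C.s12 C.t12.symm C.t23]

theorem Cube.off03 (C : M.Cube s0 s1 s2 s3 t0 t1 t2 t3) :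
    M.chv s0 s3 t1 t2 t0 = M.chv s0 s3 t1 t2 t3 := by
  rw [← M.chv_edge C.q03 C.e10 C.s01.symm C.s13 C.t01 C.t02,
    ← M.chv_edge C.q03 C.e13 C.s01.symm C.s13 C.t13.symm C.t23.symm]

theorem Cube.off12 (C : M.Cube s0 s1 s2 s3 t0 t1 t2 t3) :
    M.chv s1 s2 t0 t3 t1 = M.chv s1 s2 t0 t3 t2 := by
  rw [← M.chv_edge C.q12 C.e01 C.s01 C.s02 C.t01.symm C.t13,
    ← M.chv_edge C.q12 C.e02 C.s01 C.s02 C.t02.symm C.t23]

theorem Cube.off13 (C : M.Cube s0 s1 s2 s3 t0 t1 t2 t3) :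
    M.chv s1 s3 t0 t2 t1 = M.chv s1 s3 t0 t2 t3 := by
  rw [← M.chv_edge C.q13 C.e01 C.s01 C.s03 C.t01.symm C.t12,
    ← M.chv_edge C.q13 C.e03 C.s01 C.s03 C.t03.symm C.t23.symm]

theorem Cube.off23 (C : M.Cube s0 s1 s2 s3 t0 t1 t2 t3) :
    M.chv s2 s3 t0 t1 t2 = M.chv s2 s3 t0 t1 t3 := by
  rw [← M.chv_edge C.q23 C.e02 C.s02 C.s03 C.t02.symm C.t12.symm,
    ← M.chv_edge C.q23 C.e03 C.s02 C.s03 C.t03.symm C.t13.symm]

theorem chv_swap1 (a c b d w : V) : M.chv a c b d w = M.chv c a b d w := M.chi_swap1 _ _ _ _ _ _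
theorem chv_swap2 (a c b d w : V) : M.chv a c b d w = M.chv a c d b w := M.chi_swap2 _ _ _ _ _ _

theorem Cube.csum01 (C : M.Cube s0 s1 s2 s3 t0 t1 t2 t3) :
    M.csum s1 s0 s2 s3 t1 t0 t2 t3 = M.csum s0 s1 s2 s3 t0 t1 t2 t3 := by
  unfold csum
  rw [chv_swap1 s1 s0, C.off01, chv_swap2 s2 s3 t1 t0]
  ring

theorem Cube.csum02 (C : M.Cube s0 s1 s2 s3 t0 t1 t2 t3) :
    M.csum s2 s1 s0 s3 t2 t1 t0 t3 = M.csum s0 s1 s2 s3 t0 t1 t2 t3 := by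
  unfold csum
  rw [chv_swap1 s2 s1 t0 t3, chv_swap1 s2 s0 t1 t3, chv_swap2 s2 s3 t1 t0, chv_swap1 s1 s0 t2 t3,
    chv_swap2 s1 s3 t2 t0, chv_swap2 s0 s3 t2 t1, C.off12, C.off02, C.off01]
  ring

theorem Cube.csum03 (C : M.Cube s0 s1 s2 s3 t0 t1 t2 t3) :
    M.csum s3 s1 s2 s0 t3 t1 t2 t0 = M.csum s0 s1 s2 s3 t0 t1 t2 t3 := by
  unfold csum
  rw [chv_swap1 s3 s1 t2 t0, chv_swap2 s1 s3 t2 t0, C.off13, chv_swap1 s3 s2 t1 t0,
    chv_swap2 s2 s3 t1 t0, C.off23, chv_swap1 s3 s0 t1 t2, C.off03, chv_swap2 s1 s2 t3 t0,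
    chv_swap1 s1 s0 t3 t2, chv_swap2 s0 s1 t3 t2, C.off01, chv_swap1 s2 s0 t3 t1,
    chv_swap2 s0 s2 t3 t1, C.off02]
  ring

theorem Cube.low (C : M.Cube s0 s1 s2 s3 t0 t1 t2 t3) (h1 : M.Y s0 ≤ M.Y s1)
    (h2 : M.Y s0 ≤ M.Y s2) (h3 : M.Y s0 ≤ M.Y s3) : M.csum s0 s1 s2 s3 t0 t1 t2 t3 = 1 := by
  classical
  have z12 : M.chv s1 s2 t0 t3 t2 = 0 := by
    rw [← M.chv_edge C.q12 C.e02 C.s01 C.s02 C.t02.symm C.t23]
    exact M.chv_low C.q12 h1 h2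
  have z13 : M.chv s1 s3 t0 t2 t3 = 0 := by
    rw [← M.chv_edge C.q13 C.e03 C.s01 C.s03 C.t03.symm C.t23.symm]
    exact M.chv_low C.q13 h1 h3
  have z23 : M.chv s2 s3 t0 t1 t3 = 0 := by
    rw [← M.chv_edge C.q23 C.e03 C.s02 C.s03 C.t03.symm C.t13.symm]
    exact M.chv_low C.q23 h2 h3
  have l1 := M.lt _ _ C.e01
  have l2 := M.lt _ _ C.e02
  have l3 := M.lt _ _ C.e03
  obtain ⟨y, hy, hy'⟩ := exists_between (lt_min l1 (lt_min l2 l3))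
  have y1 : y < M.Y t1 := hy'.trans_le (min_le_left _ _)
  have y2 : y < M.Y t2 := hy'.trans_le ((min_le_right _ _).trans (min_le_left _ _))
  have y3 : y < M.Y t3 := hy'.trans_le ((min_le_right _ _).trans (min_le_right _ _))
  have a1 := M.chv_third C.q01 C.e01 C.s01.symm C.t12 C.t13 h1 hy y1.le y2 y3
  have a2 := M.chv_third C.q02 C.e02 C.s02.symm C.t12.symm C.t23 h2 hy y2.le y1 y3
  have a3 := M.chv_third C.q03 C.e03 C.s03.symm C.t13.symm C.t23.symm h3 hy y3.le y1 y2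
  unfold csum
  rw [z12, z13, z23, a1, a2, a3]
  have n12 : M.F s0 t1 y ≠ M.F s0 t2 y := by
    intro h
    rcases M.meet _ _ _ _ y C.e01 C.e02 (by simp [C.t12]) hy.le y1.le hy.le y2.le h with ⟨-, e⟩ | ⟨e, -⟩
    · linarith
    · exact C.t12 e
  have n13 : M.F s0 t1 y ≠ M.F s0 t3 y := by
    intro h
    rcases M.meet _ _ _ _ y C.e01 C.e03 (by simp [C.t13]) hy.le y1.le hy.le y3.le h with ⟨-, e⟩ | ⟨e, -⟩
    · linarith
    · exact C.t13 e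
  have n23 : M.F s0 t2 y ≠ M.F s0 t3 y := by
    intro h
    rcases M.meet _ _ _ _ y C.e02 C.e03 (by simp [C.t23]) hy.le y2.le hy.le y3.le h with ⟨-, e⟩ | ⟨e, -⟩
    · linarith
    · exact C.t23 e
  generalize M.F s0 t1 y = p1 at *
  generalize M.F s0 t2 y = p2 at *
  generalize M.F s0 t3 y = p3 at *
  have two : (1 : ZMod 2) + 1 = 0 := by decide
  rcases lt_or_gt_of_ne n12 with h12 | h12 <;> rcases lt_or_gt_of_ne n13 with h13 | h13 <;>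
    rcases lt_or_gt_of_ne n23 with h23 | h23 <;>
    simp only [h12, h13, h23, not_lt.2 h12.le, not_lt.2 h13.le, not_lt.2 h23.le, if_true, if_false,
      add_zero, zero_add, two]

theorem Cube.sum_one (C : M.Cube s0 s1 s2 s3 t0 t1 t2 t3) : M.csum s0 s1 s2 s3 t0 t1 t2 t3 = 1 := by
  by_cases h01 : M.Y s0 ≤ M.Y s1
  · by_cases h02 : M.Y s0 ≤ M.Y s2
    · by_cases h03 : M.Y s0 ≤ M.Y s3
      · exact C.low h01 h02 h03
      · push Not at h03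
        rw [← C.csum03]
        exact C.swap03.low (h03.le.trans h01) (h03.le.trans h02) h03.le
    · push Not at h02
      by_cases h23 : M.Y s2 ≤ M.Y s3
      · rw [← C.csum02]
        exact C.swap02.low (h02.le.trans h01) h02.le h23
      · push Not at h23
        rw [← C.csum03]
        exact C.swap03.low (h23.le.trans (h02.le.trans h01)) h23.le (h23.le.trans h02.le)
  · push Not at h01
    by_cases h12 : M.Y s1 ≤ M.Y s2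
    · by_cases h13 : M.Y s1 ≤ M.Y s3
      · rw [← C.csum01]
        exact C.swap01.low h01.le h12 h13
      · push Not at h13
        rw [← C.csum03]
        exact C.swap03.low h13.le (h13.le.trans h12) (h13.le.trans h01.le)
    · push Not at h12
      by_cases h23 : M.Y s2 ≤ M.Y s3
      · rw [← C.csum02]
        exact C.swap02.low h12.le (h12.le.trans h01.le) h23
      · push Not at h23
        rw [← C.csum03]
        exact C.swap03.low (h23.le.trans h12.le) h23.le (h23.le.trans (h12.le.trans h01.le))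

/-- three consecutive rings `a`, `b`, `c` -/
structure Rings (M : MD V) (a0 a1 a2 a3 b0 b1 b2 b3 c0 c1 c2 c3 : V) : Prop where
  cube : M.Cube a0 a2 b0 b2 b3 b1 a1 a3
  ec01 : M.E c0 c1
  ec03 : M.E c0 c3
  ec21 : M.E c2 c1
  ec23 : M.E c2 c3
  f0 : M.E b0 c1
  f1 : M.E c2 b1
  f2 : M.E b2 c3
  f3 : M.E c0 b3
  c0a0 : c0 ≠ a0
  c0a2 : c0 ≠ a2
  c0b0 : c0 ≠ b0
  c0b2 : c0 ≠ b2
  c2a0 : c2 ≠ a0
  c2a2 : c2 ≠ a2
  c2b0 : c2 ≠ b0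
  c2b2 : c2 ≠ b2
  c1a1 : c1 ≠ a1
  c1a3 : c1 ≠ a3
  c1b1 : c1 ≠ b1
  c1b3 : c1 ≠ b3
  c3a1 : c3 ≠ a1
  c3a3 : c3 ≠ a3
  c3b1 : c3 ≠ b1
  c3b3 : c3 ≠ b3

variable {a0 a1 a2 a3 b0 b1 b2 b3 c0 c1 c2 c3 : V}

theorem Rings.sep (R : Rings M a0 a1 a2 a3 b0 b1 b2 b3 c0 c1 c2 c3) :
    M.chv b0 b2 b1 b3 c0 + M.chv b0 b2 b1 b3 a3 = 1 := by
  have C := R.cube
  have hs := C.sum_one
  -- evaluate at c0
  have hA : M.chv a0 a2 a1 a3 c0 = M.chv a0 a2 a1 a3 b1 := by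
    rw [M.chv_edge C.q01 R.f3 R.c0a0 R.c0a2 C.t02 C.t03, C.off01]
  have h02 : M.chv a0 b0 b1 a3 c0 = M.chv a0 b0 b1 a3 a1 := by
    rw [M.chv_edge C.q02 R.f3 R.c0a0 R.c0b0 C.t01 C.t03, C.off02]
  have h03 : M.chv a0 b2 b1 a1 c0 = M.chv a0 b2 b1 a1 a3 := by
    rw [M.chv_edge C.q03 R.f3 R.c0a0 R.c0b2 C.t01 C.t02, C.off03]
  have h12 : M.chv a2 b0 b3 a3 c0 = M.chv a2 b0 b3 a3 a1 := by
    rw [M.chv_edge C.q12 R.ec01 R.c0a2 R.c0b0 R.c1b3 R.c1a3,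
      ← M.chv_edge C.q12 R.ec21 R.c2a2 R.c2b0 R.c1b3 R.c1a3,
      M.chv_edge C.q12 R.f1 R.c2a2 R.c2b0 C.t01.symm C.t13, C.off12]
  have h13 : M.chv a2 b2 b3 a1 c0 = M.chv a2 b2 b3 a1 a3 := by
    rw [M.chv_edge C.q13 R.ec01 R.c0a2 R.c0b2 R.c1b3 R.c1a1,
      ← M.chv_edge C.q13 R.ec21 R.c2a2 R.c2b2 R.c1b3 R.c1a1,
      M.chv_edge C.q13 R.f1 R.c2a2 R.c2b2 C.t01.symm C.t12, C.off13]
  have hadd : M.chv a0 a2 a1 a3 c0 + M.chv a0 b0 b1 a3 c0 + M.chv a0 b2 b1 a1 c0 +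
      M.chv a2 b0 b3 a3 c0 + M.chv a2 b2 b3 a1 c0 + M.chv b0 b2 b3 b1 c0 = 0 := by
    unfold chv chi
    generalize M.X c0 = x
    generalize M.Y c0 = y
    have two : (2 : ZMod 2) = 0 := by decide
    linear_combination (M.lft a0 a1 x y + M.lft a0 a3 x y + M.lft a2 a1 x y + M.lft a2 a3 x y +
      M.lft a0 b1 x y + M.lft b0 b1 x y + M.lft b0 a3 x y + M.lft b2 b1 x y + M.lft b2 a1 x y +
      M.lft a2 b3 x y + M.lft b0 b3 x y + M.lft b2 b3 x y) * two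
  unfold csum at hs
  rw [hA, h02, h03, h12, h13] at hadd
  rw [chv_swap2 b0 b2 b1 b3, chv_swap2 b0 b2 b1 b3]
  generalize M.chv a0 a2 a1 a3 b1 = x1 at *
  generalize M.chv a0 b0 b1 a3 a1 = x2 at *
  generalize M.chv a0 b2 b1 a1 a3 = x3 at *
  generalize M.chv a2 b0 b3 a3 a1 = x4 at *
  generalize M.chv a2 b2 b3 a1 a3 = x5 at *
  generalize M.chv b0 b2 b3 b1 a3 = x6 at *
  generalize M.chv b0 b2 b3 b1 c0 = x7 at *
  clear hA h02 h03 h12 h13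
  have : x7 + x6 = (x1 + x2 + x3 + x4 + x5 + x6) + (x1 + x2 + x3 + x4 + x5 + x7) := by
    have two : (2 : ZMod 2) = 0 := by decide
    linear_combination (-(x1 + x2 + x3 + x4 + x5)) * two
  rw [this, hs, hadd, add_zero]

end MD

end Pool.Agent.H204R2
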