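import Pool.Agent.H204R2.Lower

set_option autoImplicit false

namespace Pool.Agent.H204R2.BD

/-- height of a source -/
def srcH (a : ℕ) : ℤ := if a % 4 = 0 then -((a / 4 : ℕ) + 1 : ℤ) else ((a / 4 : ℕ) + 1 : ℤ)
/-- side of a sink -/
def snkE (b : ℕ) : ℤ := if b % 4 = 1 then -1 else 1
/-- height of a sink -/
def snkH (b : ℕ) : ℤ := ((b / 4 : ℕ) + 3 : ℤ)

/-- position of the vertices of the ring graph -/
def posN (a : ℕ) : ℤ × ℤ := if a % 2 = 0 then (0, srcH a) else (snkE a * snkH a, snkH a)

theorem seg_form {s e t : ℝ} {z : ℝ × ℝ} (hz : z ∈ segment ℝ ((0 : ℝ), s) (e * t, t)) :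
    ∃ l : ℝ, 0 ≤ l ∧ l ≤ 1 ∧ z.1 = l * (e * t) ∧ z.2 = (1 - l) * s + l * t := by
  rw [segment_eq_image] at hz
  obtain ⟨θ, ⟨h0, h1⟩, rfl⟩ := hz
  refine ⟨θ, h0, h1, ?_, ?_⟩ <;> simp

/-- two drawn edges meet only in common ends -/
theorem meet_core {s e t s' e' t' : ℝ} (hs : s ≠ 0) (hs' : s' ≠ 0) (ht : 0 < t) (ht' : 0 < t')
    (he : e = 1 ∨ e = -1) (he' : e' = 1 ∨ e' = -1)
    (m1 : e = e' → 0 < s → s < s' → t ≤ t') (m2 : e = e' → 0 < s' → s' < s → t' ≤ t)
    (m3 : e = e' → s < 0 → s' < s → t ≤ t') (m4 : e = e' → s' < 0 → s < s' → t' ≤ t)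
    {z : ℝ × ℝ} (h1 : z ∈ segment ℝ ((0 : ℝ), s) (e * t, t))
    (h2 : z ∈ segment ℝ ((0 : ℝ), s') (e' * t', t')) :
    (s = s' ∧ z = (0, s)) ∨ (e = e' ∧ t = t' ∧ z = (e * t, t)) ∨ (s = s' ∧ e = e' ∧ t = t') := by
  obtain ⟨l, l0, l1, z1, z2⟩ := seg_form h1
  obtain ⟨m, m0, m1', w1, w2⟩ := seg_form h2
  have hz : z = (z.1, z.2) := rfl
  by_cases hee : e = e'
  · subst hee
    have hlm : l * t = m * t' := by
      rw [z1] at w1
      rcases he with rfl | rfl <;> linarith
    have hsm : (1 - l) * s = (1 - m) * s' := by linarith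
    by_cases hl : l = 1
    · subst hl
      have : m = 1 := by
        have : (1 - m) * s' = 0 := by rw [← hsm]; ring
        rcases mul_eq_zero.1 this with h | h
        · linarith
        · exact absurd h hs'
      subst this
      right; left
      refine ⟨rfl, by linarith, ?_⟩
      rw [hz, z1, z2]
      ext <;> simp
    · by_cases hm : m = 1
      · subst hm
        exfalso
        have : (1 - l) * s = 0 := by rw [hsm]; ring
        rcases mul_eq_zero.1 this with h | h
        · exact hl (by linarith)
        · exact absurd h hs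
      · have hl' : 0 < 1 - l := by
          have := lt_of_le_of_ne l1 hl
          linarith
        have hm' : 0 < 1 - m := by
          have := lt_of_le_of_ne m1' hm
          linarith
        rcases lt_trichotomy s s' with hlt | heq | hgt
        · exfalso
          rcases lt_or_gt_of_ne hs with hneg | hpos
          · -- s < 0, so s' < 0
            have hneg' : s' < 0 := by
              by_contra hcon
              push Not at hcon
              have : (1 - l) * s < 0 := mul_neg_of_pos_of_neg hl' hneg
              have : 0 ≤ (1 - m) * s' := mul_nonneg hm'.le hcon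
              linarith
            have htt := m4 rfl hneg' hlt
            -- |s| > |s'| so 1 - l < 1 - m, so m < l
            have hml : m < l := by
              by_contra hcon
              push Not at hcon
              nlinarith
            nlinarith
          · have hpos' : 0 < s' := hpos.trans hlt
            have htt := m1 rfl hpos hlt
            have hml : l < m := by
              by_contra hcon
              push Not at hcon
              nlinarith
            nlinarith
        · subst heq
          have : l = m := by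
            have : (l - m) * s = 0 := by linarith
            rcases mul_eq_zero.1 this with h | h
            · linarith
            · exact absurd h hs
          subst this
          by_cases hl0 : l = 0
          · subst hl0
            left
            refine ⟨rfl, ?_⟩
            rw [hz, z1, z2]
            ext <;> simp
          · right; right
            refine ⟨rfl, rfl, ?_⟩
            exact mul_left_cancel₀ hl0 hlm
        · exfalso
          rcases lt_or_gt_of_ne hs' with hneg | hpos
          · have hneg' : s < 0 := by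
              by_contra hcon
              push Not at hcon
              have : (1 - m) * s' < 0 := mul_neg_of_pos_of_neg hm' hneg
              have : 0 ≤ (1 - l) * s := mul_nonneg hl'.le hcon
              linarith
            have htt := m3 rfl hneg' hgt
            have hml : l < m := by
              by_contra hcon
              push Not at hcon
              nlinarith
            nlinarith
          · have hpos' : 0 < s := hpos.trans hgt
            have htt := m2 rfl hpos hgt
            have hml : m < l := by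
              by_contra hcon
              push Not at hcon
              nlinarith
            nlinarith
  · have hee' : e' = -e := by
      rcases he with rfl | rfl <;> rcases he' with rfl | rfl <;> first | exact absurd rfl hee | norm_num
    subst hee'
    have hlm : l * t = - (m * t') := by
      rw [z1] at w1
      rcases he with rfl | rfl <;> linarith
    have h1 : 0 ≤ l * t := mul_nonneg l0 ht.le
    have h2 : 0 ≤ m * t' := mul_nonneg m0 ht'.le
    have hl0 : l = 0 := by
      have : l * t = 0 := by linarith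
      rcases mul_eq_zero.1 this with h | h
      · exact h
      · linarith
    have hm0 : m = 0 := by
      have : m * t' = 0 := by linarith
      rcases mul_eq_zero.1 this with h | h
      · exact h
      · linarith
    subst hl0 hm0
    left
    refine ⟨by linarith, ?_⟩
    rw [hz, z1, z2]
    ext <;> simp

theorem posN_inj {a b : ℕ} (h : posN a = posN b) : a = b := by
  unfold posN srcH snkE snkH at h
  split_ifs at h <;> simp only [Prod.mk.injEq] at h <;> omega

theorem posN_src {a : ℕ} (h : a % 2 = 0) : toPlane (posN a) = ((0 : ℝ), (srcH a : ℝ)) := by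
  unfold posN toPlane
  rw [if_pos h]
  simp

theorem posN_snk {a : ℕ} (h : a % 2 = 1) :
    toPlane (posN a) = ((snkE a : ℝ) * (snkH a : ℝ), (snkH a : ℝ)) := by
  unfold posN toPlane
  rw [if_neg (by omega)]
  simp

theorem edge_facts {a b : ℕ} (h : adjN a b) : a % 2 = 0 ∧ b % 2 = 1 ∧ srcH a < snkH b ∧ srcH a ≠ 0 ∧
    0 < snkH b ∧ (snkE b = 1 ∨ snkE b = -1) := by
  unfold adjN at h
  unfold srcH snkH snkE
  refine ⟨by omega, by omega, ?_, ?_, by omega, ?_⟩
  · split_ifs <;> omega
  · split_ifs <;> omega
  · split_ifs <;> simp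

theorem mono_pos {a b a' b' : ℕ} (h : adjN a b) (h' : adjN a' b') (he : snkE b = snkE b')
    (h0 : 0 < srcH a) (hlt : srcH a < srcH a') : snkH b ≤ snkH b' := by
  unfold adjN at h h'
  unfold srcH at h0 hlt
  unfold snkE at he
  unfold snkH
  have hb : b % 4 = b' % 4 := by
    split_ifs at he <;> omega
  split_ifs at h0 hlt <;> omega

theorem mono_neg {a b a' b' : ℕ} (h : adjN a b) (h' : adjN a' b') (he : snkE b = snkE b')
    (h0 : srcH a < 0) (hlt : srcH a' < srcH a) : snkH b ≤ snkH b' := by
  unfold adjN at h h'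
  unfold srcH at h0 hlt
  unfold snkE at he
  unfold snkH
  have hb : b % 4 = b' % 4 := by
    split_ifs at he <;> omega
  split_ifs at h0 hlt <;> omega

theorem srcH_inj {a a' : ℕ} (h : a % 2 = 0) (h' : a' % 2 = 0) (he : srcH a = srcH a') : a = a' := by
  unfold srcH at he
  split_ifs at he <;> omega

theorem snk_inj {b b' : ℕ} (h : b % 2 = 1) (h' : b' % 2 = 1) (he : snkE b = snkE b')
    (ht : snkH b = snkH b') : b = b' := by
  unfold snkE at he
  unfold snkH at ht
  split_ifs at he <;> omega

/-- two drawn edges of the ring graph meet only in common ends -/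
theorem edges_meet {a b a' b' : ℕ} (h : adjN a b) (h' : adjN a' b') (hne : (a, b) ≠ (a', b'))
    {z : ℝ × ℝ} (h1 : z ∈ segment ℝ (toPlane (posN a)) (toPlane (posN b)))
    (h2 : z ∈ segment ℝ (toPlane (posN a')) (toPlane (posN b'))) :
    (a = a' ∧ z = toPlane (posN a)) ∨ (b = b' ∧ z = toPlane (posN b)) := by
  obtain ⟨ea, eb, est, es, et, ee⟩ := edge_facts h
  obtain ⟨ea', eb', est', es', et', ee'⟩ := edge_facts h'
  rw [posN_src ea, posN_snk eb] at h1
  rw [posN_src ea', posN_snk eb'] at h2
  have c1 : ((snkE b : ℤ) : ℝ) = 1 ∨ ((snkE b : ℤ) : ℝ) = -1 := by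
    rcases ee with h | h <;> rw [h] <;> simp
  have c2 : ((snkE b' : ℤ) : ℝ) = 1 ∨ ((snkE b' : ℤ) : ℝ) = -1 := by
    rcases ee' with h | h <;> rw [h] <;> simp
  rcases meet_core (by exact_mod_cast es) (by exact_mod_cast es') (by exact_mod_cast et)
    (by exact_mod_cast et') c1 c2
    (fun he h0 hl => by
      have := mono_pos h h' (by exact_mod_cast he) (by exact_mod_cast h0) (by exact_mod_cast hl)
      exact_mod_cast this)
    (fun he h0 hl => by
      have := mono_pos h' h (by exact_mod_cast he.symm) (by exact_mod_cast h0) (by exact_mod_cast hl)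
      exact_mod_cast this)
    (fun he h0 hl => by
      have := mono_neg h h' (by exact_mod_cast he) (by exact_mod_cast h0) (by exact_mod_cast hl)
      exact_mod_cast this)
    (fun he h0 hl => by
      have := mono_neg h' h (by exact_mod_cast he.symm) (by exact_mod_cast h0) (by exact_mod_cast hl)
      exact_mod_cast this)
    h1 h2 with ⟨r1, r2⟩ | ⟨r1, r2, r3⟩ | ⟨r1, r2, r3⟩
  · left
    refine ⟨srcH_inj ea ea' (by exact_mod_cast r1), ?_⟩
    rw [r2, posN_src ea]
  · right
    refine ⟨snk_inj eb eb' (by exact_mod_cast r1) (by exact_mod_cast r2), ?_⟩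
    rw [r3, posN_snk eb]
  · exfalso
    apply hne
    rw [srcH_inj ea ea' (by exact_mod_cast r1), snk_inj eb eb' (by exact_mod_cast r2) (by exact_mod_cast r3)]

theorem vertex_on {a b w : ℕ} (h : adjN a b)
    (hw : toPlane (posN w) ∈ segment ℝ (toPlane (posN a)) (toPlane (posN b))) : w = a ∨ w = b := by
  obtain ⟨ea, eb, est, es, et, ee⟩ := edge_facts h
  rw [posN_src ea, posN_snk eb] at hw
  obtain ⟨l, l0, l1, z1, z2⟩ := seg_form hw
  have etR : (0 : ℝ) < snkH b := by exact_mod_cast et
  have esR : (srcH a : ℝ) ≠ 0 := by exact_mod_cast es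
  have eeR : ((snkE b : ℤ) : ℝ) = 1 ∨ ((snkE b : ℤ) : ℝ) = -1 := by
    rcases ee with h | h <;> rw [h] <;> simp
  by_cases hwp : w % 2 = 0
  · rw [posN_src hwp] at z1 z2
    simp only at z1 z2
    have hl : l = 0 := by
      have hne : (snkE b : ℝ) * snkH b ≠ 0 := by
        apply mul_ne_zero _ etR.ne'
        rcases eeR with h | h <;> rw [h] <;> norm_num
      rcases mul_eq_zero.1 z1.symm with h | h
      · exact h
      · exact absurd h hne
    subst hl
    left
    apply srcH_inj hwp ea
    have : (srcH w : ℝ) = srcH a := by linarith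
    exact_mod_cast this
  · have hwp' : w % 2 = 1 := by omega
    rw [posN_snk hwp'] at z1 z2
    simp only at z1 z2
    have hwt : (0 : ℝ) < snkH w := by
      have : 0 < snkH w := by unfold snkH; omega
      exact_mod_cast this
    have hwe : ((snkE w : ℤ) : ℝ) = 1 ∨ ((snkE w : ℤ) : ℝ) = -1 := by
      have : snkE w = 1 ∨ snkE w = -1 := by unfold snkE; split_ifs <;> simp
      rcases this with h | h <;> rw [h] <;> simp
    have hlt : 0 ≤ l * snkH b := mul_nonneg l0 etR.le
    have hee : (snkE w : ℝ) = snkE b ∧ (snkH w : ℝ) = l * snkH b := by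
      rcases hwe with h1 | h1 <;> rcases eeR with h2 | h2 <;> rw [h1, h2] at z1 <;>
        rw [h1, h2]
      · exact ⟨rfl, by linarith⟩
      · exfalso; linarith
      · exfalso; linarith
      · exact ⟨rfl, by linarith⟩
    have hl : l = 1 := by
      rw [hee.2] at z2
      have : (1 - l) * (srcH a : ℝ) = 0 := by linarith
      rcases mul_eq_zero.1 this with h | h
      · linarith
      · exact absurd h esR
    subst hl
    right
    apply snk_inj hwp' eb (by exact_mod_cast hee.1)
    have : (snkH w : ℝ) = snkH b := by linarith [hee.2]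
    exact_mod_cast this

/-- the polygonal chain without bends -/
theorem polyline_pair (p q : ℤ × ℤ) : polyline [p, q] = segment ℝ (toPlane p) (toPlane q) := by
  simp only [polyline]
  apply Set.union_eq_left.2
  rw [Set.singleton_subset_iff]
  exact right_mem_segment ℝ _ _

/-- a straight-line upward planar grid drawing of the ring graph -/
def gnDrawing (n : ℕ) : PolylineDrawing (Gn n) where
  pos v := posN v
  pos_inj := by
    intro a b h
    exact Fin.ext (posN_inj h)
  bends _ _ := []
  upward u v h := by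
    obtain ⟨ea, eb, est, -⟩ := edge_facts h
    simp only [List.nil_append, List.isChain_cons_cons, List.isChain_singleton, and_true]
    unfold posN
    rw [if_pos ea, if_neg (by omega)]
    exact est
  noncrossing u v u' v' h h' hne z hz hz' := by
    simp only [List.nil_append, polyline_pair] at hz hz'
    have hne' : ((u : ℕ), (v : ℕ)) ≠ ((u' : ℕ), (v' : ℕ)) := by
      intro he
      apply hne
      rw [Prod.mk.injEq] at he ⊢
      exact ⟨Fin.ext he.1, Fin.ext he.2⟩
    rcases edges_meet h h' hne' hz hz' with ⟨e1, e2⟩ | ⟨e1, e2⟩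
    · exact ⟨u, Or.inl rfl, Or.inl (Fin.ext e1), e2⟩
    · exact ⟨v, Or.inr rfl, Or.inr (Fin.ext e1), e2⟩
  vertex_free u v w h hw := by
    simp only [List.nil_append, polyline_pair] at hw
    rcases vertex_on h hw with e | e
    · exact Or.inl (Fin.ext e)
    · exact Or.inr (Fin.ext e)

/-- a poly-line drawing is an upward planar drawing -/
noncomputable def toUpward {n : ℕ} {G : BipDAG n} (D : PolylineDrawing G) : UpwardPlanarDrawing G where
  pos v := toPlane (D.pos v)
  pos_inj := by
    intro a b h
    apply D.pos_inj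
    unfold toPlane at h
    rw [Prod.mk.injEq] at h
    exact Prod.ext (by exact_mod_cast h.1) (by exact_mod_cast h.2)
  curve u v := xOf (D.pos u) (D.bends u v ++ [D.pos v])
  upward u v h := (toMD D).lt u v h
  continuous u v h := ((toMD D).cont u v h).continuousOn
  start u v h := (toMD D).bot u v h
  stop u v h := (toMD D).top u v h
  noncrossing u v u' v' h h' hne y hy hy' he := by
    have m1 := xOf_mem _ _ (D.upward u v h) hy.1 (by rw [D.last]; exact hy.2)
    have m2 := xOf_mem _ _ (D.upward u' v' h') hy'.1 (by rw [D.last]; exact hy'.2)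
    rw [← he] at m2
    exact D.noncrossing u v u' v' h h' hne _ m1 m2
  vertex_free u v w h hw he := by
    apply D.vertex_free u v w h
    have m1 := xOf_mem _ _ (D.upward u v h) hw.1 (by rw [D.last]; exact hw.2)
    rw [he] at m1
    exact m1

theorem exists_box {n : ℕ} {G : BipDAG n} (D : PolylineDrawing G) :
    ∃ (x₀ y₀ : ℤ) (W H : ℕ), D.InBox x₀ y₀ W H := by
  classical
  -- all corners
  have hfin : Set.Finite ({p | ∃ v, p = D.pos v} ∪ {p | ∃ u v, p ∈ D.bends u v}) := by
    apply Set.Finite.union
    · apply Set.Finite.subset (Set.finite_range D.pos)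
      rintro p ⟨v, rfl⟩
      exact ⟨v, rfl⟩
    · have : {p | ∃ u v, p ∈ D.bends u v} = ⋃ u, ⋃ v, {p | p ∈ D.bends u v} := by
        ext p; simp
      rw [this]
      apply Set.finite_iUnion
      intro u
      apply Set.finite_iUnion
      intro v
      exact List.finite_toSet _
  obtain ⟨s, hs⟩ := hfin.exists_finset_coe
  have hb : ∃ B : ℕ, ∀ p ∈ s, |p.1| ≤ B ∧ |p.2| ≤ B := by
    refine ⟨∑ p ∈ s, (p.1.natAbs + p.2.natAbs), ?_⟩
    intro p hp
    have h1 := Finset.single_le_sum (f := fun p : ℤ × ℤ => p.1.natAbs + p.2.natAbs)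
      (fun _ _ => Nat.zero_le _) hp
    have h2 : p.1.natAbs + p.2.natAbs ≤ ∑ p ∈ s, (p.1.natAbs + p.2.natAbs) := h1
    have e1 : |p.1| = (p.1.natAbs : ℤ) := Int.abs_eq_natAbs p.1
    have e2 : |p.2| = (p.2.natAbs : ℤ) := Int.abs_eq_natAbs p.2
    rw [e1, e2]
    constructor
    · exact_mod_cast le_trans (Nat.le_add_right _ _) h2
    · exact_mod_cast le_trans (Nat.le_add_left _ _) h2
  obtain ⟨B, hB⟩ := hb
  refine ⟨-B, -B, 2 * B, 2 * B, ?_, ?_⟩
  · intro v
    have := hB (D.pos v) (by
      rw [← Finset.mem_coe, hs]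
      exact Or.inl ⟨v, rfl⟩)
    have h1 := abs_le.1 this.1
    have h2 := abs_le.1 this.2
    push_cast
    omega
  · intro u v _ p hp
    have := hB p (by
      rw [← Finset.mem_coe, hs]
      exact Or.inr ⟨u, v, hp⟩)
    have h1 := abs_le.1 this.1
    have h2 := abs_le.1 this.2
    push_cast
    omega

theorem area_lower {n : ℕ} (D : PolylineDrawing (Gn n)) (k d : ℕ) (hk : 4 * k ≤ n) (hd : 2 * d + 1 ≤ k)
    (hd0 : 1 ≤ d) : d * d ≤ D.area := by
  have hne : {a | ∃ (x₀ y₀ : ℤ) (W H : ℕ), D.InBox x₀ y₀ W H ∧ a = W * H}.Nonempty := by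
    obtain ⟨x₀, y₀, W, H, h⟩ := exists_box D
    exact ⟨W * H, x₀, y₀, W, H, h, rfl⟩
  obtain ⟨x₀, y₀, W, H, hB, he⟩ := Nat.sInf_mem hne
  have he' : D.area = W * H := he
  obtain ⟨h1, h2⟩ := box_bound D k d hk hd hd0 x₀ y₀ W H hB
  rw [he']
  exact Nat.mul_le_mul h1 h2

instance (n : ℕ) : Finite (BipDAG n) := by
  apply Finite.of_injective (fun G : BipDAG n => G.Adj)
  rintro ⟨A, h⟩ ⟨A', h'⟩ e
  simp only at e
  subst e
  rfl

theorem bddAbove_set (n : ℕ) :
    BddAbove {a | ∃ G : BipDAG n, Nonempty (UpwardPlanarDrawing G) ∧ a = minArea G} := by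
  apply Set.Finite.bddAbove
  apply Set.Finite.subset (Set.finite_range (fun G : BipDAG n => minArea G))
  rintro a ⟨G, -, rfl⟩
  exact ⟨G, rfl⟩

theorem Ap_lower (n : ℕ) (hn : 32 ≤ n) : (1 / 256 : ℝ) * (n : ℝ) ^ 2 ≤ (Ap n : ℝ) := by
  have h1 : minArea (Gn n) ≤ Ap n :=
    le_csSup (bddAbove_set n) ⟨Gn n, ⟨toUpward (gnDrawing n)⟩, rfl⟩
  obtain ⟨d, hd1, hd2, hd3⟩ : ∃ d : ℕ, 1 ≤ d ∧ 4 * (2 * d + 1) ≤ n ∧ n ≤ 16 * d :=
    ⟨(n / 4 - 1) / 2, by omega, by omega, by omega⟩
  have h2 : d * d ≤ minArea (Gn n) := by
    have hne : {a | ∃ D : PolylineDrawing (Gn n), a = D.area}.Nonempty := ⟨_, gnDrawing n, rfl⟩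
    obtain ⟨D, hD⟩ := Nat.sInf_mem hne
    have hD' : minArea (Gn n) = D.area := hD
    rw [hD']
    exact area_lower D (2 * d + 1) d hd2 le_rfl hd1
  have h3 : ((d * d : ℕ) : ℝ) ≤ (Ap n : ℝ) := by exact_mod_cast h2.trans h1
  have h4 : (n : ℝ) ≤ 16 * d := by exact_mod_cast hd3
  have h5 : (0 : ℝ) ≤ n := by positivity
  push_cast at h3
  nlinarith

end Pool.Agent.H204R2.BD
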