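import Pool.Agent.H223.EM.Defs
import Pool.Agent.H777R2.SM_T6F

set_option autoImplicit false

/-!
T6 of the eighth moment project (block TW): the exact Voronoi formula for
`Σ d(j) e(-jm/h) (jm/h)^k exp(-jm/(hY))`.
-/

namespace Pool.Agent.H204R2.EM

open Finset Filter Topology MeasureTheory Complex
open Pool.Agent.H306R2 Pool.Agent.H306R2.SM Pool.Agent.H223.EM
open Pool.Agent.H777R2.SM (powexp_inversion div_cpow_neg norm_cpow_line Gamma_two_int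
  Gamma_two_cont Gamma_line_bound continuous_Gamma_line integrable_weight gamma_int)
open Pool.Agent.H405R2.SM (hurwitz_growth)
open Pool.Agent.H930R2.T6C (gamma_strip)

noncomputable section

/-! ### the right line -/

section right

variable (a : ℕ → ℂ) (E : ℂ → ℂ)

/-- absolute convergence -/
theorem a_summable (ha0 : a 0 = 0) (hE : ∀ s : ℂ, 1 < s.re → LSeriesHasSum a s (E s))
    (σ : ℝ) (hσ : 1 < σ) : Summable (fun n : ℕ => ‖a n‖ * (n : ℝ) ^ (-σ)) := by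
  have h1 : LSeriesSummable a σ := (hE σ (by simpa using hσ)).LSeriesSummable
  have h2 := h1.norm
  refine h2.congr fun n => ?_
  rcases Nat.eq_zero_or_pos n with h0 | h0
  · subst h0
    rw [ha0]; simp
  · rw [LSeries.norm_term_eq, if_neg (by omega), Complex.ofReal_re,
      Real.rpow_neg (Nat.cast_nonneg n), div_eq_mul_inv]

/-- the integrand on the right line, term by term -/
def Gn (k : ℕ) (V : ℝ) (n : ℕ) (τ : ℝ) : ℂ :=
  a n * ((V ^ k / (2 * Real.pi) : ℝ) : ℂ) *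
    (((n : ℝ) / V : ℝ) : ℂ) ^ (-((2 : ℝ) + τ * I : ℂ)) * Complex.Gamma ((2 : ℝ) + τ * I + k)

theorem Gn_zero (ha0 : a 0 = 0) (k : ℕ) (V : ℝ) (τ : ℝ) : Gn a k V 0 τ = 0 := by
  unfold Gn; rw [ha0]; ring

theorem Gn_norm (ha0 : a 0 = 0) (k : ℕ) (V : ℝ) (hV : 0 < V) (n : ℕ) (τ : ℝ) :
    ‖Gn a k V n τ‖ = ‖a n‖ * (n : ℝ) ^ (-2 : ℝ) * (V ^ k / (2 * Real.pi) * V ^ (2 : ℝ) *
      ‖Complex.Gamma ((2 : ℝ) + τ * I + k)‖) := by
  rcases Nat.eq_zero_or_pos n with h0 | h0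
  · subst h0
    rw [Gn_zero a ha0, ha0]; simp
  · have hn' : (0 : ℝ) < n := by exact_mod_cast h0
    unfold Gn
    rw [div_cpow_neg n h0 V hV, norm_mul, norm_mul, norm_mul, norm_mul, Complex.norm_real,
      Real.norm_of_nonneg (by positivity), norm_cpow_line V hV 2 τ]
    have e : ‖(n : ℂ) ^ (-((2 : ℝ) + τ * I : ℂ))‖ = (n : ℝ) ^ (-2 : ℝ) := by
      rw [Complex.norm_natCast_cpow_of_pos h0]
      simp
    rw [e]
    ring

theorem Gn_integrable (ha0 : a 0 = 0) (k : ℕ) (V : ℝ) (hV : 0 < V) (n : ℕ) :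
    Integrable (Gn a k V n) := by
  rcases Nat.eq_zero_or_pos n with h0 | h0
  · subst h0
    have : Gn a k V 0 = fun _ => 0 := by ext τ; exact Gn_zero a ha0 k V τ
    rw [this]; exact integrable_zero _ _ _
  · refine Integrable.mono' ((Gamma_two_int k).norm.const_mul
      (‖a n‖ * (n : ℝ) ^ (-2 : ℝ) * (V ^ k / (2 * Real.pi) * V ^ (2 : ℝ)))) ?_ ?_
    · apply Continuous.aestronglyMeasurable
      unfold Gn
      apply Continuous.mul
      · apply Continuous.mul continuous_const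
        apply Continuous.const_cpow (by fun_prop)
        left
        have : ((n : ℝ) / V) ≠ 0 := by
          have : (0 : ℝ) < n := by exact_mod_cast h0
          positivity
        exact_mod_cast this
      · exact Gamma_two_cont k
    · refine Eventually.of_forall fun τ => ?_
      rw [Gn_norm a ha0 k V hV n τ]
      apply le_of_eq
      ring

theorem Gn_tsum (ha0 : a 0 = 0) (hE : ∀ s : ℂ, 1 < s.re → LSeriesHasSum a s (E s))
    (k : ℕ) (V : ℝ) (hV : 0 < V) (τ : ℝ) :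
    ∑' n, Gn a k V n τ = ((V ^ k / (2 * Real.pi) : ℝ) : ℂ) *
      (E ((2 : ℝ) + τ * I) * (V : ℂ) ^ ((2 : ℝ) + τ * I : ℂ) *
        Complex.Gamma ((2 : ℝ) + τ * I + k)) := by
  have h1 : LSeriesHasSum a ((2 : ℝ) + τ * I) (E ((2 : ℝ) + τ * I)) := hE _ (by simp)
  have h2 : HasSum (LSeries.term a ((2 : ℝ) + τ * I)) (E ((2 : ℝ) + τ * I)) := h1
  have h3 := h2.mul_right (((V ^ k / (2 * Real.pi) : ℝ) : ℂ) * (V : ℂ) ^ ((2 : ℝ) + τ * I : ℂ) *
        Complex.Gamma ((2 : ℝ) + τ * I + k))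
  have h4 := h3.tsum_eq
  rw [show ((V ^ k / (2 * Real.pi) : ℝ) : ℂ) *
      (E ((2 : ℝ) + τ * I) * (V : ℂ) ^ ((2 : ℝ) + τ * I : ℂ) *
        Complex.Gamma ((2 : ℝ) + τ * I + k)) = E ((2 : ℝ) + τ * I) *
        (((V ^ k / (2 * Real.pi) : ℝ) : ℂ) * (V : ℂ) ^ ((2 : ℝ) + τ * I : ℂ) *
        Complex.Gamma ((2 : ℝ) + τ * I + k)) by ring, ← h4]
  refine tsum_congr fun n => ?_
  rcases Nat.eq_zero_or_pos n with h0 | h0
  · subst h0
    rw [Gn_zero a ha0]; simp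
  · unfold Gn
    rw [div_cpow_neg n h0 V hV, LSeries.term_of_ne_zero (by omega), Complex.cpow_neg]
    rw [div_eq_mul_inv (a n)]
    ring

/-- the sum as an integral over the right line -/
theorem sum_eq_int (ha0 : a 0 = 0) (hE : ∀ s : ℂ, 1 < s.re → LSeriesHasSum a s (E s))
    (k : ℕ) (V : ℝ) (hV : 0 < V) :
    ∑' n : ℕ, a n * (((n : ℝ) ^ k * Real.exp (-((n : ℝ) / V)) : ℝ) : ℂ) =
      ((V ^ k / (2 * Real.pi) : ℝ) : ℂ) * ∫ τ : ℝ,
        (E ((2 : ℝ) + τ * I) * (V : ℂ) ^ ((2 : ℝ) + τ * I : ℂ) *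
          Complex.Gamma ((2 : ℝ) + τ * I + k)) := by
  have hsum : Summable (fun n : ℕ => ∫ τ, ‖Gn a k V n τ‖) := by
    have e : ∀ n : ℕ, ∫ τ, ‖Gn a k V n τ‖ = ‖a n‖ * (n : ℝ) ^ (-2 : ℝ) *
        ∫ τ : ℝ, (V ^ k / (2 * Real.pi) * V ^ (2 : ℝ) *
          ‖Complex.Gamma ((2 : ℝ) + τ * I + k)‖) := by
      intro n
      rw [← integral_const_mul]
      exact integral_congr_ae (Eventually.of_forall fun τ => Gn_norm a ha0 k V hV n τ)
    simp_rw [e]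
    exact (a_summable a E ha0 hE 2 (by norm_num)).mul_right _
  have h1 := hasSum_integral_of_summable_integral_norm (fun n => Gn_integrable a ha0 k V hV n) hsum
  have h2 : ∀ n : ℕ, a n * (((n : ℝ) ^ k * Real.exp (-((n : ℝ) / V)) : ℝ) : ℂ) =
      ∫ τ, Gn a k V n τ := by
    intro n
    rcases Nat.eq_zero_or_pos n with h0 | h0
    · subst h0
      simp_rw [Gn_zero a ha0, ha0]; simp
    · have hn' : (0 : ℝ) < n := by exact_mod_cast h0
      have h3 := powexp_inversion k ((n : ℝ) / V) (by positivity)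
      have e1 : (((n : ℝ) ^ k * Real.exp (-((n : ℝ) / V)) : ℝ) : ℂ) =
          ((V ^ k : ℝ) : ℂ) * (((((n : ℝ) / V) ^ k * Real.exp (-((n : ℝ) / V)) : ℝ) : ℂ)) := by
        rw [← Complex.ofReal_mul]
        congr 1
        rw [div_pow]
        field_simp
      rw [e1, h3]
      have e2 : ∀ τ : ℝ, Gn a k V n τ = (a n * ((V ^ k / (2 * Real.pi) : ℝ) : ℂ)) *
          ((((n : ℝ) / V : ℝ) : ℂ) ^ (-((2 : ℝ) + τ * I : ℂ)) *
            Complex.Gamma ((2 : ℝ) + τ * I + k)) := by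
        intro τ; unfold Gn; ring
      simp_rw [e2]
      rw [integral_const_mul, Complex.real_smul]
      push_cast
      ring
  rw [tsum_congr h2, h1.tsum_eq, ← integral_const_mul]
  exact integral_congr_ae (Eventually.of_forall fun τ => Gn_tsum a E ha0 hE k V hV τ)

end right

/-! ### growth and integrability on vertical lines -/

/-- growth of `E2` in the strip -/
theorem E2_growth (h : ℕ) [NeZero h] (Φ : ZMod h → ZMod h → ℂ) : ∃ C : ℝ, ∃ A : ℕ, 0 ≤ C ∧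
    ∀ s : ℂ, -(1 / 2) ≤ s.re → s.re ≤ 3 → 1 ≤ |s.im| → ‖E2 h Φ s‖ ≤ C * |s.im| ^ A := by
  obtain ⟨C, A, hC⟩ := hurwitz_growth h
  have hh : (1 : ℝ) ≤ h := by exact_mod_cast NeZero.one_le
  refine ⟨(h : ℝ) ^ (1 : ℝ) * ∑ x : ZMod h, ∑ y : ZMod h, ‖Φ x y‖ * |C| ^ 2,
    2 * A, by positivity, ?_⟩
  intro s h1 h2 h3
  unfold E2
  have hz : ∀ x : ZMod h, ‖HurwitzZeta.hurwitzZeta (ZMod.toAddCircle x) s‖ ≤ |C| * |s.im| ^ A :=
    fun x => (hC x s h1 h2 h3).trans (by gcongr; exact le_abs_self C)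
  have e1 : ‖(h : ℂ) ^ (-(2 * s))‖ ≤ (h : ℝ) ^ (1 : ℝ) := by
    rw [Complex.norm_natCast_cpow_of_pos (NeZero.pos h)]
    apply Real.rpow_le_rpow_of_exponent_le hh
    simp
    linarith
  have e2 : ‖∑ x : ZMod h, ∑ y : ZMod h, Φ x y *
    (HurwitzZeta.hurwitzZeta (ZMod.toAddCircle x) s *
      HurwitzZeta.hurwitzZeta (ZMod.toAddCircle y) s)‖ ≤
      (∑ x : ZMod h, ∑ y : ZMod h, ‖Φ x y‖ * |C| ^ 2) * |s.im| ^ (2 * A) := by
    rw [Finset.sum_mul]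
    refine (norm_sum_le _ _).trans (Finset.sum_le_sum fun x _ => ?_)
    rw [Finset.sum_mul]
    refine (norm_sum_le _ _).trans (Finset.sum_le_sum fun y _ => ?_)
    rw [norm_mul, norm_mul]
    calc ‖Φ x y‖ * (‖HurwitzZeta.hurwitzZeta (ZMod.toAddCircle x) s‖ *
          ‖HurwitzZeta.hurwitzZeta (ZMod.toAddCircle y) s‖)
        ≤ ‖Φ x y‖ * ((|C| * |s.im| ^ A) * (|C| * |s.im| ^ A)) := by
          gcongr <;> exact hz _
      _ = _ := by ring
  rw [norm_mul, mul_assoc]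
  exact mul_le_mul e1 e2 (norm_nonneg _) (by positivity)

/-- integrability on vertical lines -/
theorem line_int (g : ℂ → ℂ) (hgd : Differentiable ℂ g) (C : ℝ) (A : ℕ) (hC : 0 ≤ C)
    (hg : ∀ s : ℂ, -(1 / 2) ≤ s.re → s.re ≤ 3 → 1 ≤ |s.im| → ‖g s‖ ≤ C * |s.im| ^ A)
    (k : ℕ) (hk : 1 ≤ k) (V : ℝ) (hV : 0 < V) (σ : ℝ) (h1 : -(1 / 2) ≤ σ) (h2 : σ ≤ 3) :
    Integrable (fun τ : ℝ => g ((σ : ℂ) + τ * I) * (V : ℂ) ^ ((σ : ℂ) + τ * I) *
      Complex.Gamma ((σ : ℂ) + τ * I + k)) := by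
  have hk' : (1 : ℝ) ≤ k := by exact_mod_cast hk
  have hVc : (V : ℂ) ≠ 0 := by exact_mod_cast hV.ne'
  have hGshift : ∀ τ : ℝ, Complex.Gamma ((σ : ℂ) + τ * I + k) =
      Complex.Gamma (((σ + k : ℝ) : ℂ) + τ * I) := by
    intro τ
    congr 1
    push_cast
    ring
  have hgc : Continuous (fun τ : ℝ => g ((σ : ℂ) + τ * I)) := hgd.continuous.comp (by fun_prop)
  obtain ⟨M, hM⟩ := (isCompact_Icc (a := (-1 : ℝ)) (b := 1)).exists_bound_of_continuousOn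
    hgc.continuousOn
  have hM0 : 0 ≤ M := (norm_nonneg _).trans (hM 0 (by norm_num))
  have hgb : ∀ τ : ℝ, ‖g ((σ : ℂ) + τ * I)‖ ≤ (C + M) * (1 + |τ|) ^ A := by
    intro τ
    rcases le_total 1 |τ| with ht | ht
    · have := hg ((σ : ℂ) + τ * I) (by simpa using h1) (by simpa using h2) (by simpa using ht)
      have e : ((σ : ℂ) + τ * I).im = τ := by simp
      rw [e] at this
      refine this.trans ?_
      have h3 : |τ| ^ A ≤ (1 + |τ|) ^ A := by gcongr; linarith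
      have h4 : 0 ≤ (1 + |τ|) ^ A := by positivity
      nlinarith
    · have := hM τ (abs_le.mp ht)
      refine this.trans ?_
      have h3 : 1 ≤ (1 + |τ|) ^ A := one_le_pow₀ (by linarith [abs_nonneg τ])
      nlinarith
  have hcont : Continuous (fun τ : ℝ => g ((σ : ℂ) + τ * I) * (V : ℂ) ^ ((σ : ℂ) + τ * I) *
      Complex.Gamma ((σ : ℂ) + τ * I + k)) := by
    apply Continuous.mul
    · apply Continuous.mul hgc
      exact Continuous.const_cpow (by fun_prop) (Or.inl hVc)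
    · have h3 := continuous_Gamma_line (σ + k) (by linarith)
      exact h3.congr fun τ => (hGshift τ).symm
  refine Integrable.mono' (integrable_weight.const_mul
    ((C + M) * V ^ σ * (4 ^ (A + 2) * Real.Gamma (σ + k + (A + 2 : ℕ))))) hcont.aestronglyMeasurable
    (Eventually.of_forall fun τ => ?_)
  rw [norm_mul, norm_mul, norm_cpow_line V hV, hGshift]
  have h3 := Gamma_line_bound (σ + k) (by linarith) (A + 2) τ
  have hpos : (0 : ℝ) < 1 + |τ| := by positivity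
  have e3 : (1 + ‖τ‖) ^ (-(2 : ℝ)) = 1 / (1 + |τ|) ^ 2 := by
    rw [Real.norm_eq_abs, Real.rpow_neg hpos.le, one_div]
    norm_num
  rw [e3]
  have hG0 : 0 ≤ Real.Gamma (σ + k + (A + 2 : ℕ)) :=
    Real.Gamma_nonneg_of_nonneg (by
      have : (0 : ℝ) ≤ A := Nat.cast_nonneg A
      push_cast; linarith)
  calc ‖g ((σ : ℂ) + τ * I)‖ * V ^ σ * ‖Complex.Gamma (((σ + k : ℝ) : ℂ) + τ * I)‖
      ≤ ((C + M) * (1 + |τ|) ^ A) * V ^ σ *
        (4 ^ (A + 2) * Real.Gamma (σ + k + (A + 2 : ℕ)) / (1 + |τ|) ^ (A + 2)) := by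
        gcongr
        exact hgb τ
    _ = _ := by
        rw [pow_add (1 + |τ|)]
        field_simp

/-! ### the left line -/

/-- the left line -/
def sl (τ : ℝ) : ℂ := ((-(1 / 4) : ℝ) : ℂ) + τ * I

theorem sl_re (τ : ℝ) : (sl τ).re = -(1 / 4) := by simp [sl]

theorem sl_im (τ : ℝ) : (sl τ).im = τ := by simp [sl]

theorem sl_cont : Continuous sl := by unfold sl; fun_prop

theorem norm_cos_le (z : ℂ) : ‖Complex.cos z‖ ≤ Real.exp |z.im| := by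
  rw [Complex.cos, norm_div]
  have h1 : ‖Complex.exp (z * I)‖ ≤ Real.exp |z.im| := by
    rw [Complex.norm_exp]
    apply Real.exp_le_exp.mpr
    simpa using neg_le_abs z.im
  have h2 : ‖Complex.exp (-z * I)‖ ≤ Real.exp |z.im| := by
    rw [Complex.norm_exp]
    apply Real.exp_le_exp.mpr
    simpa using le_abs_self z.im
  have h3 := norm_add_le (Complex.exp (z * I)) (Complex.exp (-z * I))
  have h4 : ‖(2 : ℂ)‖ = 2 := by norm_num
  rw [h4, div_le_iff₀ (by norm_num)]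
  linarith

theorem cs_norm (i : Fin 2) (τ : ℝ) : ‖cs i (sl τ)‖ ≤ Real.exp (Real.pi * |τ|) := by
  unfold cs
  split_ifs
  · rw [norm_one]
    exact Real.one_le_exp (by positivity)
  · rw [norm_neg]
    refine (norm_cos_le _).trans (Real.exp_le_exp.mpr (le_of_eq ?_))
    rw [Complex.im_ofReal_mul, sl_im, abs_mul, abs_of_pos Real.pi_pos]

theorem cs_cont (i : Fin 2) : Continuous (fun τ : ℝ => cs i (sl τ)) := by
  unfold cs
  split_ifs
  · exact continuous_const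
  · have := sl_cont
    fun_prop

theorem one_sub_sl (τ : ℝ) : 1 - sl τ = ((1 + 1 / 4 : ℝ) : ℂ) + ((-τ : ℝ) : ℂ) * I := by
  unfold sl
  push_cast
  ring

theorem sl_add (k : ℕ) (τ : ℝ) : sl τ + k = (((k : ℝ) - 1 / 4 : ℝ) : ℂ) + τ * I := by
  unfold sl
  push_cast
  ring

theorem kap_cont (i : Fin 2) (k : ℕ) (hk : 1 ≤ k) : Continuous (fun τ : ℝ => kap i k (sl τ)) := by
  have hk' : (1 : ℝ) ≤ k := by exact_mod_cast hk
  unfold kap
  simp only [one_sub_sl, sl_add]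
  have h1 := continuous_Gamma_line ((k : ℝ) - 1 / 4) (by linarith)
  have h2 := (continuous_Gamma_line (1 + 1 / 4) (by norm_num)).comp continuous_neg
  exact (h1.mul (h2.pow 2)).mul (cs_cont i)

theorem kap_integrable (i : Fin 2) (k : ℕ) (hk : 1 ≤ k) :
    Integrable (fun τ : ℝ => kap i k (sl τ)) := by
  obtain ⟨K, hK, HK⟩ := gamma_strip (1 / 4) (by norm_num) (by norm_num)
  obtain ⟨C2, A, hC2, hgam⟩ := gamma_int
  obtain ⟨hgi, -⟩ := hgam k hk (1 / 4) (by norm_num) (by norm_num)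
  refine Integrable.mono' (hgi.const_mul (K ^ 2)) (kap_cont i k hk).aestronglyMeasurable
    (Eventually.of_forall fun τ => ?_)
  unfold kap
  rw [norm_mul, norm_mul, norm_pow, one_sub_sl, sl_add]
  have h1 := HK (-τ)
  rw [abs_neg] at h1
  have h2 := cs_norm i τ
  have h3 : Real.exp (Real.pi * |τ|) = Real.exp (Real.pi * |τ| / 2) ^ 2 := by
    rw [← Real.exp_nat_mul]
    congr 1
    push_cast
    ring
  rw [h3] at h2
  set G := ‖Complex.Gamma (((1 + 1 / 4 : ℝ) : ℂ) + ((-τ : ℝ) : ℂ) * I)‖ with hG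
  set e0 := Real.exp (Real.pi * |τ| / 2) with he0
  set G1 := ‖Complex.Gamma ((((k : ℝ) - 1 / 4 : ℝ) : ℂ) + τ * I)‖ with hG1
  have hG0 : 0 ≤ G := norm_nonneg _
  have hG10 : 0 ≤ G1 := norm_nonneg _
  have he00 : 0 < e0 := Real.exp_pos _
  have hp : (1 : ℝ) ≤ 1 + |τ| := by linarith [abs_nonneg τ]
  calc G1 * G ^ 2 * ‖cs i (sl τ)‖ ≤ G1 * G ^ 2 * e0 ^ 2 := by gcongr
    _ = G1 * (G * e0) ^ 2 := by ring
    _ ≤ G1 * (K * (1 + |τ|) ^ 2) ^ 2 := by gcongr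
    _ = K ^ 2 * (G1 * (1 + |τ|) ^ 4) := by ring
    _ ≤ K ^ 2 * (G1 * (1 + |τ|) ^ 6) := by
        gcongr
        norm_num

/-- the terms of the dual sum under the integral sign -/
def Tn (i : Fin 2) (k h m : ℕ) (Y : ℝ) (j : ℕ) (τ : ℝ) : ℂ :=
  ((d2 j / j : ℝ) : ℂ) * ech i h m j *
    (kap i k (sl τ) * (((4 * Real.pi ^ 2 * Y * j / ((m : ℝ) * h) : ℝ)) : ℂ) ^ (sl τ))

theorem d2_zero : d2 0 = 0 := by simp [d2]

theorem d2_nonneg (n : ℕ) : 0 ≤ d2 n := by unfold d2; positivity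

theorem Tn_zero (i : Fin 2) (k h m : ℕ) (Y : ℝ) (τ : ℝ) : Tn i k h m Y 0 τ = 0 := by
  unfold Tn; rw [d2_zero]; simp

theorem Tn_int (i : Fin 2) (k h m : ℕ) (Y : ℝ) (j : ℕ) :
    ∫ τ, Tn i k h m Y j τ = ((2 * Real.pi : ℝ) : ℂ) * Dt i k h m (-(1 / 4)) Y j := by
  have hpi : (Real.pi : ℂ) ≠ 0 := by exact_mod_cast Real.pi_ne_zero
  unfold Tn Dt Kc
  rw [integral_const_mul]
  show _ = ((2 * Real.pi : ℝ) : ℂ) * (((d2 j / j : ℝ) : ℂ) * ech i h m j *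
    (((1 / (2 * Real.pi) : ℝ) : ℂ) * ∫ t : ℝ, kap i k (sl t) *
      (((4 * Real.pi ^ 2 * Y * j / ((m : ℝ) * h) : ℝ)) : ℂ) ^ (sl t)))
  have h1 : ((2 * Real.pi : ℝ) : ℂ) * ((1 / (2 * Real.pi) : ℝ) : ℂ) = 1 := by
    rw [← Complex.ofReal_mul]
    rw [mul_one_div_cancel (by positivity), Complex.ofReal_one]
  linear_combination (-(((d2 j / j : ℝ) : ℂ) * ech i h m j *
    ∫ t : ℝ, kap i k (sl t) *
      (((4 * Real.pi ^ 2 * Y * j / ((m : ℝ) * h) : ℝ)) : ℂ) ^ (sl t))) * h1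

theorem ee_eq (h : ℕ) [NeZero h] (a : ℤ) : ee h a = ZMod.stdAddChar ((a : ℤ) : ZMod h) := by
  rw [ZMod.stdAddChar_coe]
  unfold ee
  congr 1
  ring

theorem ee_norm (h : ℕ) (a : ℤ) : ‖ee h a‖ = 1 := by
  unfold ee
  rw [show (2 * Real.pi * Complex.I * ((a : ℂ) / (h : ℂ)) : ℂ) =
    ((2 * Real.pi * ((a : ℝ) / (h : ℝ)) : ℝ) : ℂ) * I by push_cast; ring]
  exact Complex.norm_exp_ofReal_mul_I _

theorem Tn_norm (i : Fin 2) (k h m : ℕ) (hh : 1 ≤ h) (hm : 1 ≤ m) (Y : ℝ) (hY : 0 < Y) (j : ℕ)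
    (τ : ℝ) : ‖Tn i k h m Y j τ‖ = d2 j * (j : ℝ) ^ (-(5 / 4) : ℝ) *
      ((4 * Real.pi ^ 2 * Y / ((m : ℝ) * h)) ^ (-(1 / 4) : ℝ) * ‖kap i k (sl τ)‖) := by
  rcases Nat.eq_zero_or_pos j with h0 | h0
  · subst h0
    rw [Tn_zero, d2_zero]; simp
  · have hj : (0 : ℝ) < j := by exact_mod_cast h0
    have hh' : (0 : ℝ) < h := by exact_mod_cast hh
    have hm' : (0 : ℝ) < m := by exact_mod_cast hm
    have hP : 0 < 4 * Real.pi ^ 2 * Y / ((m : ℝ) * h) := by positivity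
    unfold Tn
    have hx : 4 * Real.pi ^ 2 * Y * j / ((m : ℝ) * h) =
        (4 * Real.pi ^ 2 * Y / ((m : ℝ) * h)) * j := by ring
    rw [norm_mul, norm_mul, norm_mul, Complex.norm_real, Real.norm_of_nonneg
      (div_nonneg (d2_nonneg j) hj.le), hx, Complex.norm_cpow_eq_rpow_re_of_pos (by positivity),
      sl_re, Real.mul_rpow hP.le hj.le]
    have he : ‖ech i h m j‖ = 1 := by unfold ech; exact ee_norm _ _
    have e1 : (j : ℝ) ^ (-(5 / 4) : ℝ) = (j : ℝ) ^ (-(1 / 4) : ℝ) / j := by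
      rw [show (-(5 / 4) : ℝ) = -(1 / 4) - 1 by norm_num, Real.rpow_sub hj, Real.rpow_one]
    rw [he, e1]
    ring

theorem Tn_cont (i : Fin 2) (k h m : ℕ) (hk : 1 ≤ k) (hh : 1 ≤ h) (hm : 1 ≤ m) (Y : ℝ)
    (hY : 0 < Y) (j : ℕ) : Continuous (Tn i k h m Y j) := by
  rcases Nat.eq_zero_or_pos j with h0 | h0
  · subst h0
    have : Tn i k h m Y 0 = fun _ => 0 := by ext τ; exact Tn_zero i k h m Y τ
    rw [this]; exact continuous_const
  · have hj : (0 : ℝ) < j := by exact_mod_cast h0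
    have hh' : (0 : ℝ) < h := by exact_mod_cast hh
    have hm' : (0 : ℝ) < m := by exact_mod_cast hm
    have hP : 0 < 4 * Real.pi ^ 2 * Y * j / ((m : ℝ) * h) := by positivity
    unfold Tn
    refine continuous_const.mul ((kap_cont i k hk).mul ?_)
    exact Continuous.const_cpow sl_cont (Or.inl (by exact_mod_cast hP.ne'))

theorem Tn_integrable (i : Fin 2) (k h m : ℕ) (hk : 1 ≤ k) (hh : 1 ≤ h) (hm : 1 ≤ m) (Y : ℝ)
    (hY : 0 < Y) (j : ℕ) : Integrable (Tn i k h m Y j) := by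
  refine Integrable.mono' ((kap_integrable i k hk).norm.const_mul (d2 j * (j : ℝ) ^ (-(5 / 4) : ℝ) *
      (4 * Real.pi ^ 2 * Y / ((m : ℝ) * h)) ^ (-(1 / 4) : ℝ)))
    (Tn_cont i k h m hk hh hm Y hY j).aestronglyMeasurable (Eventually.of_forall fun τ => ?_)
  rw [Tn_norm i k h m hh hm Y hY j τ]
  apply le_of_eq
  ring

theorem Tn_sum_norm (hd : Summable (fun n : ℕ => d2 n * (n : ℝ) ^ (-(5 / 4) : ℝ)))
    (i : Fin 2) (k h m : ℕ) (hh : 1 ≤ h) (hm : 1 ≤ m) (Y : ℝ)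
    (hY : 0 < Y) : Summable (fun j : ℕ => ∫ τ, ‖Tn i k h m Y j τ‖) := by
  have e : ∀ j : ℕ, ∫ τ, ‖Tn i k h m Y j τ‖ = d2 j * (j : ℝ) ^ (-(5 / 4) : ℝ) *
      ∫ τ, ((4 * Real.pi ^ 2 * Y / ((m : ℝ) * h)) ^ (-(1 / 4) : ℝ) * ‖kap i k (sl τ)‖) := by
    intro j
    rw [← integral_const_mul]
    exact integral_congr_ae (Eventually.of_forall fun τ => Tn_norm i k h m hh hm Y hY j τ)
  simp_rw [e]
  exact hd.mul_right _

theorem ech_zero (h m j : ℕ) [NeZero h] :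
    ech 0 h m j = ZMod.stdAddChar (-((m : ZMod h)⁻¹ * (j : ZMod h))) := by
  unfold ech iv
  rw [ee_eq]
  congr 1
  simp only [if_true]
  push_cast
  rw [ZMod.natCast_zmod_val]
  ring

theorem ech_one (h m j : ℕ) [NeZero h] :
    ech 1 h m j = ZMod.stdAddChar ((m : ZMod h)⁻¹ * (j : ZMod h)) := by
  unfold ech iv
  rw [ee_eq]
  congr 1
  simp only [Fin.isValue, one_ne_zero, if_false]
  push_cast
  rw [ZMod.natCast_zmod_val]
  ring

theorem kap_split (i : Fin 2) (k : ℕ) (s : ℂ) :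
    kap i k s = (Complex.Gamma (s + k) * Complex.Gamma (1 - s) ^ 2) * cs i s := rfl

/-- pointwise summation of the dual terms -/
theorem Tn_hasSum
    (hT4 : ∀ (h : ℕ) [NeZero h] (u v : ZMod h), u * v = 1 → ∀ s : ℂ, s.re < 0 →
      HasSum (fun j : ℕ => ((d2 j : ℝ) : ℂ) * (j : ℂ) ^ (s - 1) *
        (ZMod.stdAddChar (-(v * (j : ZMod h))) * cs 0 s + ZMod.stdAddChar (v * (j : ZMod h)) * cs 1 s))
      (E2 h (Pu h u) s / (2 * (h : ℂ) * (h : ℂ) ^ (-(2 * s)) * (2 * Real.pi : ℂ) ^ (2 * s - 2) *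
        Complex.Gamma (1 - s) ^ 2)))
    (k h m : ℕ) [NeZero h] (hm : 1 ≤ m) (hc : Nat.Coprime h m) (Y : ℝ) (hY : 0 < Y) (τ : ℝ) :
    HasSum (fun j : ℕ => Tn 0 k h m Y j τ + Tn 1 k h m Y j τ)
      (((2 * Real.pi ^ 2 / h : ℝ) : ℂ) * (E2 h (Pu h (m : ZMod h)) (sl τ) *
        (((h : ℝ) * Y / m : ℝ) : ℂ) ^ (sl τ) * Complex.Gamma (sl τ + k))) := by
  have hh0 : 0 < h := NeZero.pos h
  have hh' : (0 : ℝ) < h := by exact_mod_cast hh0
  have hm' : (0 : ℝ) < m := by exact_mod_cast hm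
  set s : ℂ := sl τ with hs
  have hsre : s.re < 0 := by rw [hs, sl_re]; norm_num
  set P : ℝ := 4 * Real.pi ^ 2 * Y / ((m : ℝ) * h) with hP
  have hP0 : 0 < P := by positivity
  set V : ℝ := (h : ℝ) * Y / m with hV
  have hV0 : 0 < V := by positivity
  have huv : (m : ZMod h) * (m : ZMod h)⁻¹ = 1 := ZMod.coe_mul_inv_eq_one m hc.symm
  have h4 := (hT4 h (m : ZMod h) ((m : ZMod h)⁻¹) huv s hsre).mul_left
    ((Complex.Gamma (s + k) * Complex.Gamma (1 - s) ^ 2) * (P : ℂ) ^ s)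
  have hGne : Complex.Gamma (1 - s) ≠ 0 := by
    apply Complex.Gamma_ne_zero_of_re_pos
    rw [Complex.sub_re, Complex.one_re]
    linarith
  have hhc : (h : ℂ) ≠ 0 := by exact_mod_cast hh'.ne'
  have h2pi : (2 * Real.pi : ℂ) ≠ 0 := by
    have : (2 * Real.pi : ℝ) ≠ 0 := by positivity
    exact_mod_cast this
  -- the value
  have hval : ((Complex.Gamma (s + k) * Complex.Gamma (1 - s) ^ 2) * (P : ℂ) ^ s) *
      (E2 h (Pu h (m : ZMod h)) s / (2 * (h : ℂ) * (h : ℂ) ^ (-(2 * s)) *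
        (2 * Real.pi : ℂ) ^ (2 * s - 2) * Complex.Gamma (1 - s) ^ 2)) =
      ((2 * Real.pi ^ 2 / h : ℝ) : ℂ) * (E2 h (Pu h (m : ZMod h)) s *
        (V : ℂ) ^ s * Complex.Gamma (s + k)) := by
    have e1 : (h : ℂ) ^ (-(2 * s)) = ((h : ℂ) ^ s * (h : ℂ) ^ s)⁻¹ := by
      rw [Complex.cpow_neg, two_mul, Complex.cpow_add _ _ hhc]
    have e2 : (2 * Real.pi : ℂ) ^ (2 * s - 2) =
        ((2 * Real.pi : ℂ) ^ s * (2 * Real.pi : ℂ) ^ s) / (2 * Real.pi : ℂ) ^ 2 := by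
      rw [Complex.cpow_sub _ _ h2pi, two_mul s, Complex.cpow_add _ _ h2pi, Complex.cpow_ofNat]
    have e3 : (P : ℂ) ^ s * ((h : ℂ) ^ s * (h : ℂ) ^ s) =
        (V : ℂ) ^ s * ((2 * Real.pi : ℂ) ^ s * (2 * Real.pi : ℂ) ^ s) := by
      have c1 : (h : ℂ) = ((h : ℝ) : ℂ) := by push_cast; rfl
      have c2 : (2 * Real.pi : ℂ) = ((2 * Real.pi : ℝ) : ℂ) := by push_cast; rfl
      rw [c1, c2, ← Complex.mul_cpow_ofReal_nonneg hh'.le hh'.le,
        ← Complex.mul_cpow_ofReal_nonneg (by positivity) (by positivity),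
        ← Complex.ofReal_mul, ← Complex.ofReal_mul,
        ← Complex.mul_cpow_ofReal_nonneg hP0.le (by positivity),
        ← Complex.mul_cpow_ofReal_nonneg hV0.le (by positivity),
        ← Complex.ofReal_mul, ← Complex.ofReal_mul]
      congr 2
      rw [hP, hV]
      field_simp
      ring
    have n1 : (h : ℂ) ^ s ≠ 0 := (Complex.cpow_ne_zero_iff_of_exponent_ne_zero (by
      rintro h0
      rw [h0] at hsre
      simp at hsre)).mpr hhc
    have n2 : (2 * Real.pi : ℂ) ^ s ≠ 0 := (Complex.cpow_ne_zero_iff_of_exponent_ne_zero (by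
      rintro h0
      rw [h0] at hsre
      simp at hsre)).mpr h2pi
    rw [e1, e2]
    have e4 : (P : ℂ) ^ s = (V : ℂ) ^ s * ((2 * Real.pi : ℂ) ^ s * (2 * Real.pi : ℂ) ^ s) /
        ((h : ℂ) ^ s * (h : ℂ) ^ s) := by
      rw [eq_div_iff (mul_ne_zero n1 n1)]
      exact e3
    rw [e4]
    have hpi : (Real.pi : ℂ) ≠ 0 := by exact_mod_cast Real.pi_ne_zero
    push_cast
    field_simp
  rw [hval] at h4
  refine h4.congr_fun fun j => ?_
  rcases Nat.eq_zero_or_pos j with h0 | h0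
  · subst h0
    rw [Tn_zero, Tn_zero, d2_zero]
    simp
  · have hj : (0 : ℝ) < j := by exact_mod_cast h0
    have hjc : (j : ℂ) ≠ 0 := by exact_mod_cast hj.ne'
    unfold Tn
    rw [ech_zero, ech_one, ← hs, kap_split, kap_split]
    have hx : 4 * Real.pi ^ 2 * Y * j / ((m : ℝ) * h) = P * j := by rw [hP]; ring
    have e5 : (((P * j : ℝ)) : ℂ) ^ s = (P : ℂ) ^ s * (j : ℂ) ^ s := by
      rw [Complex.ofReal_mul, Complex.mul_cpow_ofReal_nonneg hP0.le hj.le, Complex.ofReal_natCast]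
    have e6 : (j : ℂ) ^ (s - 1) = (j : ℂ) ^ s / j := by
      rw [Complex.cpow_sub _ _ hjc, Complex.cpow_one]
    rw [hx, e5, e6]
    push_cast
    ring

/-- T6 of the eighth moment project (block TW) -/
theorem voronoi2_of
    (hT2 : ∀ (h : ℕ) [NeZero h] (u : ZMod h) (s : ℂ), 1 < s.re →
      LSeriesHasSum (fun n : ℕ => ((d2 n : ℝ) : ℂ) * ZMod.stdAddChar (-(u * (n : ZMod h)))) s
        (E2 h (Pu h u) s))
    (hT3 : ∀ (h : ℕ) [NeZero h] (u : ZMod h), IsUnit u →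
      ∃ g : ℂ → ℂ, Differentiable ℂ g ∧ ∀ s : ℂ, s ≠ 1 → g s = E2 h (Pz h u) s)
    (hT3b : ∀ (h : ℕ) [NeZero h] (u : ZMod h) (s : ℂ),
      E2 h (Pz h u) s = E2 h (Pu h u) s - (h : ℂ) * (h : ℂ) ^ (-(2 * s)) * riemannZeta s ^ 2)
    (hT4 : ∀ (h : ℕ) [NeZero h] (u v : ZMod h), u * v = 1 → ∀ s : ℂ, s.re < 0 →
      HasSum (fun j : ℕ => ((d2 j : ℝ) : ℂ) * (j : ℂ) ^ (s - 1) *
        (ZMod.stdAddChar (-(v * (j : ZMod h))) * cs 0 s + ZMod.stdAddChar (v * (j : ZMod h)) * cs 1 s))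
      (E2 h (Pu h u) s / (2 * (h : ℂ) * (h : ℂ) ^ (-(2 * s)) * (2 * Real.pi : ℂ) ^ (2 * s - 2) *
        Complex.Gamma (1 - s) ^ 2)))
    (hT5 : ∀ (k : ℕ), 1 ≤ k → ∀ (V : ℝ), 0 < V →
      Integrable (fun τ : ℝ => riemannZeta ((2 : ℝ) + τ * I) ^ 2 * (V : ℂ) ^ ((2 : ℝ) + τ * I : ℂ) *
          Complex.Gamma ((2 : ℝ) + τ * I + k)) ∧
      Integrable (fun τ : ℝ => riemannZeta (((-(1 / 4) : ℝ) : ℂ) + τ * I) ^ 2 *
          (V : ℂ) ^ (((-(1 / 4) : ℝ) : ℂ) + τ * I : ℂ) *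
          Complex.Gamma (((-(1 / 4) : ℝ) : ℂ) + τ * I + k)) ∧
      (∫ τ : ℝ, riemannZeta ((2 : ℝ) + τ * I) ^ 2 * (V : ℂ) ^ ((2 : ℝ) + τ * I : ℂ) *
          Complex.Gamma ((2 : ℝ) + τ * I + k)) =
      2 * (Real.pi : ℂ) * (((k.factorial : ℝ) * V * (Real.log V + bk k) : ℝ) : ℂ) +
      ∫ τ : ℝ, riemannZeta (((-(1 / 4) : ℝ) : ℂ) + τ * I) ^ 2 *
          (V : ℂ) ^ (((-(1 / 4) : ℝ) : ℂ) + τ * I : ℂ) *
          Complex.Gamma (((-(1 / 4) : ℝ) : ℂ) + τ * I + k))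
    (k h m : ℕ) (hk : 1 ≤ k) (hh : 1 ≤ h) (hm : 1 ≤ m) (hc : Nat.Coprime h m)
    (Y : ℝ) (hY : 0 < Y) :
    Summable (fun j : ℕ => Dt 0 k h m (-(1 / 4)) Y j) ∧
    Summable (fun j : ℕ => Dt 1 k h m (-(1 / 4)) Y j) ∧
    SS2 k h m Y = (((k.factorial : ℝ) * Y ^ (k + 1) / m * (Real.log (Y / ((m : ℝ) * h)) + bk k) : ℝ) : ℂ) +
      ((Y ^ k * h / (2 * Real.pi ^ 2) : ℝ) : ℂ) *
        ((∑' j : ℕ, Dt 0 k h m (-(1 / 4)) Y j) + ∑' j : ℕ, Dt 1 k h m (-(1 / 4)) Y j) := by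
  have : NeZero h := ⟨by omega⟩
  have hh' : (0 : ℝ) < h := by exact_mod_cast hh
  have hm' : (0 : ℝ) < m := by exact_mod_cast hm
  have hhc : (h : ℂ) ≠ 0 := by exact_mod_cast hh'.ne'
  have hpi : (Real.pi : ℂ) ≠ 0 := by exact_mod_cast Real.pi_ne_zero
  -- summability of the divisor series
  have hd : Summable (fun n : ℕ => d2 n * (n : ℝ) ^ (-(5 / 4) : ℝ)) := by
    have h1 := a_summable (fun n : ℕ => ((d2 n : ℝ) : ℂ) * ZMod.stdAddChar (-((0 : ZMod 1) *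
      (n : ZMod 1)))) (E2 1 (Pu 1 0)) (by rw [d2_zero]; simp) (fun s hs => hT2 1 0 s hs) (5 / 4)
      (by norm_num)
    refine h1.congr fun n => ?_
    rw [zero_mul, neg_zero, AddChar.map_zero_eq_one, mul_one, Complex.norm_real,
      Real.norm_of_nonneg (d2_nonneg n)]
  -- summability of the dual terms
  have hsn : ∀ i : Fin 2, Summable (fun j : ℕ => ∫ τ, ‖Tn i k h m Y j τ‖) := fun i =>
    Tn_sum_norm hd i k h m hh hm Y hY
  have hDs : ∀ i : Fin 2, Summable (fun j : ℕ => Dt i k h m (-(1 / 4)) Y j) := by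
    intro i
    have h1 := (hasSum_integral_of_summable_integral_norm
      (fun j => Tn_integrable i k h m hk hh hm Y hY j) (hsn i)).summable
    simp_rw [Tn_int] at h1
    have h2 : ((2 * Real.pi : ℝ) : ℂ) ≠ 0 := by
      have : (2 * Real.pi : ℝ) ≠ 0 := by positivity
      exact_mod_cast this
    exact (summable_mul_left_iff h2).mp h1
  refine ⟨hDs 0, hDs 1, ?_⟩
  -- the dual sum as an integral
  set V : ℝ := (h : ℝ) * Y / m with hV
  have hV0 : 0 < V := by positivity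
  have hdual : ∫ τ : ℝ, (E2 h (Pu h (m : ZMod h)) (sl τ) *
        (V : ℂ) ^ (sl τ) * Complex.Gamma (sl τ + k)) =
      ((h / Real.pi : ℝ) : ℂ) * ((∑' j : ℕ, Dt 0 k h m (-(1 / 4)) Y j) +
        ∑' j : ℕ, Dt 1 k h m (-(1 / 4)) Y j) := by
    have hint : ∀ j, Integrable (fun τ => Tn 0 k h m Y j τ + Tn 1 k h m Y j τ) := fun j =>
      (Tn_integrable 0 k h m hk hh hm Y hY j).add (Tn_integrable 1 k h m hk hh hm Y hY j)
    have hsum : Summable (fun j : ℕ => ∫ τ, ‖Tn 0 k h m Y j τ + Tn 1 k h m Y j τ‖) := by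
      refine Summable.of_nonneg_of_le (fun j => integral_nonneg fun τ => norm_nonneg _) (fun j => ?_)
        ((hsn 0).add (hsn 1))
      rw [← integral_add (Tn_integrable 0 k h m hk hh hm Y hY j).norm
        (Tn_integrable 1 k h m hk hh hm Y hY j).norm]
      exact integral_mono (hint j).norm ((Tn_integrable 0 k h m hk hh hm Y hY j).norm.add
        (Tn_integrable 1 k h m hk hh hm Y hY j).norm) (fun τ => norm_add_le _ _)
    have h1 := (hasSum_integral_of_summable_integral_norm hint hsum).tsum_eq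
    have h2 : ∀ j, ∫ τ, (Tn 0 k h m Y j τ + Tn 1 k h m Y j τ) =
        ((2 * Real.pi : ℝ) : ℂ) * (Dt 0 k h m (-(1 / 4)) Y j + Dt 1 k h m (-(1 / 4)) Y j) := by
      intro j
      rw [integral_add (Tn_integrable 0 k h m hk hh hm Y hY j)
        (Tn_integrable 1 k h m hk hh hm Y hY j), Tn_int, Tn_int]
      ring
    have h3 : ∀ τ, ∑' j, (Tn 0 k h m Y j τ + Tn 1 k h m Y j τ) =
        ((2 * Real.pi ^ 2 / h : ℝ) : ℂ) * (E2 h (Pu h (m : ZMod h)) (sl τ) *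
        (V : ℂ) ^ (sl τ) * Complex.Gamma (sl τ + k)) := fun τ =>
      (Tn_hasSum hT4 k h m hm hc Y hY τ).tsum_eq
    simp_rw [h2, h3] at h1
    rw [tsum_mul_left, Summable.tsum_add (hDs 0) (hDs 1), integral_const_mul] at h1
    have h4 : ((2 * Real.pi ^ 2 / h : ℝ) : ℂ) ≠ 0 := by
      have : (2 * Real.pi ^ 2 / h : ℝ) ≠ 0 := by positivity
      exact_mod_cast this
    apply mul_left_cancel₀ h4
    rw [← h1]
    push_cast
    field_simp
  -- the polar term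
  set V₂ : ℝ := Y / ((m : ℝ) * h) with hV₂
  have hV₂0 : 0 < V₂ := by positivity
  obtain ⟨hz1, hz2, hz3⟩ := hT5 k hk V₂ hV₂0
  have hVV : ∀ s : ℂ, (h : ℂ) ^ (-(2 * s)) * (V : ℂ) ^ s = (V₂ : ℂ) ^ s := by
    intro s
    have e1 : (h : ℂ) ^ (-(2 * s)) = ((h : ℂ) ^ s * (h : ℂ) ^ s)⁻¹ := by
      rw [Complex.cpow_neg, two_mul, Complex.cpow_add _ _ hhc]
    have e3 : (V₂ : ℂ) ^ s * ((h : ℂ) ^ s * (h : ℂ) ^ s) = (V : ℂ) ^ s := by
      have c1 : (h : ℂ) = ((h : ℝ) : ℂ) := by push_cast; rfl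
      rw [c1, ← Complex.mul_cpow_ofReal_nonneg hh'.le hh'.le, ← Complex.ofReal_mul,
        ← Complex.mul_cpow_ofReal_nonneg hV₂0.le (by positivity), ← Complex.ofReal_mul]
      congr 2
      rw [hV, hV₂]
      field_simp
    have n1 : (h : ℂ) ^ s ≠ 0 := by
      rw [Complex.cpow_def_of_ne_zero hhc]
      exact Complex.exp_ne_zero _
    rw [e1, ← e3]
    field_simp
  -- the entire function
  have huv : (m : ZMod h) * (m : ZMod h)⁻¹ = 1 := ZMod.coe_mul_inv_eq_one m hc.symm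
  have hu : IsUnit (m : ZMod h) := IsUnit.of_mul_eq_one _ huv
  obtain ⟨g, hgd, hgE⟩ := hT3 h (m : ZMod h) hu
  obtain ⟨C3, A3, hC3, hgr⟩ := E2_growth h (Pz h (m : ZMod h))
  have hgg : ∀ s : ℂ, -(1 / 2) ≤ s.re → s.re ≤ 3 → 1 ≤ |s.im| → ‖g s‖ ≤ C3 * |s.im| ^ A3 := by
    intro s h1 h2 h3
    rw [hgE s (by
      rintro rfl
      simp at h3
      linarith)]
    exact hgr s h1 h2 h3
  have hi2 := line_int g hgd C3 A3 hC3 hgg k hk V hV0 2 (by norm_num) (by norm_num)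
  have hi4 := line_int g hgd C3 A3 hC3 hgg k hk V hV0 (-(1 / 4)) (by norm_num) (by norm_num)
  have hshift := Pool.Agent.H777R2.SM.shift g hgd C3 A3 hC3 hgg k hk V hV0 (1 / 4) (by norm_num)
    (by norm_num) hi2 hi4
  -- splitting on the two lines
  have hsplit : ∀ s : ℂ, s ≠ 1 → E2 h (Pu h (m : ZMod h)) s * (V : ℂ) ^ s * Complex.Gamma (s + k) =
      g s * (V : ℂ) ^ s * Complex.Gamma (s + k) +
        (h : ℂ) * (riemannZeta s ^ 2 * (V₂ : ℂ) ^ s * Complex.Gamma (s + k)) := by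
    intro s hs
    rw [hgE s hs, hT3b h (m : ZMod h) s, ← hVV s]
    ring
  have hne2 : ∀ τ : ℝ, ((2 : ℝ) + τ * I : ℂ) ≠ 1 := by
    intro τ h1
    have : ((2 : ℝ) + τ * I : ℂ).re = (1 : ℂ).re := by rw [h1]
    simp at this
  have hne4 : ∀ τ : ℝ, (((-(1 / 4) : ℝ) : ℂ) + τ * I) ≠ 1 := by
    intro τ h1
    have : ((((-(1 / 4) : ℝ) : ℂ) + τ * I : ℂ)).re = (1 : ℂ).re := by rw [h1]
    norm_num at this
  have hI2 : ∫ τ : ℝ, (E2 h (Pu h (m : ZMod h)) ((2 : ℝ) + τ * I) * (V : ℂ) ^ ((2 : ℝ) + τ * I : ℂ) *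
          Complex.Gamma ((2 : ℝ) + τ * I + k)) =
      (h : ℂ) * (2 * (Real.pi : ℂ) * (((k.factorial : ℝ) * V₂ * (Real.log V₂ + bk k) : ℝ) : ℂ)) +
      ∫ τ : ℝ, (E2 h (Pu h (m : ZMod h)) (sl τ) * (V : ℂ) ^ (sl τ) * Complex.Gamma (sl τ + k)) := by
    have q1 : ∫ τ : ℝ, (E2 h (Pu h (m : ZMod h)) ((2 : ℝ) + τ * I) *
          (V : ℂ) ^ ((2 : ℝ) + τ * I : ℂ) * Complex.Gamma ((2 : ℝ) + τ * I + k)) =
        (∫ τ : ℝ, g ((2 : ℝ) + τ * I) * (V : ℂ) ^ ((2 : ℝ) + τ * I : ℂ) *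
          Complex.Gamma ((2 : ℝ) + τ * I + k)) + (h : ℂ) *
          ∫ τ : ℝ, riemannZeta ((2 : ℝ) + τ * I) ^ 2 * (V₂ : ℂ) ^ ((2 : ℝ) + τ * I : ℂ) *
          Complex.Gamma ((2 : ℝ) + τ * I + k) := by
      rw [← integral_const_mul, ← integral_add hi2 (hz1.const_mul _)]
      exact integral_congr_ae (Eventually.of_forall fun τ => hsplit _ (hne2 τ))
    have q2 : ∫ τ : ℝ, (E2 h (Pu h (m : ZMod h)) (sl τ) * (V : ℂ) ^ (sl τ) *
          Complex.Gamma (sl τ + k)) =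
        (∫ τ : ℝ, g (((-(1 / 4) : ℝ) : ℂ) + τ * I) * (V : ℂ) ^ (((-(1 / 4) : ℝ) : ℂ) + τ * I : ℂ) *
          Complex.Gamma (((-(1 / 4) : ℝ) : ℂ) + τ * I + k)) + (h : ℂ) *
          ∫ τ : ℝ, riemannZeta (((-(1 / 4) : ℝ) : ℂ) + τ * I) ^ 2 *
          (V₂ : ℂ) ^ (((-(1 / 4) : ℝ) : ℂ) + τ * I : ℂ) *
          Complex.Gamma (((-(1 / 4) : ℝ) : ℂ) + τ * I + k) := by
      rw [← integral_const_mul, ← integral_add hi4 (hz2.const_mul _)]
      exact integral_congr_ae (Eventually.of_forall fun τ => hsplit _ (hne4 τ))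
    rw [q1, q2, hshift, hz3]
    ring
  -- the left-hand side
  have hSS : SS2 k h m Y = ((((m : ℝ) / h) ^ k : ℝ) : ℂ) *
      ∑' n : ℕ, (((d2 n : ℝ) : ℂ) * ZMod.stdAddChar (-((m : ZMod h) * (n : ZMod h)))) *
        (((n : ℝ) ^ k * Real.exp (-((n : ℝ) / V)) : ℝ) : ℂ) := by
    unfold SS2
    rw [← tsum_mul_left]
    refine tsum_congr fun j => ?_
    have e1 : ee h (-((j : ℤ) * m)) = ZMod.stdAddChar (-((m : ZMod h) * (j : ZMod h))) := by
      rw [ee_eq]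
      congr 1
      push_cast
      ring
    have e2 : (j : ℝ) * m / h / Y = (j : ℝ) / V := by
      rw [hV]
      field_simp
    have e3 : ((j : ℝ) * m / h) ^ k = ((m : ℝ) / h) ^ k * (j : ℝ) ^ k := by
      rw [← mul_pow]
      congr 1
      ring
    rw [e1, e2, e3]
    push_cast
    ring
  have hsumint := sum_eq_int (fun n : ℕ => ((d2 n : ℝ) : ℂ) *
    ZMod.stdAddChar (-((m : ZMod h) * (n : ZMod h)))) (E2 h (Pu h (m : ZMod h)))
    (by rw [d2_zero]; simp) (fun s hs => hT2 h (m : ZMod h) s hs) k V hV0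
  rw [hSS, hsumint, hI2, hdual]
  have hYV : ((m : ℝ) / h) ^ k * V ^ k = Y ^ k := by
    rw [← mul_pow]
    congr 1
    rw [hV]
    field_simp
  have hYVc : ((((m : ℝ) / h) ^ k : ℝ) : ℂ) * ((V ^ k / (2 * Real.pi) : ℝ) : ℂ) =
      ((Y ^ k / (2 * Real.pi) : ℝ) : ℂ) := by
    rw [← Complex.ofReal_mul, ← mul_div_assoc, hYV]
  rw [← mul_assoc, hYVc]
  have hmc : (m : ℂ) ≠ 0 := by exact_mod_cast hm'.ne'
  rw [hV₂]
  push_cast
  field_simp
  ring

end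

end Pool.Agent.H204R2.EM
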