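import Pool.Agent.H626R2.Loc.Defs

/-!
# V1: lexicographic valuation of an algebraically independent family (helper204)
-/

set_option autoImplicit false

namespace Pool.Agent.H626R2.Loc

open MvPolynomial

open scoped Pointwise

namespace V1

variable {F E : Type} [Field F] [Field E] [Algebra F E] {r : ℕ}

/-- Laurent monomials -/
noncomputable def mon (T : Fin r → E) (n : Lex (Fin r → ℤ)) : E := ∏ i, T i ^ (ofLex n i)

theorem mon_zero (T : Fin r → E) : mon T 0 = 1 := by
  unfold mon
  refine Finset.prod_eq_one fun i _ => ?_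
  exact zpow_zero _

theorem mon_add (T : Fin r → E) (h0 : ∀ i, T i ≠ 0) (m n : Lex (Fin r → ℤ)) :
    mon T (m + n) = mon T m * mon T n := by
  unfold mon
  rw [← Finset.prod_mul_distrib]
  exact Finset.prod_congr rfl fun i _ => zpow_add₀ (h0 i) _ _

theorem mon_indep (T : Fin r → E) (hT : AlgebraicIndependent F T) (h0 : ∀ i, T i ≠ 0) :
    LinearIndependent F (mon T) := by
  classical
  rw [linearIndependent_iff']
  intro s g hg n hn
  obtain ⟨N, hN⟩ : ∃ N : ℕ, ∀ m ∈ s, ∀ i, -(N : ℤ) ≤ ofLex m i := by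
    refine ⟨∑ m ∈ s, ∑ i, (ofLex m i).natAbs, fun m hm i => ?_⟩
    have h1 : (ofLex m i).natAbs ≤ ∑ i, (ofLex m i).natAbs :=
      Finset.single_le_sum (f := fun i => (ofLex m i).natAbs) (fun _ _ => Nat.zero_le _)
        (Finset.mem_univ i)
    have h2 : ∑ i, (ofLex m i).natAbs ≤ ∑ m ∈ s, ∑ i, (ofLex m i).natAbs :=
      Finset.single_le_sum (f := fun m => ∑ i, (ofLex m i).natAbs) (fun _ _ => Nat.zero_le _) hm
    omega
  obtain ⟨e, he⟩ : ∃ e : Lex (Fin r → ℤ) → (Fin r →₀ ℕ),
      ∀ m i, e m i = (ofLex m i + N).toNat :=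
    ⟨fun m => Finsupp.equivFunOnFinite.symm (fun i => (ofLex m i + N).toNat), fun m i => rfl⟩
  have hinj : ∀ m ∈ s, ∀ m' ∈ s, e m = e m' → m = m' := by
    intro m hm m' hm' h
    have h4 : ofLex m = ofLex m' := by
      funext i
      have h1 := DFunLike.congr_fun h i
      rw [he, he] at h1
      have h2 := hN m hm i
      have h3 := hN m' hm' i
      omega
    exact ofLex.injective h4
  have hP : aeval T (∑ m ∈ s, monomial (e m) (g m)) = 0 := by
    rw [map_sum]
    have h1 : ∀ m ∈ s, aeval T (monomial (e m) (g m)) = (g m • mon T m) * ∏ i, T i ^ N := by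
      intro m hm
      rw [aeval_monomial, Finsupp.prod_fintype _ _ (fun i => pow_zero _), Algebra.smul_def,
        mul_assoc]
      congr 1
      unfold mon
      rw [← Finset.prod_mul_distrib]
      refine Finset.prod_congr rfl fun i _ => ?_
      have h2 := hN m hm i
      rw [he, ← zpow_natCast, ← zpow_natCast, ← zpow_add₀ (h0 i), Int.toNat_of_nonneg (by omega)]
    rw [Finset.sum_congr rfl h1, ← Finset.sum_mul, hg, zero_mul]
  have hP0 : (∑ m ∈ s, monomial (e m) (g m) : MvPolynomial (Fin r) F) = 0 :=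
    hT (by rw [hP, map_zero])
  have h5 := congrArg (coeff (e n)) hP0
  rw [coeff_sum, coeff_zero, Finset.sum_eq_single n] at h5
  · simpa using h5
  · intro m hm hmn
    rw [coeff_monomial, if_neg]
    exact fun h => hmn (hinj m hm n hn h)
  · intro h
    exact absurd hn h

end V1

open V1 in
/-- V1. An algebraically independent family has independent values for some valuation trivial on
the constants. -/
theorem exists_indepVal {F E : Type} [Field F] [Field E] [Algebra F E] {r : ℕ} (T : Fin r → E)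
    (hT : AlgebraicIndependent F T) :
    ∃ V : ValuationSubring E, (∀ c : F, algebraMap F E c ∈ V) ∧ IndepVal V T := by
  have h0 : ∀ i, T i ≠ 0 := fun i => hT.ne_zero i
  have hli := mon_indep T hT h0
  obtain ⟨P0, hP0⟩ : ∃ P0 : Set E, P0 = mon T '' {n | 0 ≤ n} := ⟨_, rfl⟩
  obtain ⟨P1, hP1⟩ : ∃ P1 : Set E, P1 = mon T '' {n | 0 < n} := ⟨_, rfl⟩
  have h00 : P0 * P0 ⊆ P0 := by
    rintro _ ⟨x, hx, y, hy, rfl⟩
    rw [hP0] at hx hy ⊢
    obtain ⟨m, hm, rfl⟩ := hx
    obtain ⟨n, hn, rfl⟩ := hy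
    have hm' : (0 : Lex (Fin r → ℤ)) ≤ m := hm
    have hn' : (0 : Lex (Fin r → ℤ)) ≤ n := hn
    have h : (0 : Lex (Fin r → ℤ)) ≤ m + n := add_nonneg hm' hn'
    exact ⟨m + n, h, mon_add T h0 m n⟩
  have h01 : P0 * P1 ⊆ P1 := by
    rintro _ ⟨x, hx, y, hy, rfl⟩
    rw [hP0] at hx
    rw [hP1] at hy ⊢
    obtain ⟨m, hm, rfl⟩ := hx
    obtain ⟨n, hn, rfl⟩ := hy
    have hm' : (0 : Lex (Fin r → ℤ)) ≤ m := hm
    have hn' : (0 : Lex (Fin r → ℤ)) < n := hn
    have h : (0 : Lex (Fin r → ℤ)) < m + n := add_pos_of_nonneg_of_pos hm' hn'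
    exact ⟨m + n, h, mon_add T h0 m n⟩
  have hA : ∀ a ∈ Algebra.adjoin F P0, a ∈ Submodule.span F P0 := by
    intro a ha
    induction ha using Algebra.adjoin_induction with
    | mem x hx => exact Submodule.subset_span hx
    | algebraMap c =>
      rw [Algebra.algebraMap_eq_smul_one, ← mon_zero T]
      refine Submodule.smul_mem _ _ (Submodule.subset_span ?_)
      rw [hP0]
      exact ⟨0, show (0 : Lex (Fin r → ℤ)) ≤ 0 from le_rfl, rfl⟩
    | add x y _ _ hx hy => exact Submodule.add_mem _ hx hy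
    | mul x y _ _ hx hy =>
      have h := Submodule.mul_mem_mul hx hy
      rw [Submodule.span_mul_span] at h
      exact Submodule.span_mono h00 h
  obtain ⟨A, hAd⟩ : ∃ A : Subring E, A = (Algebra.adjoin F P0).toSubring := ⟨_, rfl⟩
  have hAm : ∀ x : E, x ∈ A ↔ x ∈ Algebra.adjoin F P0 := by
    intro x; rw [hAd]; rfl
  let I : Ideal A := Ideal.span {a : A | (a : E) ∈ P1}
  have hI : ∀ x ∈ I, (x : E) ∈ Submodule.span F P1 := by
    intro x hx
    induction hx using Submodule.span_induction with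
    | mem x hx => exact Submodule.subset_span hx
    | zero => exact Submodule.zero_mem _
    | add x y _ _ hx hy => exact Submodule.add_mem _ hx hy
    | smul a x _ hx =>
      have h := Submodule.mul_mem_mul (hA a ((hAm _).1 a.2)) hx
      rw [Submodule.span_mul_span] at h
      exact Submodule.span_mono h01 h
  have hItop : I ≠ ⊤ := by
    intro h
    have h1 : (1 : A) ∈ I := by rw [h]; trivial
    have h2 := hI 1 h1
    have h3 : ((1 : A) : E) = mon T 0 := by rw [mon_zero]; rfl
    rw [h3, hP1] at h2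
    exact hli.notMem_span_image (s := {n | 0 < n}) (x := 0)
      (fun h : (0 : Lex (Fin r → ℤ)) < 0 => lt_irrefl _ h) h2
  obtain ⟨V, hV1, hV2⟩ := Ideal.image_subset_nonunits_valuationSubring I hItop
  have hlt : ∀ n : Lex (Fin r → ℤ), 0 < n → V.valuation (mon T n) < 1 := by
    intro n hn
    have h1 : mon T n ∈ P1 := by rw [hP1]; exact ⟨n, hn, rfl⟩
    have h2 : mon T n ∈ A := by
      rw [hAm]
      refine Algebra.subset_adjoin ?_
      rw [hP0]
      exact ⟨n, hn.le, rfl⟩
    have h3 : (⟨mon T n, h2⟩ : A) ∈ I := Ideal.subset_span h1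
    exact hV2 ⟨_, h3, rfl⟩
  refine ⟨V, fun c => hV1 ?_, h0, fun n hn hval => ?_⟩
  · rw [hAm]
    exact Subalgebra.algebraMap_mem _ c
  · rcases lt_trichotomy (0 : Lex (Fin r → ℤ)) (toLex n) with h | h | h
    · have h1 := hlt _ h
      exact absurd hval h1.ne
    · apply hn
      exact (toLex.injective h).symm
    · have h1 := hlt (-toLex n) (neg_pos.2 h)
      have h2 : mon T (toLex n + -toLex n) = mon T (toLex n) * mon T (-toLex n) :=
        mon_add T h0 _ _
      rw [add_neg_cancel, mon_zero] at h2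
      have h3 := congrArg V.valuation h2
      rw [map_one, map_mul] at h3
      have h4 : V.valuation (mon T (toLex n)) = 1 := hval
      rw [h4, one_mul] at h3
      exact absurd h3.symm h1.ne

end Pool.Agent.H626R2.Loc
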