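import Pool.Agent.H204R2.Poly
import Pool.Agent.H204R2.Cube

set_option autoImplicit false

namespace Pool.Agent.H204R2.BD

open Pool.Agent.H204R2 (MD)

variable {n : ℕ} {G : BipDAG n}

theorem PolylineDrawing.last (D : PolylineDrawing G) (u v : Fin n) :
    lastC (D.pos u) (D.bends u v ++ [D.pos v]) = D.pos v := lastC_append _ _ _

/-- the system of curves of a drawing -/
noncomputable def toMD (D : PolylineDrawing G) : MD (Fin n) where
  X v := (D.pos v).1
  Y v := (D.pos v).2
  E := G.Adj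
  F u v := xOf (D.pos u) (D.bends u v ++ [D.pos v])
  cont u v h := xOf_cont _ _ (D.upward u v h)
  lt u v h := by
    have h1 := D.upward u v h
    cases hb : D.bends u v with
    | nil =>
      rw [hb] at h1
      have := (List.isChain_cons_cons.1 h1).1
      exact_mod_cast this
    | cons q l =>
      rw [hb] at h1
      have h2 := List.isChain_cons_cons.1 h1
      have h3 := le_last q (l ++ [D.pos v]) h2.2
      rw [lastC_append] at h3
      have : (D.pos u).2 < (D.pos v).2 := lt_of_lt_of_le h2.1 h3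
      exact_mod_cast this
  bot u v h := xOf_start _ _ (D.upward u v h)
  top u v h := by
    have := xOf_last _ _ (D.upward u v h)
    rwa [D.last] at this
  meet u v u' v' y h h' hne h1 h2 h3 h4 he := by
    have m1 := xOf_mem _ _ (D.upward u v h) h1 (by rwa [D.last])
    have m2 := xOf_mem _ _ (D.upward u' v' h') h3 (by rwa [D.last])
    rw [← he] at m2
    obtain ⟨w, hw, hw', hz⟩ := D.noncrossing u v u' v' h h' hne _ m1 m2
    obtain ⟨S, hS⟩ := G.bipartite
    have a := hS u v h
    have b := hS u' v' h'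
    have hy : y = (D.pos w).2 := by
      have := congrArg Prod.snd hz
      simpa [toPlane] using this
    rcases hw with rfl | rfl <;> rcases hw' with rfl | rfl
    · exact Or.inl ⟨rfl, hy⟩
    · exact absurd a.1 b.2
    · exact absurd b.1 a.2
    · exact Or.inr ⟨rfl, hy⟩

/-! ### The ring graph -/

/-- adjacency of the ring graph on the natural numbers: vertex `4 j + i` is the `i`-th vertex of the
`j`-th ring; even vertices are sources -/
def adjN (a b : ℕ) : Prop :=
  a % 2 = 0 ∧ ((b / 4 = a / 4 ∧ b % 2 = 1) ∨ b = a + 5 ∨ (a % 4 = 0 ∧ b + 1 = a) ∨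
    (a % 4 = 2 ∧ b + 5 = a))

/-- the ring graph with `n` vertices -/
def Gn (n : ℕ) : BipDAG n where
  Adj u v := adjN u v
  bipartite := ⟨{v | (v : ℕ) % 2 = 0}, by
    intro u v h
    unfold adjN at h
    show (u : ℕ) % 2 = 0 ∧ ¬ (v : ℕ) % 2 = 0
    omega⟩

section
variable (D : PolylineDrawing (Gn n))

/-- vertex `i` of ring `j` -/
def rv {n : ℕ} (j i : ℕ) (h : 4 * j + i < n) : Fin n := ⟨4 * j + i, h⟩

theorem rings (j : ℕ) (h : 4 * j + 12 ≤ n) :
    (toMD D).Rings (rv j 0 (by omega)) (rv j 1 (by omega)) (rv j 2 (by omega)) (rv j 3 (by omega))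
      (rv (j + 1) 0 (by omega)) (rv (j + 1) 1 (by omega)) (rv (j + 1) 2 (by omega))
      (rv (j + 1) 3 (by omega))
      (rv (j + 2) 0 (by omega)) (rv (j + 2) 1 (by omega)) (rv (j + 2) 2 (by omega))
      (rv (j + 2) 3 (by omega)) := by
  constructor
  · constructor
    all_goals first
      | (show adjN _ _; unfold adjN rv; simp only; omega)
      | (unfold rv; rw [Ne, Fin.mk.injEq]; omega)
  all_goals first
    | (show adjN _ _; unfold adjN rv; simp only; omega)
    | (unfold rv; rw [Ne, Fin.mk.injEq]; omega)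

theorem ringQ (j : ℕ) (h : 4 * j + 4 ≤ n) :
    (toMD D).Quad (rv j 0 (by omega)) (rv j 2 (by omega)) (rv j 1 (by omega)) (rv j 3 (by omega)) := by
  constructor <;> (show adjN _ _; unfold adjN rv; simp only; omega)

/-- the parity of a vertex with respect to ring `j` -/
noncomputable def rchi (j : ℕ) (h : 4 * j + 4 ≤ n) (x y : ℝ) : ZMod 2 :=
  (toMD D).chi (rv j 0 (by omega)) (rv j 2 (by omega)) (rv j 1 (by omega)) (rv j 3 (by omega)) x y

/-- ring `i` is inside ring `j` -/
def Enc (j i : ℕ) : Prop :=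
  ∃ (h : 4 * j + 4 ≤ n) (h' : 4 * i + 4 ≤ n),
    rchi D j h ((toMD D).X (rv i 3 (by omega))) ((toMD D).Y (rv i 3 (by omega))) = 1

theorem ring_const (j i : ℕ) (hji : j ≠ i) (h : 4 * j + 4 ≤ n) (h' : 4 * i + 4 ≤ n)
    (k : ℕ) (hk : k < 4) :
    rchi D j h ((toMD D).X (rv i k (by omega))) ((toMD D).Y (rv i k (by omega))) =
    rchi D j h ((toMD D).X (rv i 3 (by omega))) ((toMD D).Y (rv i 3 (by omega))) := by
  have Q := ringQ D j h
  have key : ∀ a b : ℕ, (ha : a < 4) → (hb : b < 4) → a % 2 = 0 → b % 2 = 1 →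
      (toMD D).chv (rv j 0 (by omega)) (rv j 2 (by omega)) (rv j 1 (by omega)) (rv j 3 (by omega))
        (rv i a (by omega)) =
      (toMD D).chv (rv j 0 (by omega)) (rv j 2 (by omega)) (rv j 1 (by omega)) (rv j 3 (by omega))
        (rv i b (by omega)) := by
    intro a b ha hb ha2 hb2
    apply (toMD D).chv_edge Q
    · show adjN _ _
      unfold adjN rv
      simp only
      omega
    all_goals (unfold rv; rw [Ne, Fin.mk.injEq]; omega)
  show (toMD D).chv _ _ _ _ _ = (toMD D).chv _ _ _ _ _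
  have k03 := key 0 3 (by omega) (by omega) (by omega) (by omega)
  have k01 := key 0 1 (by omega) (by omega) (by omega) (by omega)
  have k23 := key 2 3 (by omega) (by omega) (by omega) (by omega)
  have : k = 0 ∨ k = 1 ∨ k = 2 ∨ k = 3 := by omega
  rcases this with rfl | rfl | rfl | rfl
  · exact k03
  · exact k01.symm.trans k03
  · exact k23
  · rfl

theorem enc_xor (j : ℕ) (h : 4 * j + 12 ≤ n) : Enc D (j + 1) (j + 2) ∨ Enc D (j + 1) j := by
  have hs := (rings D j h).sep
  have e1 := ring_const D (j + 1) (j + 2) (by omega) (by omega) (by omega) 0 (by omega)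
  by_contra hcon
  push Not at hcon
  obtain ⟨n1, n2⟩ := hcon
  unfold Enc at n1 n2
  push Not at n1 n2
  have n1' := n1 (by omega) (by omega)
  have n2' := n2 (by omega) (by omega)
  have z : ∀ x : ZMod 2, x ≠ 1 → x = 0 := by decide
  have z1 := z _ n1'
  have z2 := z _ n2'
  rw [z1] at e1
  unfold rchi at e1 z2
  unfold MD.chv at hs
  rw [e1, z2] at hs
  simp at hs


theorem corner_mem_polyline (p : ℤ × ℤ) (l : List (ℤ × ℤ)) (c : ℤ × ℤ) (hc : c ∈ p :: l) :
    toPlane c ∈ polyline (p :: l) := by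
  induction l generalizing p with
  | nil =>
    simp only [List.mem_cons, List.not_mem_nil, or_false] at hc
    subst hc
    simp [polyline]
  | cons q l ih =>
    simp only [polyline]
    rw [List.mem_cons] at hc
    rcases hc with rfl | hc
    · exact Or.inl (left_mem_segment ℝ _ _)
    · exact Or.inr (ih q hc)

/-- `c` is a corner (vertex or bend) on ring `j` -/
def Corner (j : ℕ) (c : ℤ × ℤ) : Prop :=
  ∃ (h : 4 * j + 4 ≤ n) (a b : ℕ) (ha : a < 4) (hb : b < 4), a % 2 = 0 ∧ b % 2 = 1 ∧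
    c ∈ D.pos (rv j a (by omega)) ::
      (D.bends (rv j a (by omega)) (rv j b (by omega)) ++ [D.pos (rv j b (by omega))])

theorem ring_adj (j a b : ℕ) (ha : a < 4) (hb : b < 4) (ha2 : a % 2 = 0) (hb2 : b % 2 = 1)
    (h : 4 * j + 4 ≤ n) : (Gn n).Adj (rv j a (by omega)) (rv j b (by omega)) := by
  show adjN _ _
  unfold adjN rv
  simp only
  omega

theorem corner_left (j i : ℕ) (hji : j ≠ i) (hE : Enc D j i) (c : ℤ × ℤ) (hc : Corner D i c) :
    ∃ c', Corner D j c' ∧ c'.1 < c.1 := by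
  obtain ⟨h, h', he⟩ := hE
  obtain ⟨hi, a, b, ha, hb, ha2, hb2, hmem⟩ := hc
  have hadj := ring_adj i a b ha hb ha2 hb2 h'
  have hup := D.upward _ _ hadj
  obtain ⟨m1, m2, m3⟩ := of_mem_polyline _ _ hup (corner_mem_polyline _ _ _ hmem)
  rw [D.last] at m3
  have Q := ringQ D j h
  have hchi := (toMD D).chi_edge Q (u := rv i a (by omega)) (v := rv i b (by omega)) hadj
    (by unfold rv; rw [Ne, Fin.mk.injEq]; omega) (by unfold rv; rw [Ne, Fin.mk.injEq]; omega)
    (by unfold rv; rw [Ne, Fin.mk.injEq]; omega) (by unfold rv; rw [Ne, Fin.mk.injEq]; omega) m2 m3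
  have hb' := ring_const D j i hji h h' b hb
  have hone : (toMD D).chv (rv j 0 (by omega)) (rv j 2 (by omega)) (rv j 1 (by omega))
      (rv j 3 (by omega)) (rv i b (by omega)) = 1 := hb'.trans he
  rw [hone] at hchi
  have hne : (toMD D).chi (rv j 0 (by omega)) (rv j 2 (by omega)) (rv j 1 (by omega))
      (rv j 3 (by omega)) ((toMD D).F (rv i a (by omega)) (rv i b (by omega)) (toPlane c).2)
      (toPlane c).2 ≠ 0 := by
    rw [hchi]; decide
  have hF : (toMD D).F (rv i a (by omega)) (rv i b (by omega)) (toPlane c).2 = (c.1 : ℝ) := m1.symm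
  rw [hF] at hne
  have fin : ∀ a' b' : ℕ, (ha' : a' < 4) → (hb' : b' < 4) → a' % 2 = 0 → b' % 2 = 1 →
      (toMD D).Y (rv j a' (by omega)) ≤ (toPlane c).2 → (toPlane c).2 < (toMD D).Y (rv j b' (by omega)) →
      (toMD D).F (rv j a' (by omega)) (rv j b' (by omega)) (toPlane c).2 < c.1 →
      ∃ c', Corner D j c' ∧ c'.1 < c.1 := by
    intro a' b' ha' hb' ha2' hb2' e1 e2 e3
    have hadj' := ring_adj j a' b' ha' hb' ha2' hb2' h
    have hup' := D.upward _ _ hadj'
    obtain ⟨c', hc', hle⟩ := exists_corner_le _ _ hup' e1 (by rw [D.last]; exact e2.le)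
    refine ⟨c', ⟨h, a', b', ha', hb', ha2', hb2', hc'⟩, ?_⟩
    have : (c'.1 : ℝ) < c.1 := lt_of_le_of_lt hle e3
    exact_mod_cast this
  rcases (toMD D).exists_left hne with ⟨e1, e2, e3⟩ | ⟨e1, e2, e3⟩ | ⟨e1, e2, e3⟩ | ⟨e1, e2, e3⟩
  · exact fin 0 1 (by omega) (by omega) (by omega) (by omega) e1 e2 e3
  · exact fin 0 3 (by omega) (by omega) (by omega) (by omega) e1 e2 e3
  · exact fin 2 1 (by omega) (by omega) (by omega) (by omega) e1 e2 e3
  · exact fin 2 3 (by omega) (by omega) (by omega) (by omega) e1 e2 e3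

/-- `y` is the height of a sink of ring `j` -/
def SinkH (j : ℕ) (y : ℤ) : Prop :=
  ∃ (h : 4 * j + 4 ≤ n) (b : ℕ) (hb : b < 4), b % 2 = 1 ∧ y = (D.pos (rv j b (by omega))).2

theorem sink_up (j i : ℕ) (hji : j ≠ i) (hE : Enc D j i) (y : ℤ) (hy : SinkH D i y) :
    ∃ y', SinkH D j y' ∧ y < y' := by
  obtain ⟨h, h', he⟩ := hE
  obtain ⟨-, b, hb, hb2, rfl⟩ := hy
  have hb' := (ring_const D j i hji h h' b hb).trans he
  have hne : (toMD D).chi (rv j 0 (by omega)) (rv j 2 (by omega)) (rv j 1 (by omega))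
      (rv j 3 (by omega)) ((toMD D).X (rv i b (by omega))) ((toMD D).Y (rv i b (by omega))) ≠ 0 := by
    unfold rchi at hb'
    rw [hb']; decide
  have fin : ∀ b' : ℕ, (hb' : b' < 4) → b' % 2 = 1 →
      (toMD D).Y (rv i b (by omega)) < (toMD D).Y (rv j b' (by omega)) →
      ∃ y', SinkH D j y' ∧ (D.pos (rv i b (by omega))).2 < y' := by
    intro b' hb' hb2' e2
    refine ⟨_, ⟨h, b', hb', hb2', rfl⟩, ?_⟩
    have : (((D.pos (rv i b (by omega))).2 : ℤ) : ℝ) < (D.pos (rv j b' (by omega))).2 := e2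
    exact_mod_cast this
  rcases (toMD D).exists_left hne with ⟨e1, e2, e3⟩ | ⟨e1, e2, e3⟩ | ⟨e1, e2, e3⟩ | ⟨e1, e2, e3⟩
  · exact fin 1 (by omega) (by omega) e2
  · exact fin 3 (by omega) (by omega) e2
  · exact fin 1 (by omega) (by omega) e2
  · exact fin 3 (by omega) (by omega) e2

theorem not_both (j i : ℕ) (hji : j ≠ i) (h1 : Enc D j i) (h2 : Enc D i j) : False := by
  have h1' := h1
  obtain ⟨h, h', -⟩ := h1'
  -- the highest sink of ring j
  have key : ∀ a b : ℕ, a ≠ b → Enc D a b → Enc D b a → ∀ y, SinkH D a y → ∃ y', SinkH D a y' ∧ y < y' := by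
    intro a b hab hA hB y hy
    obtain ⟨y1, hy1, l1⟩ := sink_up D b a hab.symm hB y hy
    obtain ⟨y2, hy2, l2⟩ := sink_up D a b hab hA y1 hy1
    exact ⟨y2, hy2, l1.trans l2⟩
  have hfin : Set.Finite {y | SinkH D j y} := by
    apply Set.Finite.subset (Set.finite_range (fun v : Fin n => (D.pos v).2))
    rintro y ⟨h, b, hb, -, rfl⟩
    exact ⟨_, rfl⟩
  have hne : Set.Nonempty {y | SinkH D j y} := ⟨_, h, 1, by omega, by omega, rfl⟩
  obtain ⟨m, hm, hmax⟩ := hfin.exists_maximalFor id _ hne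
  obtain ⟨y', hy', hlt⟩ := key j i hji h1 h2 m hm
  have := hmax hy' hlt.le
  simp only [id] at this
  omega

/-- iterate a strictly decreasing step -/
theorem descend (P : ℕ → ℤ → Prop) (d : ℕ)
    (step : ∀ i, i < d → ∀ x, P i x → ∃ x', P (i + 1) x' ∧ x' < x) (x : ℤ) (h : P 0 x) :
    ∃ x', P d x' ∧ x' ≤ x - d := by
  induction d with
  | zero => exact ⟨x, h, by simp⟩
  | succ d ih =>
    obtain ⟨x1, h1, h2⟩ := ih (fun i hi => step i (by omega))
    obtain ⟨x2, h3, h4⟩ := step d (by omega) x1 h1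
    refine ⟨x2, h3, ?_⟩
    push_cast
    omega

theorem chain_bound (f : ℕ → ℕ) (d : ℕ) (hf : ∀ i, i < d → f (i + 1) ≠ f i ∧ Enc D (f (i + 1)) (f i))
    (h0 : 4 * f 0 + 4 ≤ n) (x₀ y₀ : ℤ) (W H : ℕ) (hB : D.InBox x₀ y₀ W H) : d ≤ W ∧ d ≤ H := by
  constructor
  · obtain ⟨x', ⟨c, hc, hcx⟩, hx'⟩ := descend (fun i x => ∃ c, Corner D (f i) c ∧ c.1 = x) d (by
      rintro i hi x ⟨c, hc, rfl⟩
      obtain ⟨c', hc', hlt⟩ := corner_left D _ _ (hf i hi).1 (hf i hi).2 c hc
      exact ⟨c'.1, ⟨c', hc', rfl⟩, hlt⟩) (D.pos (rv (f 0) 0 (by omega))).1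
      ⟨_, ⟨h0, 0, 1, by omega, by omega, by omega, by omega, List.mem_cons_self⟩, rfl⟩
    have hin : ∀ j c, Corner D j c → x₀ ≤ c.1 := by
      rintro j c ⟨h, a, b, ha, hb, ha2, hb2, hmem⟩
      rw [List.mem_cons, List.mem_append, List.mem_singleton] at hmem
      rcases hmem with rfl | hmem | rfl
      · exact (hB.1 _).1
      · exact (hB.2 _ _ (ring_adj j a b ha hb ha2 hb2 h) c hmem).1
      · exact (hB.1 _).1
    have h1 := hin _ _ hc
    have h2 := (hB.1 (rv (f 0) 0 (by omega))).2.1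
    rw [hcx] at h1
    omega
  · obtain ⟨y', ⟨y, hy, hyy⟩, hy'⟩ := descend (fun i x => ∃ y, SinkH D (f i) y ∧ -y = x) d (by
      rintro i hi x ⟨y, hy, rfl⟩
      obtain ⟨y', hy', hlt⟩ := sink_up D _ _ (hf i hi).1 (hf i hi).2 y hy
      exact ⟨-y', ⟨y', hy', rfl⟩, by omega⟩) (-(D.pos (rv (f 0) 1 (by omega))).2)
      ⟨_, ⟨h0, 1, by omega, by omega, rfl⟩, rfl⟩
    obtain ⟨h, b, hb, -, rfl⟩ := hy
    have h1 := (hB.1 (rv (f d) b (by omega))).2.2.2
    have h2 := (hB.1 (rv (f 0) 1 (by omega))).2.2.1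
    omega

theorem box_bound (k d : ℕ) (hk : 4 * k ≤ n) (hd : 2 * d + 1 ≤ k) (hd0 : 1 ≤ d) (x₀ y₀ : ℤ) (W H : ℕ)
    (hB : D.InBox x₀ y₀ W H) : d ≤ W ∧ d ≤ H := by
  rcases enc_xor D (d - 1) (by omega) with h | h
  · -- ring d encloses ring d + 1: go up
    have h' : Enc D d (d + 1) := by
      have e : d - 1 + 1 = d := by omega
      have e2 : d - 1 + 2 = d + 1 := by omega
      rw [e, e2] at h
      exact h
    have up : ∀ i, d + i + 1 < k → Enc D (d + i) (d + i + 1) := by
      intro i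
      induction i with
      | zero => intro _; exact h'
      | succ i ih =>
        intro hi
        have h1 := ih (by omega)
        rcases enc_xor D (d + i) (by omega) with h2 | h2
        · exact h2
        · exact absurd h2 (fun h2 => not_both D (d + i) (d + i + 1) (by omega) h1 h2)
    apply chain_bound D (fun i => d + d - i) d _ (by omega) x₀ y₀ W H hB
    intro i hi
    refine ⟨by omega, ?_⟩
    have h1 := up (d - (i + 1)) (by omega)
    have e1 : d + (d - (i + 1)) = d + d - (i + 1) := by omega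
    have e2 : d + (d - (i + 1)) + 1 = d + d - i := by omega
    rw [e2, e1] at h1
    exact h1
  · have h' : Enc D d (d - 1) := by
      have e : d - 1 + 1 = d := by omega
      rw [e] at h
      exact h
    have down : ∀ i, i + 1 ≤ d → Enc D (d - i) (d - i - 1) := by
      intro i
      induction i with
      | zero => intro _; exact h'
      | succ i ih =>
        intro hi
        have h1 := ih (by omega)
        rcases enc_xor D (d - (i + 1) - 1) (by omega) with h2 | h2
        · have e1 : d - (i + 1) - 1 + 1 = d - i - 1 := by omega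
          have e2 : d - (i + 1) - 1 + 2 = d - i := by omega
          rw [e1, e2] at h2
          exact absurd h2 (fun h2 => not_both D (d - i) (d - i - 1) (by omega) h1 h2)
        · have e1 : d - (i + 1) - 1 + 1 = d - (i + 1) := by omega
          rw [e1] at h2
          exact h2
    apply chain_bound D (fun i => i) d _ (by omega) x₀ y₀ W H hB
    intro i hi
    refine ⟨by omega, ?_⟩
    have h1 := down (d - (i + 1)) (by omega)
    have e1 : d - (d - (i + 1)) = i + 1 := by omega
    have e2 : d - (d - (i + 1)) - 1 = i := by omega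
    rw [e2, e1] at h1
    exact h1

end

end Pool.Agent.H204R2.BD
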