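import Mathlib

/-!
Drawings with edges that are graphs `x = F(y)` of continuous functions (upward curves), of digraphs
in which every vertex is a source or a sink; parity of the number of curves of a 4-cycle to the
left of a point.
-/

set_option autoImplicit false

namespace Pool.Agent.H204R2

/-- a system of upward curves -/
structure MD (V : Type) where
  X : V → ℝ
  Y : V → ℝ
  E : V → V → Prop
  F : V → V → ℝ → ℝ
  cont : ∀ u v, E u v → Continuous (F u v)
  lt : ∀ u v, E u v → Y u < Y v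
  bot : ∀ u v, E u v → F u v (Y u) = X u
  top : ∀ u v, E u v → F u v (Y v) = X v
  meet : ∀ u v u' v' y, E u v → E u' v' → (u, v) ≠ (u', v') → Y u ≤ y → y ≤ Y v →
    Y u' ≤ y → y ≤ Y v' → F u v y = F u' v' y → (u = u' ∧ y = Y u) ∨ (v = v' ∧ y = Y v)

namespace MD

variable {V : Type} (M : MD V)

/-- the curve `s → t` is to the left of the curve `u → v` at one height iff it is at another -/
theorem side_const {u v s t : V} (huv : M.E u v) (hst : M.E s t) (hne : v ≠ t) {lo : ℝ}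
    (hlo : M.Y u ≤ lo) (h : u ≠ s ∨ M.Y u < lo) {y z : ℝ}
    (h1 : lo ≤ y) (h2 : y ≤ M.Y v) (h3 : M.Y s ≤ y) (h4 : y ≤ M.Y t)
    (g1 : lo ≤ z) (g2 : z ≤ M.Y v) (g3 : M.Y s ≤ z) (g4 : z ≤ M.Y t)
    (hy : M.F s t y < M.F u v y) : M.F s t z < M.F u v z := by
  by_contra hcon
  push Not at hcon
  have hc : ContinuousOn (fun w => M.F s t w - M.F u v w) (Set.uIcc y z) :=
    ((M.cont s t hst).sub (M.cont u v huv)).continuousOn
  have himg := intermediate_value_uIcc hc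
  have h0 : (0 : ℝ) ∈ Set.uIcc (M.F s t y - M.F u v y) (M.F s t z - M.F u v z) := by
    rw [Set.mem_uIcc]
    left
    constructor <;> linarith
  obtain ⟨w, hw, hw0⟩ := himg h0
  have hw0' : M.F s t w = M.F u v w := by
    have : M.F s t w - M.F u v w = 0 := hw0
    linarith
  have hwlo : lo ≤ w := le_trans (le_min h1 g1) hw.1
  have hwv : w ≤ M.Y v := le_trans hw.2 (max_le h2 g2)
  have hws : M.Y s ≤ w := le_trans (le_min h3 g3) hw.1
  have hwt : w ≤ M.Y t := le_trans hw.2 (max_le h4 g4)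
  have hpair : (s, t) ≠ (u, v) := by
    intro he
    rw [Prod.mk.injEq] at he
    exact hne he.2.symm
  rcases M.meet s t u v w hst huv hpair hws hwt (le_trans hlo hwlo) hwv hw0' with ⟨e1, e2⟩ | ⟨e1, e2⟩
  · rcases h with h | h
    · exact h e1.symm
    · rw [e1] at e2
      linarith
  · exact hne e1.symm

theorem side_iff {u v s t : V} (huv : M.E u v) (hst : M.E s t) (hne : v ≠ t) {lo : ℝ}
    (hlo : M.Y u ≤ lo) (h : u ≠ s ∨ M.Y u < lo) {y z : ℝ}
    (h1 : lo ≤ y) (h2 : y ≤ M.Y v) (h3 : M.Y s ≤ y) (h4 : y ≤ M.Y t)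
    (g1 : lo ≤ z) (g2 : z ≤ M.Y v) (g3 : M.Y s ≤ z) (g4 : z ≤ M.Y t) :
    M.F s t y < M.F u v y ↔ M.F s t z < M.F u v z :=
  ⟨M.side_const huv hst hne hlo h h1 h2 h3 h4 g1 g2 g3 g4,
    M.side_const huv hst hne hlo h g1 g2 g3 g4 h1 h2 h3 h4⟩

open Classical in
/-- `1` if the curve `s → t` passes to the left of the point `(x, y)` -/
noncomputable def lft (s t : V) (x y : ℝ) : ZMod 2 :=
  if M.Y s ≤ y ∧ y < M.Y t ∧ M.F s t y < x then 1 else 0

/-- parity of the number of curves of the 4-cycle with sources `a`, `c` and sinks `b`, `d` to the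
left of the point `(x, y)` -/
noncomputable def chi (a c b d : V) (x y : ℝ) : ZMod 2 :=
  M.lft a b x y + M.lft a d x y + M.lft c b x y + M.lft c d x y

theorem chi_swap1 (a c b d : V) (x y : ℝ) : M.chi a c b d x y = M.chi c a b d x y := by
  unfold chi; ring

theorem chi_swap2 (a c b d : V) (x y : ℝ) : M.chi a c b d x y = M.chi a c d b x y := by
  unfold chi; ring

/-- the quadrilateral with sources `a`, `c` and sinks `b`, `d` -/
structure Quad (a c b d : V) : Prop where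
  ab : M.E a b
  ad : M.E a d
  cb : M.E c b
  cd : M.E c d

open Classical in
/-- side indicator -/
noncomputable def sig (u v : V) (lo : ℝ) (s t : V) : ZMod 2 :=
  if ∃ y, lo ≤ y ∧ y ≤ M.Y v ∧ M.Y s ≤ y ∧ y ≤ M.Y t ∧ M.F s t y < M.F u v y then 1 else 0

theorem sig_eq {u v s t : V} (huv : M.E u v) (hst : M.E s t) (hne : v ≠ t) {lo : ℝ}
    (hlo : M.Y u ≤ lo) (h : u ≠ s ∨ M.Y u < lo) {y : ℝ}
    (h1 : lo ≤ y) (h2 : y ≤ M.Y v) (h3 : M.Y s ≤ y) (h4 : y ≤ M.Y t) [Decidable (M.F s t y < M.F u v y)] :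
    M.sig u v lo s t = if M.F s t y < M.F u v y then 1 else 0 := by
  unfold sig
  by_cases hy : M.F s t y < M.F u v y
  · rw [if_pos hy, if_pos ⟨y, h1, h2, h3, h4, hy⟩]
  · rw [if_neg hy, if_neg]
    rintro ⟨z, g1, g2, g3, g4, hz⟩
    exact hy (M.side_const huv hst hne hlo h g1 g2 g3 g4 h1 h2 h3 h4 hz)

open Classical in
theorem lft_eq {u v s t : V} (huv : M.E u v) (hst : M.E s t) (hne : v ≠ t) {lo : ℝ}
    (hlo : M.Y u ≤ lo) (h : u ≠ s ∨ M.Y u < lo) {y : ℝ}
    (h1 : lo ≤ y) (h2 : y ≤ M.Y v) :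
    M.lft s t (M.F u v y) y =
      (if M.Y s ≤ y then M.sig u v lo s t else 0) + (if M.Y t ≤ y then M.sig u v lo s t else 0) := by
  have hl := M.lt s t hst
  unfold lft
  by_cases hs : M.Y s ≤ y
  · by_cases ht : M.Y t ≤ y
    · rw [if_neg (fun hh => absurd hh.2.1 (not_lt.2 ht)), if_pos hs, if_pos ht]
      exact (CharTwo.add_self_eq_zero _).symm
    · rw [if_pos hs, if_neg ht, add_zero]
      push Not at ht
      rw [M.sig_eq huv hst hne hlo h h1 h2 hs ht.le]
      by_cases hF : M.F s t y < M.F u v y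
      · rw [if_pos ⟨hs, ht, hF⟩, if_pos hF]
      · rw [if_neg (fun hh => hF hh.2.2), if_neg hF]
  · have ht : ¬ M.Y t ≤ y := by
      push Not at hs ⊢
      linarith
    rw [if_neg (fun hh => hs hh.1), if_neg hs, if_neg ht, add_zero]

open Classical in
theorem chi_const {u v a c b d : V} (Q : M.Quad a c b d) (huv : M.E u v) (hb : v ≠ b) (hd : v ≠ d)
    {lo : ℝ} (hlo : M.Y u ≤ lo) (ha : u ≠ a ∨ M.Y u < lo) (hc : u ≠ c ∨ M.Y u < lo) {y z : ℝ}
    (h1 : lo ≤ y) (h2 : y ≤ M.Y v) (g1 : lo ≤ z) (g2 : z ≤ M.Y v) :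
    M.chi a c b d (M.F u v y) y = M.chi a c b d (M.F u v z) z := by
  have key : ∀ w, lo ≤ w → w ≤ M.Y v → M.chi a c b d (M.F u v w) w =
      (if M.Y a ≤ w then M.sig u v lo a b + M.sig u v lo a d else 0) +
      (if M.Y c ≤ w then M.sig u v lo c b + M.sig u v lo c d else 0) +
      (if M.Y b ≤ w then M.sig u v lo a b + M.sig u v lo c b else 0) +
      (if M.Y d ≤ w then M.sig u v lo a d + M.sig u v lo c d else 0) := by
    intro w hw1 hw2
    unfold chi
    rw [M.lft_eq huv Q.ab hb hlo ha hw1 hw2, M.lft_eq huv Q.ad hd hlo ha hw1 hw2,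
      M.lft_eq huv Q.cb hb hlo hc hw1 hw2, M.lft_eq huv Q.cd hd hlo hc hw1 hw2]
    split_ifs <;> ring
  have term : ∀ (w : V) (S S' : ZMod 2), (lo ≤ M.Y w → M.Y w ≤ M.Y v → S = S') →
      (if M.Y w ≤ y then S + S' else 0) = (if M.Y w ≤ z then S + S' else 0) := by
    intro w S S' hS
    by_cases hw1 : lo ≤ M.Y w
    · by_cases hw2 : M.Y w ≤ M.Y v
      · rw [hS hw1 hw2, CharTwo.add_self_eq_zero]
        simp
      · rw [if_neg, if_neg]
        · intro hh; exact hw2 (hh.trans g2)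
        · intro hh; exact hw2 (hh.trans h2)
    · push Not at hw1
      rw [if_pos (by linarith), if_pos (by linarith)]
  rw [key y h1 h2, key z g1 g2]
  have lab := M.lt _ _ Q.ab
  have lad := M.lt _ _ Q.ad
  have lcb := M.lt _ _ Q.cb
  have lcd := M.lt _ _ Q.cd
  have ta := term a (M.sig u v lo a b) (M.sig u v lo a d) (by
    intro e1 e2
    rw [M.sig_eq huv Q.ab hb hlo ha e1 e2 le_rfl lab.le, M.sig_eq huv Q.ad hd hlo ha e1 e2 le_rfl lad.le,
      M.bot _ _ Q.ab, M.bot _ _ Q.ad])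
  have tc := term c (M.sig u v lo c b) (M.sig u v lo c d) (by
    intro e1 e2
    rw [M.sig_eq huv Q.cb hb hlo hc e1 e2 le_rfl lcb.le, M.sig_eq huv Q.cd hd hlo hc e1 e2 le_rfl lcd.le,
      M.bot _ _ Q.cb, M.bot _ _ Q.cd])
  have tb := term b (M.sig u v lo a b) (M.sig u v lo c b) (by
    intro e1 e2
    rw [M.sig_eq huv Q.ab hb hlo ha e1 e2 lab.le le_rfl, M.sig_eq huv Q.cb hb hlo hc e1 e2 lcb.le le_rfl,
      M.top _ _ Q.ab, M.top _ _ Q.cb])
  have td := term d (M.sig u v lo a d) (M.sig u v lo c d) (by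
    intro e1 e2
    rw [M.sig_eq huv Q.ad hd hlo ha e1 e2 lad.le le_rfl, M.sig_eq huv Q.cd hd hlo hc e1 e2 lcd.le le_rfl,
      M.top _ _ Q.ad, M.top _ _ Q.cd])
  rw [ta, tb, tc, td]

/-- the value of `chi` at a vertex -/
noncomputable def chv (a c b d w : V) : ZMod 2 := M.chi a c b d (M.X w) (M.Y w)

/-- an edge disjoint from the 4-cycle is on one side -/
theorem chv_edge {u v a c b d : V} (Q : M.Quad a c b d) (huv : M.E u v) (ha : u ≠ a) (hc : u ≠ c)
    (hb : v ≠ b) (hd : v ≠ d) : M.chv a c b d u = M.chv a c b d v := by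
  have l := M.lt _ _ huv
  have := M.chi_const Q huv hb hd le_rfl (Or.inl ha) (Or.inl hc) le_rfl l.le l.le le_rfl
  rwa [M.bot _ _ huv, M.top _ _ huv] at this

theorem chi_edge {u v a c b d : V} (Q : M.Quad a c b d) (huv : M.E u v) (ha : u ≠ a) (hc : u ≠ c)
    (hb : v ≠ b) (hd : v ≠ d) {y : ℝ} (h1 : M.Y u ≤ y) (h2 : y ≤ M.Y v) :
    M.chi a c b d (M.F u v y) y = M.chv a c b d v := by
  have l := M.lt _ _ huv
  have := M.chi_const Q huv hb hd le_rfl (Or.inl ha) (Or.inl hc) h1 h2 l.le le_rfl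
  rwa [M.top _ _ huv] at this

/-- a point with nonzero parity has a curve of the 4-cycle to its left -/
theorem exists_left {a c b d : V} {x y : ℝ} (h : M.chi a c b d x y ≠ 0) :
    (M.Y a ≤ y ∧ y < M.Y b ∧ M.F a b y < x) ∨ (M.Y a ≤ y ∧ y < M.Y d ∧ M.F a d y < x) ∨
    (M.Y c ≤ y ∧ y < M.Y b ∧ M.F c b y < x) ∨ (M.Y c ≤ y ∧ y < M.Y d ∧ M.F c d y < x) := by
  by_contra hcon
  push Not at hcon
  obtain ⟨n1, n2, n3, n4⟩ := hcon
  apply h
  unfold chi lft
  rw [if_neg (fun hh => absurd hh.2.2 (not_lt.2 (n1 hh.1 hh.2.1))),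
    if_neg (fun hh => absurd hh.2.2 (not_lt.2 (n2 hh.1 hh.2.1))),
    if_neg (fun hh => absurd hh.2.2 (not_lt.2 (n3 hh.1 hh.2.1))),
    if_neg (fun hh => absurd hh.2.2 (not_lt.2 (n4 hh.1 hh.2.1)))]
  simp

/-- a lowest vertex is not inside a 4-cycle -/
theorem chv_low {a c b d w : V} (Q : M.Quad a c b d) (ha : M.Y w ≤ M.Y a) (hc : M.Y w ≤ M.Y c) :
    M.chv a c b d w = 0 := by
  have lab := M.lt _ _ Q.ab
  have lad := M.lt _ _ Q.ad
  have lcb := M.lt _ _ Q.cb
  have lcd := M.lt _ _ Q.cd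
  have h1 : M.lft a b (M.X w) (M.Y w) = M.lft a d (M.X w) (M.Y w) := by
    unfold lft
    by_cases h : M.Y a ≤ M.Y w
    · have he : M.Y w = M.Y a := le_antisymm ha h
      rw [he, M.bot _ _ Q.ab, M.bot _ _ Q.ad]
      simp [lab, lad]
    · rw [if_neg (fun hh => h hh.1), if_neg (fun hh => h hh.1)]
  have h2 : M.lft c b (M.X w) (M.Y w) = M.lft c d (M.X w) (M.Y w) := by
    unfold lft
    by_cases h : M.Y c ≤ M.Y w
    · have he : M.Y w = M.Y c := le_antisymm hc h
      rw [he, M.bot _ _ Q.cb, M.bot _ _ Q.cd]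
      simp [lcb, lcd]
    · rw [if_neg (fun hh => h hh.1), if_neg (fun hh => h hh.1)]
  unfold chv chi
  rw [h1, h2, CharTwo.add_self_eq_zero, zero_add, CharTwo.add_self_eq_zero]

open Classical in
/-- parity at the end of a third edge of the lowest vertex of a 4-cycle -/
theorem chv_third {x c p r q : V} (Q : M.Quad x c p r) (hq : M.E x q) (hc : c ≠ x) (hqp : q ≠ p)
    (hqr : q ≠ r) (hlow : M.Y x ≤ M.Y c) {y : ℝ} (h1 : M.Y x < y) (h2 : y ≤ M.Y q)
    (h3 : y < M.Y p) (h4 : y < M.Y r) :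
    M.chv x c p r q = (if M.F x p y < M.F x q y then 1 else 0) +
      (if M.F x r y < M.F x q y then 1 else 0) := by
  have e : M.chv x c p r q = M.chi x c p r (M.F x q y) y := by
    unfold chv
    rw [← M.top _ _ hq]
    exact (M.chi_const Q hq hqp hqr h1.le (Or.inr h1) (Or.inr h1) le_rfl h2 h2 le_rfl).symm
  have hcc : M.lft c p (M.F x q y) y = M.lft c r (M.F x q y) y := by
    have lcp := M.lt _ _ Q.cb
    have lcr := M.lt _ _ Q.cd
    unfold lft
    by_cases h : M.Y c ≤ y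
    · have hx : x ≠ c := fun hh => hc hh.symm
      have i1 := M.side_iff hq Q.cb hqp le_rfl (Or.inl hx) (y := y) (z := M.Y c) h1.le h2 h h3.le
        hlow (h.trans h2) le_rfl lcp.le
      have i2 := M.side_iff hq Q.cd hqr le_rfl (Or.inl hx) (y := y) (z := M.Y c) h1.le h2 h h4.le
        hlow (h.trans h2) le_rfl lcr.le
      rw [M.bot _ _ Q.cb] at i1
      rw [M.bot _ _ Q.cd] at i2
      have i3 : M.F c p y < M.F x q y ↔ M.F c r y < M.F x q y := i1.trans i2.symm
      simp [h3, h4, i3]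
    · rw [if_neg (fun hh => h hh.1), if_neg (fun hh => h hh.1)]
  rw [e]
  unfold chi
  rw [hcc, add_assoc, CharTwo.add_self_eq_zero, add_zero]
  unfold lft
  simp only [h1.le, h3, h4, true_and]

end MD

end Pool.Agent.H204R2
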