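import Pool.Agent.H204R2.BDefs

set_option autoImplicit false

namespace Pool.Agent.H204R2.BD

/-- abscissa of the point of height `y` on the line through `p` and `q` -/
noncomputable def lineX (p q : ℤ × ℤ) (y : ℝ) : ℝ :=
  p.1 + ((q.1 : ℝ) - p.1) * ((y - p.2) / ((q.2 : ℝ) - p.2))

/-- abscissa of the point of height `y` on the chain with first corner `p` and other corners `l` -/
noncomputable def xOf : ℤ × ℤ → List (ℤ × ℤ) → ℝ → ℝ
  | p, [] => fun _ => p.1
  | p, q :: l => fun y => if y ≤ q.2 then lineX p q y else xOf q l y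

theorem lineX_left (p q : ℤ × ℤ) : lineX p q p.2 = p.1 := by unfold lineX; simp

theorem lineX_right {p q : ℤ × ℤ} (h : p.2 < q.2) : lineX p q q.2 = q.1 := by
  unfold lineX
  have : ((q.2 : ℝ) - p.2) ≠ 0 := by
    have : (p.2 : ℝ) < q.2 := by exact_mod_cast h
    intro h0; linarith
  rw [div_self this]; ring

theorem lineX_cont (p q : ℤ × ℤ) : Continuous (lineX p q) := by
  unfold lineX
  fun_prop

/-- increasing corners -/
abbrev Inc (l : List (ℤ × ℤ)) : Prop := List.IsChain (fun p q : ℤ × ℤ => p.2 < q.2) l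

theorem xOf_start (p : ℤ × ℤ) (l : List (ℤ × ℤ)) (h : Inc (p :: l)) : xOf p l p.2 = p.1 := by
  cases l with
  | nil => rfl
  | cons q l =>
    have hpq : p.2 < q.2 := (List.isChain_cons_cons.1 h).1
    have : (p.2 : ℝ) ≤ q.2 := by exact_mod_cast hpq.le
    simp only [xOf]
    rw [if_pos this, lineX_left]

theorem xOf_cont (p : ℤ × ℤ) (l : List (ℤ × ℤ)) (h : Inc (p :: l)) : Continuous (xOf p l) := by
  induction l generalizing p with
  | nil => exact continuous_const
  | cons q l ih =>
    have h' := List.isChain_cons_cons.1 h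
    simp only [xOf]
    apply Continuous.if_le (lineX_cont p q) (ih q h'.2) continuous_id continuous_const
    intro x hx
    simp only [id] at hx
    subst hx
    rw [lineX_right h'.1, xOf_start q l h'.2]

/-- last corner -/
def lastC : ℤ × ℤ → List (ℤ × ℤ) → ℤ × ℤ
  | p, [] => p
  | _, q :: l => lastC q l

theorem lastC_append (p r : ℤ × ℤ) (l : List (ℤ × ℤ)) : lastC p (l ++ [r]) = r := by
  induction l generalizing p with
  | nil => rfl
  | cons q l ih => exact ih q

theorem le_last (p : ℤ × ℤ) (l : List (ℤ × ℤ)) (h : Inc (p :: l)) : p.2 ≤ (lastC p l).2 := by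
  induction l generalizing p with
  | nil => exact le_rfl
  | cons q l ih =>
    have h' := List.isChain_cons_cons.1 h
    exact h'.1.le.trans (ih q h'.2)

theorem xOf_last (p : ℤ × ℤ) (l : List (ℤ × ℤ)) (h : Inc (p :: l)) :
    xOf p l (lastC p l).2 = (lastC p l).1 := by
  induction l generalizing p with
  | nil => rfl
  | cons q l ih =>
    have h' := List.isChain_cons_cons.1 h
    have hl := le_last q l h'.2
    show (if ((lastC q l).2 : ℝ) ≤ q.2 then lineX p q (lastC q l).2 else xOf q l (lastC q l).2) =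
      (lastC q l).1
    by_cases hc : ((lastC q l).2 : ℝ) ≤ q.2
    · have : (lastC q l).2 = q.2 := by
        have : (lastC q l).2 ≤ q.2 := by exact_mod_cast hc
        omega
      have h1 := ih q h'.2
      rw [if_pos hc]
      rw [this, xOf_start q l h'.2] at h1
      rw [this, lineX_right h'.1, h1]
    · rw [if_neg hc]
      exact ih q h'.2

theorem lineX_mem {p q : ℤ × ℤ} (h : p.2 < q.2) {y : ℝ} (h1 : (p.2 : ℝ) ≤ y) (h2 : y ≤ q.2) :
    (lineX p q y, y) ∈ segment ℝ (toPlane p) (toPlane q) := by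
  have hpq : (p.2 : ℝ) < q.2 := by exact_mod_cast h
  have hne : ((q.2 : ℝ) - p.2) ≠ 0 := by intro h0; linarith
  rw [segment_eq_image]
  refine ⟨(y - p.2) / ((q.2 : ℝ) - p.2), ⟨?_, ?_⟩, ?_⟩
  · apply div_nonneg <;> linarith
  · rw [div_le_one (by linarith)]; linarith
  · unfold toPlane lineX
    ext
    · simp; ring
    · simp; field_simp; ring

theorem xOf_mem (p : ℤ × ℤ) (l : List (ℤ × ℤ)) (h : Inc (p :: l)) {y : ℝ} (h1 : (p.2 : ℝ) ≤ y)
    (h2 : y ≤ (lastC p l).2) : (xOf p l y, y) ∈ polyline (p :: l) := by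
  induction l generalizing p with
  | nil =>
    have : y = p.2 := le_antisymm h2 h1
    simp [xOf, polyline, toPlane, this]
  | cons q l ih =>
    have h' := List.isChain_cons_cons.1 h
    simp only [xOf, polyline]
    split_ifs with hc
    · exact Or.inl (lineX_mem h'.1 h1 hc)
    · push Not at hc
      exact Or.inr (ih q h'.2 hc.le h2)

theorem seg_eq_lineX {p q : ℤ × ℤ} (h : p.2 < q.2) {z : ℝ × ℝ}
    (hz : z ∈ segment ℝ (toPlane p) (toPlane q)) :
    z.1 = lineX p q z.2 ∧ (p.2 : ℝ) ≤ z.2 ∧ z.2 ≤ q.2 := by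
  have hpq : (p.2 : ℝ) < q.2 := by exact_mod_cast h
  have hne : ((q.2 : ℝ) - p.2) ≠ 0 := by intro h0; linarith
  rw [segment_eq_image] at hz
  obtain ⟨θ, ⟨h0, h1⟩, rfl⟩ := hz
  unfold toPlane lineX
  simp only [Prod.smul_mk, smul_eq_mul, Prod.mk_add_mk]
  refine ⟨?_, ?_, ?_⟩
  · have : ((1 - θ) * (p.2 : ℝ) + θ * q.2 - p.2) / ((q.2 : ℝ) - p.2) = θ := by
      field_simp
      ring
    rw [this]; ring
  · nlinarith
  · nlinarith

/-- a point of the chain is given by its height -/
theorem of_mem_polyline (p : ℤ × ℤ) (l : List (ℤ × ℤ)) (h : Inc (p :: l)) {z : ℝ × ℝ}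
    (hz : z ∈ polyline (p :: l)) :
    z.1 = xOf p l z.2 ∧ (p.2 : ℝ) ≤ z.2 ∧ z.2 ≤ (lastC p l).2 := by
  induction l generalizing p with
  | nil =>
    simp only [polyline, Set.mem_singleton_iff] at hz
    subst hz
    exact ⟨rfl, le_rfl, le_rfl⟩
  | cons q l ih =>
    have h' := List.isChain_cons_cons.1 h
    have hq := le_last q l h'.2
    have hqR : (q.2 : ℝ) ≤ (lastC q l).2 := by exact_mod_cast hq
    have hpq : (p.2 : ℝ) < q.2 := by exact_mod_cast h'.1
    simp only [polyline] at hz
    rcases hz with hz | hz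
    · obtain ⟨e1, e2, e3⟩ := seg_eq_lineX h'.1 hz
      refine ⟨?_, e2, e3.trans hqR⟩
      simp only [xOf]
      rw [if_pos e3, e1]
    · obtain ⟨e1, e2, e3⟩ := ih q h'.2 hz
      refine ⟨?_, hpq.le.trans e2, e3⟩
      simp only [xOf]
      split_ifs with hc
      · have : z.2 = q.2 := le_antisymm hc e2
        rw [this, xOf_start q l h'.2] at e1
        rw [this, lineX_right h'.1, e1]
      · exact e1

/-- some corner is weakly to the left of a given point of the chain -/
theorem exists_corner_le (p : ℤ × ℤ) (l : List (ℤ × ℤ)) (h : Inc (p :: l)) {y : ℝ}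
    (h1 : (p.2 : ℝ) ≤ y) (h2 : y ≤ (lastC p l).2) : ∃ c ∈ p :: l, (c.1 : ℝ) ≤ xOf p l y := by
  induction l generalizing p with
  | nil => exact ⟨p, by simp, le_rfl⟩
  | cons q l ih =>
    have h' := List.isChain_cons_cons.1 h
    simp only [xOf]
    split_ifs with hc
    · have hpq : (p.2 : ℝ) < q.2 := by exact_mod_cast h'.1
      by_cases hx : p.1 ≤ q.1
      · refine ⟨p, by simp, ?_⟩
        unfold lineX
        have hx' : (p.1 : ℝ) ≤ q.1 := by exact_mod_cast hx
        have : 0 ≤ ((q.1 : ℝ) - p.1) * ((y - p.2) / ((q.2 : ℝ) - p.2)) := by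
          apply mul_nonneg
          · linarith
          · apply div_nonneg <;> linarith
        linarith
      · refine ⟨q, by simp, ?_⟩
        unfold lineX
        push Not at hx
        have hx' : (q.1 : ℝ) < p.1 := by exact_mod_cast hx
        have ht : (y - p.2) / ((q.2 : ℝ) - p.2) ≤ 1 := by
          rw [div_le_one (by linarith)]; linarith
        nlinarith
    · push Not at hc
      obtain ⟨c, hc1, hc2⟩ := ih q h'.2 hc.le h2
      exact ⟨c, List.mem_cons_of_mem _ hc1, hc2⟩

end Pool.Agent.H204R2.BD
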