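import Pool.Agent.H306R2.RZ.Stubs

/-!
# F3: Mellin inversion (helper204)
-/

set_option autoImplicit false

namespace Pool.Agent.H204R2.RZF3

open Finset Filter Topology MeasureTheory Pool.Agent.H306R2.RZ

theorem F3 (F : ℝ → ℝ) (hF : TF F) (ξ : ℝ) (hξ : 0 < ξ) (σ0 : ℝ) (h0 : 0 < σ0) (h1 : σ0 ≤ 1) :
    (Ft F ξ : ℂ) = (1 / (2 * Real.pi) : ℂ) *
      ∫ t : ℝ, Fm F ((σ0 : ℂ) + t * Complex.I) * (ξ : ℂ) ^ (-((σ0 : ℂ) + t * Complex.I)) := by
  obtain ⟨hcd, hb⟩ := Stubs.F1 F hF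
  obtain ⟨hdiff, hdec, -⟩ := Stubs.F2 F hF
  have hcont : Continuous (fun ξ : ℝ => ((Ft F ξ : ℝ) : ℂ)) :=
    Complex.continuous_ofReal.comp hcd.continuous
  obtain ⟨C, hC⟩ := hb 0 2
  have hC0 : ∀ x : ℝ, |Ft F x| ≤ |C| / (1 + |x|) ^ 2 := by
    intro x
    have h := hC x
    rw [iteratedDeriv_zero] at h
    exact h.trans (div_le_div_of_nonneg_right (le_abs_self C) (by positivity))
  have hconv : MellinConvergent (fun ξ : ℝ => ((Ft F ξ : ℝ) : ℂ)) (σ0 : ℂ) := by
    refine mellinConvergent_of_isBigO_rpow (a := 2) (b := 0) ?_ ?_ ?_ ?_ ?_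
    · exact hcont.locallyIntegrable.locallyIntegrableOn _
    · refine Asymptotics.IsBigO.of_bound |C| ?_
      filter_upwards [eventually_gt_atTop 0] with x hx
      rw [Complex.norm_real, Real.norm_eq_abs, Real.norm_eq_abs,
        abs_of_pos (Real.rpow_pos_of_pos hx _), Real.rpow_neg hx.le]
      refine (hC0 x).trans ?_
      rw [div_eq_mul_inv]
      refine mul_le_mul_of_nonneg_left ?_ (abs_nonneg _)
      have h2 : x ^ (2 : ℝ) = x ^ 2 := by exact_mod_cast Real.rpow_natCast x 2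
      rw [h2, abs_of_pos hx]
      exact inv_anti₀ (by positivity) (pow_le_pow_left₀ hx.le (by linarith) 2)
    · rw [Complex.ofReal_re]
      linarith
    · refine Asymptotics.IsBigO.of_bound |C| ?_
      filter_upwards [self_mem_nhdsWithin] with x hx
      rw [Complex.norm_real, Real.norm_eq_abs, Real.norm_eq_abs, neg_zero, Real.rpow_zero,
        abs_one, mul_one]
      refine (hC0 x).trans ?_
      refine div_le_self (abs_nonneg _) ?_
      have h2 : (1 : ℝ) ≤ 1 + |x| := by linarith [abs_nonneg x]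
      exact one_le_pow₀ h2
    · rw [Complex.ofReal_re]
      exact h0
  have hre : ∀ t : ℝ, ((σ0 : ℂ) + t * Complex.I).re = σ0 := by
    intro t
    simp
  have him : ∀ t : ℝ, ((σ0 : ℂ) + t * Complex.I).im = t := by
    intro t
    simp
  have hvert : Complex.VerticalIntegrable (mellin (fun ξ : ℝ => ((Ft F ξ : ℝ) : ℂ))) σ0 := by
    obtain ⟨C', hC'⟩ := hdec 2
    have hopen : IsOpen {s : ℂ | 0 < s.re} := isOpen_lt continuous_const Complex.continuous_re
    have hc : Continuous (fun t : ℝ => Fm F ((σ0 : ℂ) + t * Complex.I)) := by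
      rw [continuous_iff_continuousAt]
      intro t
      have h2 : ContinuousAt (Fm F) ((σ0 : ℂ) + t * Complex.I) :=
        (hdiff.continuousOn).continuousAt (hopen.mem_nhds (by
          show 0 < ((σ0 : ℂ) + t * Complex.I).re
          rw [hre]; exact h0))
      have h3 : ContinuousAt (fun t : ℝ => (σ0 : ℂ) + t * Complex.I) t := by fun_prop
      exact ContinuousAt.comp (f := fun t : ℝ => (σ0 : ℂ) + t * Complex.I) h2 h3
    refine Integrable.mono' (integrable_inv_one_add_sq.const_mul (|C'| / σ0))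
      hc.aestronglyMeasurable (Filter.Eventually.of_forall fun t => ?_)
    have h2 := hC' ((σ0 : ℂ) + t * Complex.I) (by rw [hre]; exact h0) (by rw [hre]; exact h1)
    have h3 : σ0 ≤ ‖(σ0 : ℂ) + t * Complex.I‖ := by
      have h := Complex.abs_re_le_norm ((σ0 : ℂ) + t * Complex.I)
      rw [hre] at h
      exact (le_abs_self _).trans h
    have h4 : |t| ≤ ‖(σ0 : ℂ) + t * Complex.I‖ := by
      have h := Complex.abs_im_le_norm ((σ0 : ℂ) + t * Complex.I)
      rw [him] at h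
      exact h
    have h5 : 1 + t ^ 2 ≤ (1 + ‖(σ0 : ℂ) + t * Complex.I‖) ^ 2 := by
      have h6 : (1 + |t|) ^ 2 ≤ (1 + ‖(σ0 : ℂ) + t * Complex.I‖) ^ 2 :=
        pow_le_pow_left₀ (by positivity) (by linarith) 2
      nlinarith [abs_nonneg t, sq_abs t]
    refine h2.trans ?_
    calc C' / (‖(σ0 : ℂ) + t * Complex.I‖ * (1 + ‖(σ0 : ℂ) + t * Complex.I‖) ^ 2)
        ≤ |C'| / (‖(σ0 : ℂ) + t * Complex.I‖ * (1 + ‖(σ0 : ℂ) + t * Complex.I‖) ^ 2) :=
          div_le_div_of_nonneg_right (le_abs_self _) (by positivity)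
      _ ≤ |C'| / (σ0 * (1 + t ^ 2)) :=
          div_le_div_of_nonneg_left (abs_nonneg _) (by positivity)
            (mul_le_mul h3 h5 (by positivity) (norm_nonneg _))
      _ = |C'| / σ0 * (1 + t ^ 2)⁻¹ := by
          rw [div_mul_eq_div_div, div_eq_mul_inv (|C'| / σ0)]
  have hinv := mellinInv_mellin_eq σ0 (fun ξ : ℝ => ((Ft F ξ : ℝ) : ℂ)) hξ hconv hvert
    hcont.continuousAt
  rw [← hinv]
  unfold mellinInv
  rw [Complex.real_smul]
  push_cast
  congr 1
  refine integral_congr_ae (Filter.Eventually.of_forall fun t => ?_)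
  show (ξ : ℂ) ^ (-((σ0 : ℂ) + t * Complex.I)) • mellin (fun ξ : ℝ => ((Ft F ξ : ℝ) : ℂ))
    ((σ0 : ℂ) + t * Complex.I) = _
  rw [smul_eq_mul, mul_comm]
  rfl

end Pool.Agent.H204R2.RZF3
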