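import Pool.Agent.H204R2.BDefs

/-!
Order of the edges of an upward planar drawing from left to right.
-/

set_option autoImplicit false

namespace Pool.Agent.H204R2.BD

namespace UpwardPlanarDrawing

variable {n : ℕ} {G : BipDAG n} (D : UpwardPlanarDrawing G)

/-- the interval of heights of an edge -/
def I (e : Fin n × Fin n) : Set ℝ := Set.Icc (D.pos e.1).2 (D.pos e.2).2

/-- the curve of an edge -/
def F (e : Fin n × Fin n) (y : ℝ) : ℝ := D.curve e.1 e.2 y

/-- `e` is an edge -/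
def Ed (G : BipDAG n) (e : Fin n × Fin n) : Prop := G.Adj e.1 e.2

/-- `e` is to the left of `f` -/
def left (e f : Fin n × Fin n) : Prop := ∃ y, y ∈ D.I e ∧ y ∈ D.I f ∧ D.F e y < D.F f y

theorem eq_case {e f : Fin n × Fin n} (he : Ed G e) (hf : Ed G f) (hne : e ≠ f) {y : ℝ}
    (h1 : y ∈ D.I e) (h2 : y ∈ D.I f) (h : D.F e y = D.F f y) :
    (e.1 = f.1 ∧ y = (D.pos e.1).2) ∨ (e.2 = f.2 ∧ y = (D.pos e.2).2) := by
  obtain ⟨w, hw, hw', hp⟩ := D.noncrossing e.1 e.2 f.1 f.2 he hf (by
    intro hh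
    apply hne
    exact Prod.ext (congrArg Prod.fst hh) (congrArg Prod.snd hh)) y h1 h2 h
  obtain ⟨S, hS⟩ := G.bipartite
  have a := hS e.1 e.2 he
  have b := hS f.1 f.2 hf
  have hy : y = (D.pos w).2 := congrArg Prod.snd hp
  rcases hw with hw | hw <;> rcases hw' with hw' | hw'
  · left; exact ⟨hw.symm.trans hw', by rw [hy, hw]⟩
  · exfalso
    rw [← hw] at a
    rw [← hw'] at b
    exact b.2 a.1
  · exfalso
    rw [← hw] at a
    rw [← hw'] at b
    exact a.2 b.1
  · right; exact ⟨hw.symm.trans hw', by rw [hy, hw]⟩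

theorem le_of_left {e f : Fin n × Fin n} (he : Ed G e) (hf : Ed G f) (h : D.left e f) {z : ℝ}
    (h1 : z ∈ D.I e) (h2 : z ∈ D.I f) : D.F e z ≤ D.F f z := by
  by_contra hcon
  push Not at hcon
  obtain ⟨y, hy1, hy2, hlt⟩ := h
  have hne : e ≠ f := by
    rintro rfl
    exact lt_irrefl _ hlt
  have hsub1 : Set.uIcc y z ⊆ D.I e := Set.uIcc_subset_Icc hy1 h1
  have hsub2 : Set.uIcc y z ⊆ D.I f := Set.uIcc_subset_Icc hy2 h2
  have hc : ContinuousOn (fun w => D.F e w - D.F f w) (Set.uIcc y z) :=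
    ((D.continuous _ _ he).mono hsub1).sub ((D.continuous _ _ hf).mono hsub2)
  have himg := intermediate_value_uIcc hc
  have h0 : (0 : ℝ) ∈ Set.uIcc (D.F e y - D.F f y) (D.F e z - D.F f z) := by
    rw [Set.mem_uIcc]
    left
    constructor <;> linarith
  obtain ⟨w, hw, hw0⟩ := himg h0
  have hw0' : D.F e w = D.F f w := by
    have : D.F e w - D.F f w = 0 := hw0
    linarith
  have hwy : w ≠ y := by
    rintro rfl
    linarith
  have hwz : w ≠ z := by
    rintro rfl
    linarith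
  have hw1 := hsub1 hw
  have hw2 := hsub2 hw
  -- w is strictly between y and z
  have hbet : (y < w ∧ w < z) ∨ (z < w ∧ w < y) := by
    rcases Set.mem_uIcc.1 hw with ⟨a, b⟩ | ⟨a, b⟩
    · left; exact ⟨lt_of_le_of_ne a (Ne.symm hwy), lt_of_le_of_ne b hwz⟩
    · right; exact ⟨lt_of_le_of_ne a (Ne.symm hwz), lt_of_le_of_ne b hwy⟩
  have e1 := hy1.1
  have e2 := hy1.2
  have e3 := h1.1
  have e4 := h1.2
  rcases D.eq_case he hf hne hw1 hw2 hw0' with ⟨-, e5⟩ | ⟨-, e5⟩
  · rcases hbet with ⟨b1, b2⟩ | ⟨b1, b2⟩ <;> linarith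
  · rcases hbet with ⟨b1, b2⟩ | ⟨b1, b2⟩ <;> linarith

theorem left_asymm {e f : Fin n × Fin n} (he : Ed G e) (hf : Ed G f) (h : D.left e f) :
    ¬ D.left f e := by
  intro h'
  obtain ⟨y, hy1, hy2, hlt⟩ := h
  have := D.le_of_left hf he h' hy2 hy1
  linarith

theorem left_irrefl (e : Fin n × Fin n) : ¬ D.left e e := by
  rintro ⟨y, -, -, h⟩
  exact lt_irrefl _ h

theorem left_total {e f : Fin n × Fin n} (he : Ed G e) (hf : Ed G f) (hne : e ≠ f) {y : ℝ}
    (h1 : y ∈ D.I e) (h2 : y ∈ D.I f) : D.left e f ∨ D.left f e := by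
  rcases lt_trichotomy (D.F e y) (D.F f y) with h | h | h
  · exact Or.inl ⟨y, h1, h2, h⟩
  · have ue := D.upward _ _ he
    have uf := D.upward _ _ hf
    rcases D.eq_case he hf hne h1 h2 h with ⟨e1, e2⟩ | ⟨e1, e2⟩
    · -- common source
      obtain ⟨z, hz⟩ : ∃ z, z = min (D.pos e.2).2 (D.pos f.2).2 := ⟨_, rfl⟩
      have z1 : z ≤ (D.pos e.2).2 := hz ▸ min_le_left _ _
      have z2 : z ≤ (D.pos f.2).2 := hz ▸ min_le_right _ _
      have z3 : (D.pos e.1).2 < z := by
        rw [hz]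
        exact lt_min ue (by rw [e1]; exact uf)
      have hz1 : z ∈ D.I e := ⟨z3.le, z1⟩
      have hz2 : z ∈ D.I f := ⟨by rw [← e1]; exact z3.le, z2⟩
      rcases lt_trichotomy (D.F e z) (D.F f z) with h' | h' | h'
      · exact Or.inl ⟨z, hz1, hz2, h'⟩
      · exfalso
        rcases D.eq_case he hf hne hz1 hz2 h' with ⟨-, e4⟩ | ⟨e3, -⟩
        · linarith
        · exact hne (Prod.ext e1 e3)
      · exact Or.inr ⟨z, hz2, hz1, h'⟩
    · obtain ⟨z, hz⟩ : ∃ z, z = max (D.pos e.1).2 (D.pos f.1).2 := ⟨_, rfl⟩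
      have z1 : (D.pos e.1).2 ≤ z := hz ▸ le_max_left _ _
      have z2 : (D.pos f.1).2 ≤ z := hz ▸ le_max_right _ _
      have z3 : z < (D.pos e.2).2 := by
        rw [hz]
        exact max_lt ue (by rw [e1]; exact uf)
      have hz1 : z ∈ D.I e := ⟨z1, z3.le⟩
      have hz2 : z ∈ D.I f := ⟨z2, by rw [← e1]; exact z3.le⟩
      rcases lt_trichotomy (D.F e z) (D.F f z) with h' | h' | h'
      · exact Or.inl ⟨z, hz1, hz2, h'⟩
      · exfalso
        rcases D.eq_case he hf hne hz1 hz2 h' with ⟨e3, -⟩ | ⟨-, e4⟩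
        · exact hne (Prod.ext e3 e1)
        · linarith
      · exact Or.inr ⟨z, hz2, hz1, h'⟩
  · exact Or.inr ⟨y, h2, h1, h⟩

theorem left_trans {e f g : Fin n × Fin n} (he : Ed G e) (hf : Ed G f) (hg : Ed G g) {y : ℝ}
    (h1 : y ∈ D.I e) (h2 : y ∈ D.I f) (h3 : y ∈ D.I g) (hef : D.left e f) (hfg : D.left f g) :
    D.left e g := by
  have l1 := D.le_of_left he hf hef h1 h2
  have l2 := D.le_of_left hf hg hfg h2 h3
  have ne1 : e ≠ f := by rintro rfl; exact D.left_irrefl _ hef
  have ne2 : f ≠ g := by rintro rfl; exact D.left_irrefl _ hfg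
  by_cases hlt : D.F e y < D.F g y
  · exact ⟨y, h1, h3, hlt⟩
  · push Not at hlt
    have q1 : D.F e y = D.F f y := le_antisymm l1 (l2.trans hlt)
    have q2 : D.F f y = D.F g y := le_antisymm l2 (hlt.trans l1)
    have ue := D.upward _ _ he
    have uf := D.upward _ _ hf
    have ug := D.upward _ _ hg
    rcases D.eq_case he hf ne1 h1 h2 q1 with ⟨a1, a2⟩ | ⟨a1, a2⟩
    · rcases D.eq_case hf hg ne2 h2 h3 q2 with ⟨b1, b2⟩ | ⟨b1, b2⟩
      · obtain ⟨z, hz⟩ : ∃ z, z = min (D.pos e.2).2 (min (D.pos f.2).2 (D.pos g.2).2) := ⟨_, rfl⟩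
        have z1 : z ≤ (D.pos e.2).2 := hz ▸ min_le_left _ _
        have z2 : z ≤ (D.pos f.2).2 := hz ▸ (min_le_right _ _).trans (min_le_left _ _)
        have z3 : z ≤ (D.pos g.2).2 := hz ▸ (min_le_right _ _).trans (min_le_right _ _)
        have z4 : (D.pos e.1).2 < z := by
          rw [hz]
          exact lt_min ue (lt_min (by rw [a1]; exact uf) (by rw [a1, b1]; exact ug))
        have hz1 : z ∈ D.I e := ⟨z4.le, z1⟩
        have hz2 : z ∈ D.I f := ⟨by rw [← a1]; exact z4.le, z2⟩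
        have hz3 : z ∈ D.I g := ⟨by rw [← b1, ← a1]; exact z4.le, z3⟩
        refine ⟨z, hz1, hz3, ?_⟩
        have m1 := D.le_of_left he hf hef hz1 hz2
        have m2 := D.le_of_left hf hg hfg hz2 hz3
        rcases lt_or_eq_of_le m1 with m1 | m1
        · exact lt_of_lt_of_le m1 m2
        · exfalso
          rcases D.eq_case he hf ne1 hz1 hz2 m1 with ⟨-, c2⟩ | ⟨c1, -⟩
          · linarith
          · exact ne1 (Prod.ext a1 c1)
      · exfalso
        rw [a1] at a2
        linarith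
    · rcases D.eq_case hf hg ne2 h2 h3 q2 with ⟨b1, b2⟩ | ⟨b1, b2⟩
      · exfalso
        rw [a1] at a2
        linarith
      · obtain ⟨z, hz⟩ : ∃ z, z = max (D.pos e.1).2 (max (D.pos f.1).2 (D.pos g.1).2) := ⟨_, rfl⟩
        have z1 : (D.pos e.1).2 ≤ z := hz ▸ le_max_left _ _
        have z2 : (D.pos f.1).2 ≤ z := hz ▸ (le_max_left _ _).trans (le_max_right _ _)
        have z3 : (D.pos g.1).2 ≤ z := hz ▸ (le_max_right _ _).trans (le_max_right _ _)
        have z4 : z < (D.pos e.2).2 := by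
          rw [hz]
          exact max_lt ue (max_lt (by rw [a1]; exact uf) (by rw [a1, b1]; exact ug))
        have hz1 : z ∈ D.I e := ⟨z1, z4.le⟩
        have hz2 : z ∈ D.I f := ⟨z2, by rw [← a1]; exact z4.le⟩
        have hz3 : z ∈ D.I g := ⟨z3, by rw [← b1, ← a1]; exact z4.le⟩
        refine ⟨z, hz1, hz3, ?_⟩
        have m1 := D.le_of_left he hf hef hz1 hz2
        have m2 := D.le_of_left hf hg hfg hz2 hz3
        rcases lt_or_eq_of_le m1 with m1 | m1
        · exact lt_of_lt_of_le m1 m2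
        · exfalso
          rcases D.eq_case he hf ne1 hz1 hz2 m1 with ⟨c1, -⟩ | ⟨-, c2⟩
          · exact ne1 (Prod.ext c1 a1)
          · linarith

/-- lexicographic order of the vertices: first by height, then from left to right -/
def lx (v w : Fin n) : Prop :=
  (D.pos v).2 < (D.pos w).2 ∨ ((D.pos v).2 = (D.pos w).2 ∧ (D.pos v).1 < (D.pos w).1)

theorem lx_irrefl (v : Fin n) : ¬ D.lx v v := by
  rintro (h | ⟨-, h⟩) <;> exact lt_irrefl _ h

theorem lx_trans {u v w : Fin n} (h : D.lx u v) (h' : D.lx v w) : D.lx u w := by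
  rcases h with h | ⟨h1, h2⟩ <;> rcases h' with h' | ⟨h3, h4⟩
  · exact Or.inl (h.trans h')
  · exact Or.inl (h3 ▸ h)
  · exact Or.inl (h1 ▸ h')
  · exact Or.inr ⟨h1.trans h3, h2.trans h4⟩

theorem lx_total {v w : Fin n} (h : v ≠ w) : D.lx v w ∨ D.lx w v := by
  unfold lx
  rcases lt_trichotomy (D.pos v).2 (D.pos w).2 with h1 | h1 | h1
  · exact Or.inl (Or.inl h1)
  · rcases lt_trichotomy (D.pos v).1 (D.pos w).1 with h2 | h2 | h2
    · exact Or.inl (Or.inr ⟨h1, h2⟩)
    · exact absurd (D.pos_inj (Prod.ext h2 h1)) h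
    · exact Or.inr (Or.inr ⟨h1.symm, h2⟩)
  · exact Or.inr (Or.inl h1)

theorem lx_of_edge {e : Fin n × Fin n} (he : Ed G e) : D.lx e.1 e.2 := Or.inl (D.upward _ _ he)

/-- the edge `e` passes the level of `w` -/
def alive (w : Fin n) (e : Fin n × Fin n) : Prop := Ed G e ∧ D.lx e.1 w ∧ D.lx w e.2

/-- the edge `e` passes or touches the level of `w` -/
def present (w : Fin n) (e : Fin n × Fin n) : Prop :=
  Ed G e ∧ (e.1 = w ∨ D.lx e.1 w) ∧ (e.2 = w ∨ D.lx w e.2)

theorem le_of_lx {v w : Fin n} (h : D.lx v w) : (D.pos v).2 ≤ (D.pos w).2 := by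
  rcases h with h | ⟨h, -⟩
  · exact h.le
  · exact h.le

theorem present_mem {w : Fin n} {e : Fin n × Fin n} (h : D.present w e) : (D.pos w).2 ∈ D.I e := by
  obtain ⟨he, h1, h2⟩ := h
  constructor
  · rcases h1 with rfl | h1
    · exact le_rfl
    · exact D.le_of_lx h1
  · rcases h2 with rfl | h2
    · exact le_rfl
    · exact D.le_of_lx h2

theorem alive_present {w : Fin n} {e : Fin n × Fin n} (h : D.alive w e) : D.present w e :=
  ⟨h.1, Or.inr h.2.1, Or.inr h.2.2⟩

theorem alive_ne {w : Fin n} {e : Fin n × Fin n} (h : D.alive w e) :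
    D.F e (D.pos w).2 ≠ (D.pos w).1 := by
  intro hh
  rcases D.vertex_free e.1 e.2 w h.1 (D.present_mem (D.alive_present h)) hh with h1 | h1
  · apply D.lx_irrefl w
    have := h.2.1
    rwa [← h1] at this
  · apply D.lx_irrefl w
    have := h.2.2
    rwa [← h1] at this

open Classical in
/-- number of edges to the left of the vertex `w` on its level -/
noncomputable def rv (w : Fin n) : ℕ :=
  (Finset.univ.filter (fun f => D.alive w f ∧ D.F f (D.pos w).2 < (D.pos w).1)).card

open Classical in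
/-- number of edges and vertices to the left of the edge `e` on the level of `w` -/
noncomputable def re (w : Fin n) (e : Fin n × Fin n) : ℕ :=
  (Finset.univ.filter (fun f => D.alive w f ∧ D.left f e)).card +
    (if (D.pos w).1 < D.F e (D.pos w).2 then 1 else 0)

theorem re_lt_re {w : Fin n} {e f : Fin n × Fin n} (he : D.alive w e) (hf : D.alive w f)
    (h : D.left e f) : D.re w e < D.re w f := by
  classical
  have me := D.present_mem (D.alive_present he)
  have mf := D.present_mem (D.alive_present hf)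
  unfold re
  apply Nat.add_lt_add_of_lt_of_le
  · apply Finset.card_lt_card
    rw [Finset.ssubset_iff_of_subset]
    · refine ⟨e, ?_, ?_⟩
      · simp [he, h]
      · simp [D.left_irrefl]
    · intro g hg
      simp only [Finset.mem_filter, Finset.mem_univ, true_and] at hg ⊢
      exact ⟨hg.1, D.left_trans hg.1.1 he.1 hf.1 (D.present_mem (D.alive_present hg.1)) me mf hg.2 h⟩
  · have := D.le_of_left he.1 hf.1 h me mf
    split_ifs with h1 h2
    · exact le_rfl
    · exact absurd (lt_of_lt_of_le h1 this) h2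
    · exact Nat.zero_le _
    · exact le_rfl

theorem re_lt_rv {w : Fin n} {e : Fin n × Fin n} (he : D.alive w e)
    (h : D.F e (D.pos w).2 < (D.pos w).1) : D.re w e < D.rv w := by
  classical
  have me := D.present_mem (D.alive_present he)
  unfold re rv
  rw [if_neg (not_lt.2 h.le), add_zero]
  apply Finset.card_lt_card
  rw [Finset.ssubset_iff_of_subset]
  · refine ⟨e, ?_, ?_⟩
    · simp [he, h]
    · simp [D.left_irrefl]
  · intro g hg
    simp only [Finset.mem_filter, Finset.mem_univ, true_and] at hg ⊢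
    exact ⟨hg.1, lt_of_le_of_lt
      (D.le_of_left hg.1.1 he.1 hg.2 (D.present_mem (D.alive_present hg.1)) me) h⟩

theorem rv_lt_re {w : Fin n} {e : Fin n × Fin n} (he : D.alive w e)
    (h : (D.pos w).1 < D.F e (D.pos w).2) : D.rv w < D.re w e := by
  classical
  have me := D.present_mem (D.alive_present he)
  unfold re rv
  rw [if_pos h]
  apply Nat.lt_succ_of_le
  apply Finset.card_le_card
  intro g hg
  simp only [Finset.mem_filter, Finset.mem_univ, true_and] at hg ⊢
  exact ⟨hg.1, (D.pos w).2, D.present_mem (D.alive_present hg.1), me, hg.2.trans h⟩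

open Classical in
/-- new abscissa of the edge `e` on the level of `w` -/
noncomputable def xc (w : Fin n) (e : Fin n × Fin n) : ℕ :=
  if e.1 = w ∨ e.2 = w then D.rv w else D.re w e

theorem F_end {w : Fin n} {e : Fin n × Fin n} (he : Ed G e) (h : e.1 = w ∨ e.2 = w) :
    D.F e (D.pos w).2 = (D.pos w).1 := by
  rcases h with rfl | rfl
  · exact D.start _ _ he
  · exact D.stop _ _ he

theorem alive_of_present {w : Fin n} {e : Fin n × Fin n} (h : D.present w e)
    (h' : ¬ (e.1 = w ∨ e.2 = w)) : D.alive w e := by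
  push Not at h'
  obtain ⟨he, h1, h2⟩ := h
  exact ⟨he, h1.resolve_left h'.1, h2.resolve_left h'.2⟩

theorem xc_le {w : Fin n} {e f : Fin n × Fin n} (he : D.present w e) (hf : D.present w f)
    (h : D.left e f) : D.xc w e < D.xc w f ∨
      (D.xc w e = D.xc w f ∧ (e.1 = w ∨ e.2 = w) ∧ (f.1 = w ∨ f.2 = w)) := by
  have hle := D.le_of_left he.1 hf.1 h (D.present_mem he) (D.present_mem hf)
  unfold xc
  by_cases h1 : e.1 = w ∨ e.2 = w
  · by_cases h2 : f.1 = w ∨ f.2 = w
    · right
      rw [if_pos h1, if_pos h2]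
      exact ⟨rfl, h1, h2⟩
    · left
      rw [if_pos h1, if_neg h2]
      have ha := D.alive_of_present hf h2
      apply D.rv_lt_re ha
      rw [D.F_end he.1 h1] at hle
      exact lt_of_le_of_ne hle (Ne.symm (D.alive_ne ha))
  · left
    have ha := D.alive_of_present he h1
    by_cases h2 : f.1 = w ∨ f.2 = w
    · rw [if_neg h1, if_pos h2]
      apply D.re_lt_rv ha
      rw [D.F_end hf.1 h2] at hle
      exact lt_of_le_of_ne hle (D.alive_ne ha)
    · rw [if_neg h1, if_neg h2]
      exact D.re_lt_re ha (D.alive_of_present hf h2) h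

/-- a vertex is not on an edge passing its level -/
theorem rv_ne_xc {w : Fin n} {e : Fin n × Fin n} (he : D.alive w e) : D.xc w e ≠ D.rv w := by
  have h1 : ¬ (e.1 = w ∨ e.2 = w) := by
    rintro (h | h)
    · apply D.lx_irrefl w
      have := he.2.1
      rwa [h] at this
    · apply D.lx_irrefl w
      have := he.2.2
      rwa [h] at this
  unfold xc
  rw [if_neg h1]
  rcases lt_or_gt_of_ne (D.alive_ne he) with h | h
  · exact (D.re_lt_rv he h).ne
  · exact (D.rv_lt_re he h).ne'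

end UpwardPlanarDrawing

end Pool.Agent.H204R2.BD
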