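import Pool.Agent.H204R2.Upper1

/-!
A level of an upward planar drawing of a bipartite DAG is passed by at most `4 n + 1` edges.
-/

set_option autoImplicit false

namespace Pool.Agent.H204R2.BD

namespace UpwardPlanarDrawing

variable {n : ℕ} {G : BipDAG n} (D : UpwardPlanarDrawing G)

theorem no_abab_src {w : Fin n} {e1 e2 e3 e4 : Fin n × Fin n} (h1 : D.alive w e1) (h2 : D.alive w e2)
    (h3 : D.alive w e3) (h4 : D.alive w e4) (l12 : D.left e1 e2) (l23 : D.left e2 e3)
    (l34 : D.left e3 e4) (h13 : e1.1 = e3.1) (h24 : e2.1 = e4.1) (hne : e1.1 ≠ e2.1) : False := by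
  have m1 := D.present_mem (D.alive_present h1)
  have m2 := D.present_mem (D.alive_present h2)
  have m3 := D.present_mem (D.alive_present h3)
  have m4 := D.present_mem (D.alive_present h4)
  have u1 := D.upward _ _ h1.1
  have u2 := D.upward _ _ h2.1
  have n12 : e1 ≠ e2 := by rintro rfl; exact hne rfl
  have n23 : e2 ≠ e3 := by rintro rfl; exact hne h13
  rcases le_total (D.pos e2.1).2 (D.pos e1.1).2 with hle | hle
  · have i1 : (D.pos e1.1).2 ∈ D.I e1 := ⟨le_rfl, m1.1.trans m1.2⟩
    have i2 : (D.pos e1.1).2 ∈ D.I e2 := ⟨hle, m1.1.trans m2.2⟩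
    have i3 : (D.pos e1.1).2 ∈ D.I e3 := ⟨by rw [h13], m1.1.trans m3.2⟩
    have a := D.le_of_left h1.1 h2.1 l12 i1 i2
    have b := D.le_of_left h2.1 h3.1 l23 i2 i3
    have s1 : D.F e1 (D.pos e1.1).2 = (D.pos e1.1).1 := D.start _ _ h1.1
    have s3 : D.F e3 (D.pos e1.1).2 = (D.pos e1.1).1 := by rw [h13]; exact D.start _ _ h3.1
    have he : D.F e1 (D.pos e1.1).2 = D.F e2 (D.pos e1.1).2 := by
      apply le_antisymm a
      rw [s1]
      rw [s3] at b
      exact b
    rcases D.eq_case h1.1 h2.1 n12 i1 i2 he with ⟨c, -⟩ | ⟨-, c⟩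
    · exact hne c
    · linarith
  · have i2 : (D.pos e2.1).2 ∈ D.I e2 := ⟨le_rfl, m2.1.trans m2.2⟩
    have i3 : (D.pos e2.1).2 ∈ D.I e3 := ⟨by rw [← h13]; exact hle, m2.1.trans m3.2⟩
    have i4 : (D.pos e2.1).2 ∈ D.I e4 := ⟨by rw [h24], m2.1.trans m4.2⟩
    have a := D.le_of_left h2.1 h3.1 l23 i2 i3
    have b := D.le_of_left h3.1 h4.1 l34 i3 i4
    have s2 : D.F e2 (D.pos e2.1).2 = (D.pos e2.1).1 := D.start _ _ h2.1
    have s4 : D.F e4 (D.pos e2.1).2 = (D.pos e2.1).1 := by rw [h24]; exact D.start _ _ h4.1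
    have he : D.F e2 (D.pos e2.1).2 = D.F e3 (D.pos e2.1).2 := by
      apply le_antisymm a
      rw [s2]
      rw [s4] at b
      exact b
    rcases D.eq_case h2.1 h3.1 n23 i2 i3 he with ⟨c, -⟩ | ⟨-, c⟩
    · exact hne (h13.trans c.symm)
    · linarith

theorem no_abab_snk {w : Fin n} {e1 e2 e3 e4 : Fin n × Fin n} (h1 : D.alive w e1) (h2 : D.alive w e2)
    (h3 : D.alive w e3) (h4 : D.alive w e4) (l12 : D.left e1 e2) (l23 : D.left e2 e3)
    (l34 : D.left e3 e4) (h13 : e1.2 = e3.2) (h24 : e2.2 = e4.2) (hne : e1.2 ≠ e2.2) : False := by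
  have m1 := D.present_mem (D.alive_present h1)
  have m2 := D.present_mem (D.alive_present h2)
  have m3 := D.present_mem (D.alive_present h3)
  have m4 := D.present_mem (D.alive_present h4)
  have u1 := D.upward _ _ h1.1
  have u2 := D.upward _ _ h2.1
  have n12 : e1 ≠ e2 := by rintro rfl; exact hne rfl
  have n23 : e2 ≠ e3 := by rintro rfl; exact hne h13
  rcases le_total (D.pos e1.2).2 (D.pos e2.2).2 with hle | hle
  · have i1 : (D.pos e1.2).2 ∈ D.I e1 := ⟨m1.1.trans m1.2, le_rfl⟩
    have i2 : (D.pos e1.2).2 ∈ D.I e2 := ⟨m2.1.trans m1.2, hle⟩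
    have i3 : (D.pos e1.2).2 ∈ D.I e3 := ⟨m3.1.trans m1.2, by rw [h13]⟩
    have a := D.le_of_left h1.1 h2.1 l12 i1 i2
    have b := D.le_of_left h2.1 h3.1 l23 i2 i3
    have s1 : D.F e1 (D.pos e1.2).2 = (D.pos e1.2).1 := D.stop _ _ h1.1
    have s3 : D.F e3 (D.pos e1.2).2 = (D.pos e1.2).1 := by rw [h13]; exact D.stop _ _ h3.1
    have he : D.F e1 (D.pos e1.2).2 = D.F e2 (D.pos e1.2).2 := by
      apply le_antisymm a
      rw [s1]
      rw [s3] at b
      exact b
    rcases D.eq_case h1.1 h2.1 n12 i1 i2 he with ⟨-, c⟩ | ⟨c, -⟩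
    · linarith
    · exact hne c
  · have i2 : (D.pos e2.2).2 ∈ D.I e2 := ⟨m2.1.trans m2.2, le_rfl⟩
    have i3 : (D.pos e2.2).2 ∈ D.I e3 := ⟨m3.1.trans m2.2, by rw [← h13]; exact hle⟩
    have i4 : (D.pos e2.2).2 ∈ D.I e4 := ⟨m4.1.trans m2.2, by rw [h24]⟩
    have a := D.le_of_left h2.1 h3.1 l23 i2 i3
    have b := D.le_of_left h3.1 h4.1 l34 i3 i4
    have s2 : D.F e2 (D.pos e2.2).2 = (D.pos e2.2).1 := D.stop _ _ h2.1
    have s4 : D.F e4 (D.pos e2.2).2 = (D.pos e2.2).1 := by rw [h24]; exact D.stop _ _ h4.1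
    have he : D.F e2 (D.pos e2.2).2 = D.F e3 (D.pos e2.2).2 := by
      apply le_antisymm a
      rw [s2]
      rw [s4] at b
      exact b
    rcases D.eq_case h2.1 h3.1 n23 i2 i3 he with ⟨-, c⟩ | ⟨c, -⟩
    · linarith
    · exact hne (h13.trans c.symm)

/-- `e'` is the edge immediately to the left of `e` on the level of `w` -/
def pred (w : Fin n) (e' e : Fin n × Fin n) : Prop :=
  D.alive w e' ∧ D.alive w e ∧ D.left e' e ∧ ∀ g, D.alive w g → D.left e' g → ¬ D.left g e

theorem alive_total {w : Fin n} {e f : Fin n × Fin n} (he : D.alive w e) (hf : D.alive w f)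
    (hne : e ≠ f) : D.left e f ∨ D.left f e :=
  D.left_total he.1 hf.1 hne (D.present_mem (D.alive_present he)) (D.present_mem (D.alive_present hf))

theorem exists_pred {w : Fin n} {e f : Fin n × Fin n} (he : D.alive w e) (hf : D.alive w f)
    (h : D.left f e) : ∃ e', D.pred w e' e := by
  classical
  let S := Finset.univ.filter (fun g => D.alive w g ∧ D.left g e)
  have hS : S.Nonempty := ⟨f, by simp [S, hf, h]⟩
  obtain ⟨e', he', hmax⟩ := S.exists_max_image (fun g => D.re w g) hS
  have he'' : D.alive w e' ∧ D.left e' e := by simpa [S] using he'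
  refine ⟨e', he''.1, he, he''.2, ?_⟩
  intro g hg h1 h2
  have h3 := hmax g (by simp [S, hg, h2])
  have h4 := D.re_lt_re he''.1 hg h1
  omega

theorem pred_inj {w : Fin n} {e' e1 e2 : Fin n × Fin n} (h1 : D.pred w e' e1)
    (h2 : D.pred w e' e2) : e1 = e2 := by
  by_contra hne
  rcases D.alive_total h1.2.1 h2.2.1 hne with h | h
  · exact h2.2.2.2 e1 h1.2.1 h1.2.2.1 h
  · exact h1.2.2.2 e2 h2.2.1 h2.2.2.1 h

/-- leftmost among the edges with the same source -/
def A1 (w : Fin n) (e : Fin n × Fin n) : Prop :=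
  D.alive w e ∧ ∀ f, D.alive w f → f.1 = e.1 → ¬ D.left f e
/-- rightmost among the edges with the same source -/
def A2 (w : Fin n) (e : Fin n × Fin n) : Prop :=
  D.alive w e ∧ ∀ f, D.alive w f → f.1 = e.1 → ¬ D.left e f
/-- leftmost among the edges with the same sink -/
def A3 (w : Fin n) (e : Fin n × Fin n) : Prop :=
  D.alive w e ∧ ∀ f, D.alive w f → f.2 = e.2 → ¬ D.left f e
/-- rightmost among the edges with the same sink -/
def A4 (w : Fin n) (e : Fin n × Fin n) : Prop :=
  D.alive w e ∧ ∀ f, D.alive w f → f.2 = e.2 → ¬ D.left e f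

theorem A1_inj {w : Fin n} {e f : Fin n × Fin n} (he : D.A1 w e) (hf : D.A1 w f) (h : e.1 = f.1) :
    e = f := by
  by_contra hne
  rcases D.alive_total he.1 hf.1 hne with h' | h'
  · exact hf.2 e he.1 h h'
  · exact he.2 f hf.1 h.symm h'

theorem A2_inj {w : Fin n} {e f : Fin n × Fin n} (he : D.A2 w e) (hf : D.A2 w f) (h : e.1 = f.1) :
    e = f := by
  by_contra hne
  rcases D.alive_total he.1 hf.1 hne with h' | h'
  · exact he.2 f hf.1 h.symm h'
  · exact hf.2 e he.1 h h'

theorem A3_inj {w : Fin n} {e f : Fin n × Fin n} (he : D.A3 w e) (hf : D.A3 w f) (h : e.2 = f.2) :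
    e = f := by
  by_contra hne
  rcases D.alive_total he.1 hf.1 hne with h' | h'
  · exact hf.2 e he.1 h h'
  · exact he.2 f hf.1 h.symm h'

theorem A4_inj {w : Fin n} {e f : Fin n × Fin n} (he : D.A4 w e) (hf : D.A4 w f) (h : e.2 = f.2) :
    e = f := by
  by_contra hne
  rcases D.alive_total he.1 hf.1 hne with h' | h'
  · exact he.2 f hf.1 h.symm h'
  · exact hf.2 e he.1 h h'

theorem pred_cases {w : Fin n} {e' e : Fin n × Fin n} (h : D.pred w e' e) :
    D.A1 w e ∨ D.A3 w e ∨ D.A2 w e' ∨ D.A4 w e' := by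
  obtain ⟨h1, h2, h3, h4⟩ := h
  by_contra hcon
  push Not at hcon
  obtain ⟨n1, n3, n2, n4⟩ := hcon
  unfold A1 at n1
  unfold A2 at n2
  unfold A3 at n3
  unfold A4 at n4
  push Not at n1 n2 n3 n4
  by_cases hs : e'.1 = e.1
  · have ht : e'.2 ≠ e.2 := by
      intro ht
      have : e' = e := Prod.ext hs ht
      rw [this] at h3
      exact D.left_irrefl _ h3
    obtain ⟨f, hf, hf1, hf2⟩ := n3 h2
    obtain ⟨g, hg, hg1, hg2⟩ := n4 h1
    have hfe : f ≠ e' := by
      rintro rfl
      exact ht hf1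
    have hge : g ≠ e := by
      rintro rfl
      exact ht hg1.symm
    have l1 : D.left f e' := by
      rcases D.alive_total hf h1 hfe with h | h
      · exact h
      · exact absurd hf2 (h4 f hf h)
    have l2 : D.left e g := by
      rcases D.alive_total hg h2 hge with h | h
      · exact absurd h (h4 g hg hg2)
      · exact h
    exact D.no_abab_snk hf h1 h2 hg l1 h3 l2 hf1 hg1.symm (by rw [hf1]; exact ht.symm)
  · obtain ⟨f, hf, hf1, hf2⟩ := n1 h2
    obtain ⟨g, hg, hg1, hg2⟩ := n2 h1
    have hfe : f ≠ e' := by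
      rintro rfl
      exact hs hf1
    have hge : g ≠ e := by
      rintro rfl
      exact hs hg1.symm
    have l1 : D.left f e' := by
      rcases D.alive_total hf h1 hfe with h | h
      · exact h
      · exact absurd hf2 (h4 f hf h)
    have l2 : D.left e g := by
      rcases D.alive_total hg h2 hge with h | h
      · exact absurd h (h4 g hg hg2)
      · exact h
    exact D.no_abab_src hf h1 h2 hg l1 h3 l2 hf1 hg1.symm (by rw [hf1]; exact Ne.symm hs)

open Classical in
/-- the set of the edges passing the level of `w` -/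
noncomputable def A (w : Fin n) : Finset (Fin n × Fin n) := Finset.univ.filter (fun e => D.alive w e)

open Classical in
/-- code of an edge -/
noncomputable def code (w : Fin n) (e : Fin n × Fin n) : Option (Fin n × Fin 4) :=
  if D.A1 w e then some (e.1, 0)
  else if D.A3 w e then some (e.2, 1)
  else if h : ∃ e', D.pred w e' e ∧ D.A2 w e' then some (h.choose.1, 2)
  else if h : ∃ e', D.pred w e' e ∧ D.A4 w e' then some (h.choose.2, 3)
  else none

theorem code_inj {w : Fin n} {e f : Fin n × Fin n} (he : D.alive w e) (hf : D.alive w f)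
    (h : D.code w e = D.code w f) : e = f := by
  classical
  unfold code at h
  have first : ∀ e, D.alive w e → ¬ D.A1 w e → ¬ D.A3 w e → (¬ ∃ e', D.pred w e' e ∧ D.A2 w e') →
      (¬ ∃ e', D.pred w e' e ∧ D.A4 w e') → ∀ f, D.alive w f → ¬ D.left f e := by
    intro e he n1 n3 n2 n4 f hf hl
    obtain ⟨e', hp⟩ := D.exists_pred he hf hl
    rcases D.pred_cases hp with h | h | h | h
    · exact n1 h
    · exact n3 h
    · exact n2 ⟨e', hp, h⟩
    · exact n4 ⟨e', hp, h⟩
  split_ifs at h with a1 b1 b2 b3 b4 a2 c1 c2 c3 c4 a3 d1 d2 d3 d4 a4 g1 g2 g3 g4 k1 k2 k3 k4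
  all_goals first
    | (simp only [Option.some.injEq, Prod.mk.injEq, reduceCtorEq] at h; done)
    | skip
  · exact D.A1_inj a1 b1 (by simpa using h)
  · exfalso; revert h; simp
  · exfalso; revert h; simp
  · exfalso; revert h; simp
  · exfalso; revert h; simp
  · exact D.A3_inj a2 c2 (by simpa using h)
  · exfalso; revert h; simp
  · exfalso; revert h; simp
  · exfalso; revert h; simp
  · exfalso; revert h; simp
  · have h' : a3.choose.1 = d3.choose.1 := by simpa using h
    have e1 := D.A2_inj a3.choose_spec.2 d3.choose_spec.2 h'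
    have p1 := a3.choose_spec.1
    have p2 := d3.choose_spec.1
    rw [← e1] at p2
    exact D.pred_inj p1 p2
  · exfalso; revert h; simp
  · exfalso; revert h; simp
  · exfalso; revert h; simp
  · exfalso; revert h; simp
  · have h' : a4.choose.2 = g4.choose.2 := by simpa using h
    have e1 := D.A4_inj a4.choose_spec.2 g4.choose_spec.2 h'
    have p1 := a4.choose_spec.1
    have p2 := g4.choose_spec.1
    rw [← e1] at p2
    exact D.pred_inj p1 p2
  · by_contra hne
    rcases D.alive_total he hf hne with h' | h'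
    · exact first f hf k1 k2 k3 k4 e he h'
    · exact first e he a1 a2 a3 a4 f hf h'

theorem card_A (w : Fin n) : (D.A w).card ≤ 4 * n + 1 := by
  classical
  have h : (D.A w).card ≤ (Finset.univ : Finset (Option (Fin n × Fin 4))).card := by
    apply Finset.card_le_card_of_injOn (D.code w)
    · intro e _
      exact Finset.mem_coe.2 (Finset.mem_univ _)
    · intro e he f hf hh
      apply D.code_inj _ _ hh
      · simpa [A] using he
      · simpa [A] using hf
  have h2 : (Finset.univ : Finset (Option (Fin n × Fin 4))).card = 4 * n + 1 := by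
    rw [Finset.card_univ, Fintype.card_option, Fintype.card_prod, Fintype.card_fin, Fintype.card_fin]
    ring
  omega

theorem rv_le (w : Fin n) : D.rv w ≤ 4 * n + 1 := by
  classical
  refine le_trans ?_ (D.card_A w)
  unfold rv A
  apply Finset.card_le_card
  intro f hf
  simp only [Finset.mem_filter, Finset.mem_univ, true_and] at hf ⊢
  exact hf.1

theorem re_le (w : Fin n) (e : Fin n × Fin n) : D.re w e ≤ 4 * n + 2 := by
  classical
  have h1 : (Finset.univ.filter (fun f => D.alive w f ∧ D.left f e)).card ≤ 4 * n + 1 := by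
    refine le_trans ?_ (D.card_A w)
    unfold A
    apply Finset.card_le_card
    intro f hf
    simp only [Finset.mem_filter, Finset.mem_univ, true_and] at hf ⊢
    exact hf.1
  unfold re
  split_ifs <;> omega

theorem xc_le_bound (w : Fin n) (e : Fin n × Fin n) : D.xc w e ≤ 4 * n + 2 := by
  unfold xc
  have h1 := D.rv_le w
  have h2 := D.re_le w e
  split_ifs <;> omega

end UpwardPlanarDrawing

end Pool.Agent.H204R2.BD
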