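import Pool.Agent.H204R2.Upper2

/-!
Every bipartite DAG with an upward planar drawing has a poly-line upward planar grid drawing in a
box of width `4 n + 2` and height `n`.
-/

set_option autoImplicit false

namespace Pool.Agent.H204R2.BD

theorem seg_level {x x' : ℤ} {a : ℕ} {z : ℝ × ℝ}
    (hz : z ∈ segment ℝ (toPlane (x, (a : ℤ))) (toPlane (x', ((a + 1 : ℕ) : ℤ)))) :
    (a : ℝ) ≤ z.2 ∧ z.2 ≤ a + 1 ∧ z.1 = x + ((x' : ℝ) - x) * (z.2 - a) := by
  rw [segment_eq_image] at hz
  obtain ⟨θ, ⟨h0, h1⟩, rfl⟩ := hz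
  unfold toPlane
  simp only [Prod.smul_mk, smul_eq_mul, Prod.mk_add_mk]
  push_cast
  refine ⟨?_, ?_, ?_⟩
  · nlinarith
  · nlinarith
  · ring

theorem mem_level_polyline (X : ℕ → ℤ) (k : ℕ) : ∀ (a : ℕ) {z : ℝ × ℝ},
    z ∈ polyline ((List.range' a (k + 2)).map (fun i => (X i, (i : ℤ)))) →
    ∃ i, a ≤ i ∧ i ≤ a + k ∧ (i : ℝ) ≤ z.2 ∧ z.2 ≤ i + 1 ∧
      z.1 = X i + ((X (i + 1) : ℝ) - X i) * (z.2 - i) := by
  induction k with
  | zero =>
    intro a z hz
    simp only [List.range', List.map_cons, List.map_nil, polyline] at hz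
    have hz' : z ∈ segment ℝ (toPlane (X a, (a : ℤ))) (toPlane (X (a + 1), ((a + 1 : ℕ) : ℤ))) := by
      rcases hz with hz | hz
      · exact hz
      · rw [Set.mem_singleton_iff] at hz
        rw [hz]
        exact right_mem_segment ℝ _ _
    obtain ⟨h1, h2, h3⟩ := seg_level hz'
    exact ⟨a, le_rfl, le_rfl, h1, h2, h3⟩
  | succ k ih =>
    intro a z hz
    have e : List.range' a (k + 1 + 2) = a :: List.range' (a + 1) (k + 2) := rfl
    rw [e, List.map_cons] at hz
    have e2 : List.range' (a + 1) (k + 2) = (a + 1) :: List.range' (a + 2) (k + 1) := rfl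
    have hz2 : z ∈ segment ℝ (toPlane (X a, (a : ℤ))) (toPlane (X (a + 1), ((a + 1 : ℕ) : ℤ))) ∪
        polyline ((List.range' (a + 1) (k + 2)).map (fun i => (X i, (i : ℤ)))) := by
      rw [e2, List.map_cons] at hz ⊢
      exact hz
    rcases hz2 with hz2 | hz2
    · obtain ⟨h1, h2, h3⟩ := seg_level hz2
      exact ⟨a, le_rfl, by omega, h1, h2, h3⟩
    · obtain ⟨i, h1, h2, h3⟩ := ih (a + 1) hz2
      exact ⟨i, by omega, by omega, h3⟩

theorem inc_level (X : ℕ → ℤ) (k : ℕ) : ∀ a : ℕ,
    List.IsChain (fun p q : ℤ × ℤ => p.2 < q.2) ((List.range' a k).map (fun i => (X i, (i : ℤ)))) := by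
  induction k with
  | zero => intro a; exact List.IsChain.nil
  | succ k ih =>
    intro a
    cases k with
    | zero => exact List.IsChain.singleton _
    | succ k =>
      have e : List.range' a (k + 1 + 1) = a :: (a + 1) :: List.range' (a + 2) k := rfl
      rw [e, List.map_cons, List.map_cons, List.isChain_cons_cons]
      refine ⟨?_, ?_⟩
      · show (a : ℤ) < ((a + 1 : ℕ) : ℤ)
        push_cast; omega
      · exact ih (a + 1)

namespace UpwardPlanarDrawing

variable {n : ℕ} {G : BipDAG n} (D : UpwardPlanarDrawing G)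

open Classical in
/-- level of a vertex -/
noncomputable def lev (v : Fin n) : ℕ := (Finset.univ.filter (fun w => D.lx w v)).card

theorem lev_lt {v w : Fin n} (h : D.lx v w) : D.lev v < D.lev w := by
  classical
  unfold lev
  apply Finset.card_lt_card
  rw [Finset.ssubset_iff_of_subset]
  · exact ⟨v, by simp [h], by simp [D.lx_irrefl]⟩
  · intro u hu
    simp only [Finset.mem_filter, Finset.mem_univ, true_and] at hu ⊢
    exact D.lx_trans hu h

theorem lev_lt_n (v : Fin n) : D.lev v < n := by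
  classical
  unfold lev
  have h : (Finset.univ.filter (fun w => D.lx w v)) ⊂ Finset.univ := by
    rw [Finset.ssubset_iff_of_subset (Finset.subset_univ _)]
    exact ⟨v, Finset.mem_univ _, by simp [D.lx_irrefl]⟩
  have := Finset.card_lt_card h
  rwa [Finset.card_univ, Fintype.card_fin] at this

theorem lev_inj {v w : Fin n} (h : D.lev v = D.lev w) : v = w := by
  by_contra hne
  rcases D.lx_total hne with h' | h'
  · have := D.lev_lt h'; omega
  · have := D.lev_lt h'; omega

theorem exists_lev (i : ℕ) (hi : i < n) : ∃ v, D.lev v = i := by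
  have hinj : Function.Injective (fun v : Fin n => (⟨D.lev v, D.lev_lt_n v⟩ : Fin n)) := by
    intro v w h
    exact D.lev_inj (by simpa using h)
  obtain ⟨v, hv⟩ := (Finite.surjective_of_injective hinj) ⟨i, hi⟩
  exact ⟨v, by simpa using hv⟩

/-- the vertex of level `i` -/
noncomputable def vat (i : ℕ) (hi : i < n) : Fin n := (D.exists_lev i hi).choose

theorem lev_vat (i : ℕ) (hi : i < n) : D.lev (D.vat i hi) = i := (D.exists_lev i hi).choose_spec

theorem vat_lev (v : Fin n) (h : D.lev v < n) : D.vat (D.lev v) h = v := D.lev_inj (D.lev_vat _ _)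

/-- the abscissa of the edge `e` at level `i` -/
noncomputable def Xi (e : Fin n × Fin n) (i : ℕ) : ℤ :=
  if h : i < n then (D.xc (D.vat i h) e : ℤ) else 0

theorem Xi_lev (e : Fin n × Fin n) (w : Fin n) : D.Xi e (D.lev w) = D.xc w e := by
  unfold Xi
  rw [dif_pos (D.lev_lt_n w), D.vat_lev]

theorem lx_of_lev {v w : Fin n} (h : D.lev v < D.lev w) : D.lx v w := by
  have hne : v ≠ w := by rintro rfl; omega
  rcases D.lx_total hne with h' | h'
  · exact h'
  · have := D.lev_lt h'; omega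

theorem present_of_lev {e : Fin n × Fin n} (he : Ed G e) {w : Fin n} (h1 : D.lev e.1 ≤ D.lev w)
    (h2 : D.lev w ≤ D.lev e.2) : D.present w e := by
  refine ⟨he, ?_, ?_⟩
  · rcases Nat.lt_or_ge (D.lev e.1) (D.lev w) with h | h
    · exact Or.inr (D.lx_of_lev h)
    · exact Or.inl (D.lev_inj (le_antisymm h1 h))
  · rcases Nat.lt_or_ge (D.lev w) (D.lev e.2) with h | h
    · exact Or.inr (D.lx_of_lev h)
    · exact Or.inl (D.lev_inj (le_antisymm h h2))

/-- new position of a vertex -/
noncomputable def npos (v : Fin n) : ℤ × ℤ := ((D.rv v : ℤ), (D.lev v : ℤ))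

/-- the new bends -/
noncomputable def nbends (u v : Fin n) : List (ℤ × ℤ) :=
  (List.range' (D.lev u + 1) (D.lev v - D.lev u - 1)).map (fun i => (D.Xi (u, v) i, (i : ℤ)))

theorem corners_eq {u v : Fin n} (h : G.Adj u v) :
    D.npos u :: (D.nbends u v ++ [D.npos v]) =
      (List.range' (D.lev u) ((D.lev v - D.lev u - 1) + 2)).map (fun i => (D.Xi (u, v) i, (i : ℤ))) := by
  have hlt : D.lev u < D.lev v := D.lev_lt (D.lx_of_edge (e := (u, v)) h)
  obtain ⟨k, hk⟩ : ∃ k, D.lev v = D.lev u + 1 + k := ⟨D.lev v - D.lev u - 1, by omega⟩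
  have hk' : D.lev v - D.lev u - 1 = k := by omega
  unfold nbends
  rw [hk']
  have e1 : List.range' (D.lev u) (k + 2) = D.lev u :: List.range' (D.lev u + 1) (k + 1) := rfl
  have e2 : List.range' (D.lev u + 1) (k + 1) = List.range' (D.lev u + 1) k ++ [D.lev v] := by
    rw [List.range'_concat, hk]
    simp
  rw [e1, e2, List.map_cons, List.map_append, List.map_cons, List.map_nil]
  have h1 : (D.Xi (u, v) (D.lev u), ((D.lev u : ℕ) : ℤ)) = D.npos u := by
    rw [Xi_lev]
    unfold npos xc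
    simp
  have h2 : (D.Xi (u, v) (D.lev v), ((D.lev v : ℕ) : ℤ)) = D.npos v := by
    rw [Xi_lev]
    unfold npos xc
    simp
  rw [h1, h2]

/-- points of a new edge -/
theorem mem_new {e : Fin n × Fin n} (he : Ed G e) {z : ℝ × ℝ}
    (hz : z ∈ polyline (D.npos e.1 :: (D.nbends e.1 e.2 ++ [D.npos e.2]))) :
    ∃ w w' : Fin n, D.lev w' = D.lev w + 1 ∧ D.present w e ∧ D.present w' e ∧
      (D.lev w : ℝ) ≤ z.2 ∧ z.2 ≤ D.lev w + 1 ∧
      z.1 = D.xc w e + ((D.xc w' e : ℝ) - D.xc w e) * (z.2 - D.lev w) := by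
  rw [D.corners_eq he] at hz
  obtain ⟨i, h1, h2, h3, h4, h5⟩ := mem_level_polyline _ _ _ hz
  have hlt : D.lev e.1 < D.lev e.2 := D.lev_lt (D.lx_of_edge he)
  have hn := D.lev_lt_n e.2
  obtain ⟨w, hw⟩ := D.exists_lev i (by omega)
  obtain ⟨w', hw'⟩ := D.exists_lev (i + 1) (by omega)
  refine ⟨w, w', by omega, D.present_of_lev he (by omega) (by omega),
    D.present_of_lev he (by omega) (by omega), by rw [hw]; exact h3, by rw [hw]; exact h4, ?_⟩
  have e1 : D.Xi (e.1, e.2) i = D.xc w e := by rw [← hw]; exact D.Xi_lev e w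
  have e2 : D.Xi (e.1, e.2) (i + 1) = D.xc w' e := by rw [← hw']; exact D.Xi_lev e w'
  rw [e1, e2] at h5
  rw [hw, h5]
  push_cast
  ring

theorem level_eq {w : Fin n} {e f : Fin n × Fin n} (he : D.present w e) (hf : D.present w f)
    (hne : e ≠ f) (h : D.xc w e = D.xc w f) : (e.1 = w ∨ e.2 = w) ∧ (f.1 = w ∨ f.2 = w) := by
  rcases D.left_total he.1 hf.1 hne (D.present_mem he) (D.present_mem hf) with hl | hl
  · rcases D.xc_le he hf hl with h' | ⟨-, h1, h2⟩
    · omega
    · exact ⟨h1, h2⟩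
  · rcases D.xc_le hf he hl with h' | ⟨-, h1, h2⟩
    · omega
    · exact ⟨h2, h1⟩

theorem xc_end {w : Fin n} {e : Fin n × Fin n} (h : e.1 = w ∨ e.2 = w) : D.xc w e = D.rv w := by
  unfold xc
  rw [if_pos h]

/-- meeting points of two new edges at a level -/
theorem meet_level {w : Fin n} {e f : Fin n × Fin n} (he : D.present w e) (hf : D.present w f)
    (hne : e ≠ f) {z : ℝ × ℝ} (h2 : z.2 = D.lev w) (h3 : z.1 = D.xc w e) (h4 : z.1 = D.xc w f) :
    ∃ w, (w = e.1 ∨ w = e.2) ∧ (w = f.1 ∨ w = f.2) ∧ z = toPlane (D.npos w) := by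
  have heq : D.xc w e = D.xc w f := by
    have : ((D.xc w e : ℕ) : ℝ) = D.xc w f := by rw [← h3, h4]
    exact_mod_cast this
  obtain ⟨h5, h6⟩ := D.level_eq he hf hne heq
  refine ⟨w, h5.imp Eq.symm Eq.symm, h6.imp Eq.symm Eq.symm, ?_⟩
  rw [D.xc_end h5] at h3
  unfold toPlane npos
  apply Prod.ext
  · simpa using h3
  · simpa using h2

theorem strip_core {w w' : Fin n} {e f : Fin n × Fin n} (hw : D.lev w' = D.lev w + 1)
    (he : D.present w e) (he' : D.present w' e) (hf : D.present w f) (hf' : D.present w' f)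
    (hl : D.left e f) {z : ℝ × ℝ} (h1 : (D.lev w : ℝ) ≤ z.2) (h2 : z.2 ≤ D.lev w + 1)
    (h3 : z.1 = D.xc w e + ((D.xc w' e : ℝ) - D.xc w e) * (z.2 - D.lev w))
    (h4 : z.1 = D.xc w f + ((D.xc w' f : ℝ) - D.xc w f) * (z.2 - D.lev w)) :
    ∃ w, (w = e.1 ∨ w = e.2) ∧ (w = f.1 ∨ w = f.2) ∧ z = toPlane (D.npos w) := by
  have hne : e ≠ f := by rintro rfl; exact D.left_irrefl _ hl
  have a := D.xc_le he hf hl
  have b := D.xc_le he' hf' hl
  obtain ⟨t, ht⟩ : ∃ t, t = z.2 - D.lev w := ⟨_, rfl⟩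
  rw [← ht] at h3 h4
  have t0 : 0 ≤ t := by rw [ht]; linarith
  have t1 : t ≤ 1 := by rw [ht]; linarith
  have key : (1 - t) * ((D.xc w f : ℝ) - D.xc w e) + t * ((D.xc w' f : ℝ) - D.xc w' e) = 0 := by
    have := h3.symm.trans h4
    linarith
  have a' : 0 ≤ (D.xc w f : ℝ) - D.xc w e := by
    have : D.xc w e ≤ D.xc w f := by rcases a with a | ⟨a, -⟩ <;> omega
    have : ((D.xc w e : ℕ) : ℝ) ≤ D.xc w f := by exact_mod_cast this
    linarith
  have b' : 0 ≤ (D.xc w' f : ℝ) - D.xc w' e := by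
    have : D.xc w' e ≤ D.xc w' f := by rcases b with b | ⟨b, -⟩ <;> omega
    have : ((D.xc w' e : ℕ) : ℝ) ≤ D.xc w' f := by exact_mod_cast this
    linarith
  have p1 := mul_nonneg (sub_nonneg.2 t1) a'
  have p2 := mul_nonneg t0 b'
  have z1 : (1 - t) * ((D.xc w f : ℝ) - D.xc w e) = 0 := by linarith
  have z2 : t * ((D.xc w' f : ℝ) - D.xc w' e) = 0 := by linarith
  by_cases ht0 : t = 0
  · apply D.meet_level he hf hne (w := w)
    · rw [ht0] at ht; linarith
    · rw [h3, ht0]; ring
    · rw [h4, ht0]; ring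
  · by_cases ht1 : t = 1
    · apply D.meet_level he' hf' hne (w := w')
      · rw [hw]; push_cast; rw [ht1] at ht; linarith
      · rw [h3, ht1]; ring
      · rw [h4, ht1]; ring
    · exfalso
      have q1 : (D.xc w f : ℝ) = D.xc w e := by
        rcases mul_eq_zero.1 z1 with h | h
        · exact absurd (by linarith) ht1
        · linarith
      have q2 : (D.xc w' f : ℝ) = D.xc w' e := by
        rcases mul_eq_zero.1 z2 with h | h
        · exact absurd h ht0
        · linarith
      have r1 : D.xc w e = D.xc w f := by exact_mod_cast q1.symm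
      have r2 : D.xc w' e = D.xc w' f := by exact_mod_cast q2.symm
      obtain ⟨s1, s2⟩ := D.level_eq he hf hne r1
      obtain ⟨s3, s4⟩ := D.level_eq he' hf' hne r2
      have lt : D.lx w w' := D.lx_of_lev (by omega)
      have fix : ∀ g : Fin n × Fin n, Ed G g → (g.1 = w ∨ g.2 = w) → (g.1 = w' ∨ g.2 = w') →
          g = (w, w') := by
        intro g hg k1 k2
        have kl := D.lx_of_edge hg
        rcases k1 with k1 | k1 <;> rcases k2 with k2 | k2
        · exfalso
          rw [← k1, k2] at lt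
          exact D.lx_irrefl _ lt
        · exact Prod.ext k1 k2
        · exfalso
          rw [k1, k2] at kl
          exact D.lx_irrefl _ (D.lx_trans kl lt)
        · exfalso
          rw [← k1, k2] at lt
          exact D.lx_irrefl _ lt
      exact hne ((fix e he.1 s1 s3).trans (fix f hf.1 s2 s4).symm)

theorem new_noncrossing {e f : Fin n × Fin n} (he : Ed G e) (hf : Ed G f) (hne : e ≠ f) {z : ℝ × ℝ}
    (h1 : z ∈ polyline (D.npos e.1 :: (D.nbends e.1 e.2 ++ [D.npos e.2])))
    (h2 : z ∈ polyline (D.npos f.1 :: (D.nbends f.1 f.2 ++ [D.npos f.2]))) :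
    ∃ w, (w = e.1 ∨ w = e.2) ∧ (w = f.1 ∨ w = f.2) ∧ z = toPlane (D.npos w) := by
  obtain ⟨w, w', a1, a2, a3, a4, a5, a6⟩ := D.mem_new he h1
  obtain ⟨v, v', b1, b2, b3, b4, b5, b6⟩ := D.mem_new hf h2
  rcases lt_trichotomy (D.lev w) (D.lev v) with h | h | h
  · have hv : (D.lev w : ℝ) + 1 ≤ D.lev v := by exact_mod_cast h
    have hz : z.2 = D.lev v := le_antisymm (a5.trans hv) b4
    have hwv : D.lev w' = D.lev v := by
      have : (D.lev v : ℝ) ≤ D.lev w + 1 := by rw [← hz]; exact a5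
      have : D.lev v ≤ D.lev w + 1 := by exact_mod_cast this
      omega
    have hw'v : w' = v := D.lev_inj hwv
    subst hw'v
    have hz' : z.2 - D.lev w = 1 := by
      rw [hz, hwv] at *
      have : (D.lev w' : ℝ) = D.lev w + 1 := by rw [a1]; push_cast; ring
      linarith
    apply D.meet_level a3 b2 hne (w := w') hz
    · rw [a6, hz']; ring
    · rw [b6, hz]; ring
  · have hwv : w = v := D.lev_inj h
    subst hwv
    have hw'v : w' = v' := D.lev_inj (by omega)
    subst hw'v
    rcases D.left_total he hf hne (D.present_mem a2) (D.present_mem b2) with hl | hl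
    · exact D.strip_core a1 a2 a3 b2 b3 hl a4 a5 a6 b6
    · obtain ⟨x, hx1, hx2, hx3⟩ := D.strip_core a1 b2 b3 a2 a3 hl a4 a5 b6 a6
      exact ⟨x, hx2, hx1, hx3⟩
  · have hv : (D.lev v : ℝ) + 1 ≤ D.lev w := by exact_mod_cast h
    have hz : z.2 = D.lev w := le_antisymm (b5.trans hv) a4
    have hwv : D.lev v' = D.lev w := by
      have : (D.lev w : ℝ) ≤ D.lev v + 1 := by rw [← hz]; exact b5
      have : D.lev w ≤ D.lev v + 1 := by exact_mod_cast this
      omega
    have hw'v : v' = w := D.lev_inj hwv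
    subst hw'v
    have hz' : z.2 - D.lev v = 1 := by
      have : (D.lev v' : ℝ) = D.lev v + 1 := by rw [b1]; push_cast; ring
      linarith
    apply D.meet_level a2 b3 hne (w := v') hz
    · rw [a6, hz]; ring
    · rw [b6, hz']; ring

/-- the new drawing -/
noncomputable def newDrawing : PolylineDrawing G where
  pos := D.npos
  pos_inj := by
    intro v w h
    apply D.lev_inj
    have := congrArg Prod.snd h
    unfold npos at this
    simpa using this
  bends := D.nbends
  upward u v h := by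
    rw [D.corners_eq h]
    exact inc_level _ _ _
  noncrossing u v u' v' h h' hne z hz hz' :=
    D.new_noncrossing (e := (u, v)) (f := (u', v')) h h' hne hz hz'
  vertex_free u v x h hx := by
    obtain ⟨w, w', a1, a2, a3, a4, a5, a6⟩ := D.mem_new (e := (u, v)) h hx
    have hx2 : (toPlane (D.npos x)).2 = D.lev x := by unfold toPlane npos; simp
    have hx1 : (toPlane (D.npos x)).1 = D.rv x := by unfold toPlane npos; simp
    rw [hx2] at a4 a5 a6
    rw [hx1] at a6
    have a4' : D.lev w ≤ D.lev x := by exact_mod_cast a4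
    have a5' : D.lev x ≤ D.lev w + 1 := by exact_mod_cast a5
    have fin : D.present x (u, v) → D.rv x = D.xc x (u, v) → x = u ∨ x = v := by
      intro hp hr
      by_contra hcon
      push Not at hcon
      have ha := D.alive_of_present hp (by
        rintro (h | h)
        · exact hcon.1 h.symm
        · exact hcon.2 h.symm)
      exact D.rv_ne_xc ha hr.symm
    have hcase : D.lev x = D.lev w ∨ D.lev x = D.lev w' := by omega
    rcases hcase with hc | hc
    · have : x = w := D.lev_inj hc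
      subst this
      apply fin a2
      have : ((D.rv x : ℕ) : ℝ) = D.xc x (u, v) := by rw [a6]; ring
      exact_mod_cast this
    · have : x = w' := D.lev_inj hc
      subst this
      apply fin a3
      have h1 : (D.lev x : ℝ) - D.lev w = 1 := by rw [a1]; push_cast; ring
      have : ((D.rv x : ℕ) : ℝ) = D.xc x (u, v) := by rw [a6, h1]; ring
      exact_mod_cast this

theorem new_inBox : D.newDrawing.InBox 0 0 (4 * n + 2) n := by
  constructor
  · intro v
    show (0 : ℤ) ≤ (D.rv v : ℤ) ∧ (D.rv v : ℤ) ≤ 0 + ((4 * n + 2 : ℕ) : ℤ) ∧ (0 : ℤ) ≤ (D.lev v : ℤ) ∧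
      (D.lev v : ℤ) ≤ 0 + (n : ℤ)
    have h1 := D.rv_le v
    have h2 := D.lev_lt_n v
    push_cast
    omega
  · intro u v h p hp
    have hp' : p ∈ D.nbends u v := hp
    unfold nbends at hp'
    rw [List.mem_map] at hp'
    obtain ⟨i, hi, rfl⟩ := hp'
    rw [List.mem_range'_1] at hi
    have h2 := D.lev_lt_n v
    have hin : i < n := by omega
    have h3 : D.Xi (u, v) i = (D.xc (D.vat i hin) (u, v) : ℤ) := by unfold Xi; rw [dif_pos hin]
    have h4 := D.xc_le_bound (D.vat i hin) (u, v)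
    simp only
    rw [h3]
    push_cast
    omega

end UpwardPlanarDrawing

theorem area_upper {n : ℕ} {G : BipDAG n} (D : UpwardPlanarDrawing G) :
    minArea G ≤ (4 * n + 2) * n := by
  have h1 : minArea G ≤ D.newDrawing.area := Nat.sInf_le ⟨D.newDrawing, rfl⟩
  have h2 : D.newDrawing.area ≤ (4 * n + 2) * n := Nat.sInf_le ⟨0, 0, _, _, D.new_inBox, rfl⟩
  exact h1.trans h2

theorem Ap_upper (n : ℕ) : Ap n ≤ (4 * n + 2) * n := by
  unfold Ap
  apply csSup_le'
  rintro a ⟨G, ⟨D⟩, rfl⟩
  exact area_upper D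

end Pool.Agent.H204R2.BD
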