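import Pool.Agent.H308R2.ZS.Stubs

/-!
# GENR: generic perturbation
-/

set_option autoImplicit false

open scoped ComplexConjugate Kronecker Matrix.Norms.L2Operator

namespace Pool.Agent.H308R2.ZS.T_GENR

open Pool.Agent.H923R2.FP Pool.Agent.H923R2.FZ Pool.Agent.H308R2.ZS
open MeasureTheory Set

theorem herm {n : ℕ} {h : C(unitInterval, MM n)} (hh : star h = h) (t : unitInterval) :
    (h t).IsHermitian := by
  have h1 : (star h) t = h t := by rw [hh]
  exact h1

theorem t_GENR (hMULT : S_MULT) : S_GENR := by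
  intro n r hr h g hh hg hm μ _ η hη
  obtain ⟨P, hPc, hP1, hP2⟩ := hMULT (Ix n) r hr
  set N : Set (unitInterval × ℝ) := {p | P (h p.1 + (p.2 : ℂ) • g p.1) = 0} with hN
  have hcont : Continuous fun p : unitInterval × ℝ => P (h p.1 + (p.2 : ℂ) • g p.1) := by
    refine hPc.comp ?_
    refine (h.continuous.comp continuous_fst).add ?_
    exact (Complex.continuous_ofReal.comp continuous_snd).smul (g.continuous.comp continuous_fst)
  have hclosed : IsClosed N := isClosed_singleton.preimage hcont
  have hmeas : MeasurableSet N := hclosed.measurableSet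
  have hPg : ∀ t, P (g t) ≠ 0 := by
    intro t h0
    obtain ⟨c, hc⟩ := (hP1 (g t) (herm hg t)).mp h0
    exact absurd hc (not_lt.mpr (hm t c))
  have hfin : ∀ t : unitInterval, volume (Prod.mk t ⁻¹' N) = 0 := by
    intro t
    have h1 := hP2 (h t) (g t) (herm hh t) (herm hg t) (hPg t)
    exact h1.measure_zero volume
  have hnull : (μ.prod (volume : Measure ℝ)) N = 0 := by
    rw [Measure.measure_prod_null hmeas]
    exact Filter.Eventually.of_forall hfin
  rw [Measure.prod_apply_symm hmeas, lintegral_eq_zero_iff (measurable_measure_prodMk_right hmeas)]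
    at hnull
  have hvol : volume (Ioo (0 : ℝ) η) ≠ 0 := by
    rw [Real.volume_Ioo]
    simp [hη]
  have hex : ∃ x ∈ Ioo (0 : ℝ) η, μ ((fun t : unitInterval => (t, x)) ⁻¹' N) = 0 := by
    by_contra hcon
    push Not at hcon
    have hsub : Ioo (0 : ℝ) η ⊆ {x : ℝ | ¬ (μ ((fun t : unitInterval => (t, x)) ⁻¹' N) = 0)} :=
      fun x hx => hcon x hx
    exact hvol (measure_mono_null hsub (ae_iff.mp hnull))
  obtain ⟨x, hx, hx0⟩ := hex
  refine ⟨x, hx.1, hx.2, ?_⟩
  have hae : ∀ᵐ t ∂μ, P (h t + (x : ℂ) • g t) ≠ 0 := by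
    rw [ae_iff]
    have : {t : unitInterval | ¬ P (h t + (x : ℂ) • g t) ≠ 0} = (fun t => (t, x)) ⁻¹' N := by
      ext t
      simp only [not_not, hN, Set.mem_preimage]
      rfl
    rw [this]
    exact hx0
  filter_upwards [hae] with t ht c
  by_contra hcon
  apply ht
  have hherm : (h t + (x : ℂ) • g t).IsHermitian := by
    have h1 := herm hh t
    have h2 := herm hg t
    have h3 : ((x : ℂ) • g t).IsHermitian := by
      unfold Matrix.IsHermitian
      rw [Matrix.conjTranspose_smul, h2.eq]
      simp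
    exact h1.add h3
  exact (hP1 _ hherm).mpr ⟨c, not_le.mp hcon⟩

end Pool.Agent.H308R2.ZS.T_GENR
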